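import Mathlib

section

section

/-!
# MP_42532b_al : definitions for the construction

Everything is stated for a group `A` with an integer valued word-norm-like function `ℓ : A → ℕ`.
-/

namespace L2B

open Set

section Norm
variable {A : Type*} [Group A]

/-- word-norm like functions -/
structure GNorm (ℓ : A → ℕ) : Prop where
  one : ℓ 1 = 0
  eq_one : ∀ g, ℓ g = 0 → g = 1
  inv : ∀ g, ℓ g⁻¹ = ℓ g
  mul : ∀ g h, ℓ (g * h) ≤ ℓ g + ℓ h
  geo : ∀ g n, n ≤ ℓ g → ∃ h, ℓ h = n ∧ ℓ (h⁻¹ * g) = ℓ g - n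
  fin : ∀ n, {g | ℓ g ≤ n}.Finite

/-- left invariant distance -/
def gd (ℓ : A → ℕ) (x y : A) : ℕ := ℓ (x⁻¹ * y)

/-- four point hyperbolicity -/
def Hyp (ℓ : A → ℕ) (δ : ℕ) : Prop :=
  ∀ x y z t : A, gd ℓ x y + gd ℓ z t ≤
    max (gd ℓ x z + gd ℓ y t) (gd ℓ x t + gd ℓ y z) + 2 * δ

/-- `z` lies on a geodesic from `x` to `y` -/
def Btw (ℓ : A → ℕ) (x y z : A) : Prop := gd ℓ x z + gd ℓ z y = gd ℓ x y

/-- loxodromic elements: positive stable length -/
def Lox (ℓ : A → ℕ) (g : A) : Prop := ∃ c : ℕ, 0 < c ∧ ∀ m : ℕ, m ≤ c * ℓ (g ^ m)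

/-- infinite order -/
def InfOrd (g : A) : Prop := ∀ m : ℕ, 0 < m → g ^ m ≠ 1

/-- `h ∈ E(g)` -/
def InE (g h : A) : Prop := ∃ m m' : ℤ, m ≠ 0 ∧ m' ≠ 0 ∧ h * g ^ m * h⁻¹ = g ^ m'

/-- `w` is a root: `E(w) = ⟨w⟩` -/
def IsRoot (w : A) : Prop := InfOrd w ∧ ∀ h, InE w h → ∃ i : ℤ, h = w ^ i

/-- same line `g⟨w⟩ = h⟨w⟩` -/
def SameL (w g h : A) : Prop := ∃ i : ℤ, h = g * w ^ i

/-- the line `g⟨w⟩` -/
def Ln (w g : A) : Set A := {x | ∃ i : ℤ, x = g * w ^ i}

/-- difference of the coordinates of (the projections of) `z` and `x` on the line `g⟨w⟩`;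
`e` is the coordinate function of the base line `⟨w⟩`. -/
def dl (e : A → ℤ) (g x z : A) : ℤ := e (g⁻¹ * z) - e (g⁻¹ * x)

/-- projection system of the lines `g⟨w⟩`: `e x` is the index `i` of a nearest point `w ^ i` of the
line `⟨w⟩` to `x`. -/
structure PS (ℓ : A → ℕ) (w : A) (κ : ℕ) (e : A → ℤ) : Prop where
  pos : 1 ≤ κ
  shift : ∀ (i : ℤ) x, e (w ^ i * x) = e x + i
  one : e 1 = 0
  lip : ∀ x z, |e z - e x| ≤ κ * (gd ℓ x z + 1)
  low : ∀ i : ℤ, |i| ≤ κ * (ℓ (w ^ i) + 1)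
  overlap : ∀ g, ¬ SameL w 1 g → ∀ i j : ℤ, |e (g * w ^ i) - e (g * w ^ j)| ≤ κ
  behr : ∀ g x, ¬ SameL w 1 g →
    (∀ i : ℤ, |e (g * w ^ i) - e x| ≤ κ) ∨ (∀ i : ℤ, |e (g⁻¹ * w ^ i) - e (g⁻¹ * x)| ≤ κ)
  pass : ∀ x z, (κ : ℤ) < |e z - e x| →
    gd ℓ x (w ^ e x) + ℓ (w ^ (e z - e x)) + gd ℓ (w ^ e z) z ≤ gd ℓ x z + κ
  ax : ∀ i j : ℕ, ℓ (w ^ i) + ℓ (w ^ j) ≤ ℓ (w ^ (i + j)) + κ
  qc : ∀ (i j : ℤ) (z : A), Btw ℓ (w ^ i) (w ^ j) z → ∃ k : ℤ, gd ℓ z (w ^ k) ≤ κ

/-- the normal closure of `w ^ n` -/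
def KK (w : A) (n : ℕ) : Subgroup A := Subgroup.normalClosure {w ^ n}

/-- Greendlinger property -/
def Green (w : A) (e : A → ℤ) (n C : ℕ) : Prop :=
  ∀ k ∈ KK w n, k ≠ 1 → ∀ x, ∃ g, (n : ℤ) ≤ |dl e g x (k * x)| + C

/-- Cohen-Lyndon property -/
def CohLyn (w : A) (n : ℕ) : Prop :=
  ∃ T : Set A,
    Function.Injective (FreeGroup.lift (fun t : T => (t : A) * w ^ n * (t : A)⁻¹)) ∧
    (FreeGroup.lift (fun t : T => (t : A) * w ^ n * (t : A)⁻¹)).range = KK w n ∧
    ∀ g : A, ∃ k ∈ KK w n, ∃ t ∈ T, ∃ i : ℤ, g = k * t * w ^ i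

/-- quasiconvexity (of a subset) -/
def QCs (ℓ : A → ℕ) (W : Set A) (c : ℕ) : Prop :=
  ∀ x ∈ W, ∀ y ∈ W, ∀ z, Btw ℓ x y z → ∃ w ∈ W, gd ℓ z w ≤ c

/-- malnormality with respect to elements of infinite order -/
def MN (H : Subgroup A) : Prop := ∀ b : A, ∀ h ∈ H, InfOrd h → b * h * b⁻¹ ∈ H → b ∈ H

/-- Dehn property -/
def DehnP (ℓ : A → ℕ) (R : ℕ) : Prop :=
  ∀ (m : ℕ) (v : ℕ → A), 1 ≤ m → v m = v 0 → (∀ i < m, gd ℓ (v i) (v (i+1)) ≤ 1) →
    ∃ i j, i < j ∧ j ≤ m ∧ j - i ≤ R ∧ gd ℓ (v i) (v j) < j - i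

/-- paths of length (at most) `m` from `x` to `y` staying outside the open ball of radius `ρ`
around `p` -/
inductive Av (ℓ : A → ℕ) (p : A) (ρ : ℕ) : A → A → ℕ → Prop
  | refl (x : A) (hx : ρ ≤ gd ℓ p x) : Av ℓ p ρ x x 0
  | step (x y z : A) (m : ℕ) (h : Av ℓ p ρ x y m) (hz : gd ℓ y z ≤ 1) (hp : ρ ≤ gd ℓ p z) :
      Av ℓ p ρ x z (m + 1)

/-- geodesic path of length `N` from `x` to `y` -/
structure GP (ℓ : A → ℕ) (α : ℕ → A) (N : ℕ) (x y : A) : Prop where
  zero : α 0 = x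
  last : α N = y
  geo : ∀ i j, i ≤ j → j ≤ N → gd ℓ (α i) (α j) = j - i

/-- chain of objects (section 6): `S 0, S 1 = line V 1, ..., S m = line V m, S (m+1)` -/
structure Chain (w : A) (e : A → ℤ) (Λ : ℤ) (m : ℕ) (S : ℕ → Set A) (V : ℕ → A) : Prop where
  line : ∀ i, 1 ≤ i → i ≤ m → S i = Ln w (V i)
  diff : ∀ i, 1 ≤ i → i + 1 ≤ m → ¬ SameL w (V i) (V (i+1))
  far : ∀ i, i < m → ∀ u ∈ S i, ∀ v ∈ S (i+2), Λ ≤ |dl e (V (i+1)) u v|

end Norm

section Quot
variable {A A' : Type*} [Group A] [Group A']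

/-- `ℓ'` is the quotient norm of `ℓ` under the surjection `q` -/
structure QNorm (q : A →* A') (ℓ : A → ℕ) (ℓ' : A' → ℕ) : Prop where
  le : ∀ g, ℓ' (q g) ≤ ℓ g
  lift : ∀ g', ∃ g, q g = g' ∧ ℓ g = ℓ' g'

end Quot

end L2B
end

section

namespace L2B

section
variable {A : Type*} [Group A] {ℓ : A → ℕ}

theorem GNorm.gd_self (h : GNorm ℓ) (x : A) : gd ℓ x x = 0 := by
  simp [gd, h.one]

theorem GNorm.gd_comm (h : GNorm ℓ) (x y : A) : gd ℓ x y = gd ℓ y x := by
  unfold gd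
  rw [← h.inv]; congr 1; group

theorem GNorm.gd_tri (h : GNorm ℓ) (x y z : A) : gd ℓ x z ≤ gd ℓ x y + gd ℓ y z := by
  unfold gd
  have := h.mul (x⁻¹ * y) (y⁻¹ * z)
  have e : x⁻¹ * y * (y⁻¹ * z) = x⁻¹ * z := by group
  rwa [e] at this

theorem gd_left (ℓ : A → ℕ) (a x y : A) : gd ℓ (a * x) (a * y) = gd ℓ x y := by
  unfold gd; congr 1; group

theorem gd_one (ℓ : A → ℕ) (x : A) : gd ℓ 1 x = ℓ x := by
  unfold gd; simp

theorem GNorm.gd_eq_zero (h : GNorm ℓ) {x y : A} (hx : gd ℓ x y = 0) : x = y := by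
  have := h.eq_one _ hx
  exact (inv_mul_eq_one.mp this)

theorem GNorm.exists_btw (h : GNorm ℓ) (x y : A) (n : ℕ) (hn : n ≤ gd ℓ x y) :
    ∃ z, gd ℓ x z = n ∧ Btw ℓ x y z := by
  obtain ⟨u, hu1, hu2⟩ := h.geo (x⁻¹ * y) n hn
  refine ⟨x * u, ?_, ?_⟩
  · unfold gd; rw [← hu1]; congr 1; group
  · have h1 : gd ℓ x (x * u) = n := by unfold gd; rw [← hu1]; congr 1; group
    have h2 : gd ℓ (x * u) y = gd ℓ x y - n := by
      unfold gd at *; rw [← hu2]; congr 1; group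
    unfold Btw; omega

theorem btw_left (ℓ : A → ℕ) (a x y z : A) : Btw ℓ (a * x) (a * y) (a * z) ↔ Btw ℓ x y z := by
  unfold Btw; rw [gd_left, gd_left, gd_left]

theorem GNorm.btw_comm (h : GNorm ℓ) {x y z : A} : Btw ℓ x y z ↔ Btw ℓ y x z := by
  unfold Btw
  rw [h.gd_comm y z, h.gd_comm z x, h.gd_comm y x]; omega

/-- (1.1) -/
theorem nearBtw (h : GNorm ℓ) {δ : ℕ} (hyp : Hyp ℓ δ) {a b z : A} {e : ℕ}
    (hz : gd ℓ a z + gd ℓ z b ≤ gd ℓ a b + e) :
    ∃ z', Btw ℓ a b z' ∧ gd ℓ z z' ≤ e + 2 * δ := by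
  by_cases hc : gd ℓ a z ≤ gd ℓ a b
  · obtain ⟨z', h1, h2⟩ := h.exists_btw a b (gd ℓ a z) hc
    refine ⟨z', h2, ?_⟩
    have := hyp z z' a b
    unfold Btw at h2
    have e1 := h.gd_comm z a
    have e2 := h.gd_comm z' a
    omega
  · obtain ⟨z', h1, h2⟩ := h.exists_btw a b (gd ℓ a b) le_rfl
    refine ⟨z', h2, ?_⟩
    unfold Btw at h2
    have h3 : gd ℓ z' b = 0 := by omega
    have h4 := h.gd_eq_zero h3
    subst h4
    omega

/-- (1.2) thin triangles -/
theorem thinTri (h : GNorm ℓ) {δ : ℕ} (hyp : Hyp ℓ δ) {x y z : A} (hz : Btw ℓ x y z) (u : A) :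
    ∃ z', (Btw ℓ x u z' ∨ Btw ℓ u y z') ∧ gd ℓ z z' ≤ 4 * δ := by
  have h1 := hyp x y z u
  unfold Btw at hz
  have e1 := h.gd_comm y u
  have e2 := h.gd_comm y z
  have e3 := h.gd_comm u y
  rcases le_total (gd ℓ x u + gd ℓ y z) (gd ℓ x z + gd ℓ y u) with hc | hc
  · -- z near [u,y]
    have h2 : gd ℓ u z + gd ℓ z y ≤ gd ℓ u y + 2 * δ := by
      rw [max_eq_left hc] at h1
      have := h.gd_comm u z
      omega
    obtain ⟨z', h3, h4⟩ := nearBtw h hyp h2
    exact ⟨z', Or.inr h3, by omega⟩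
  · have h2 : gd ℓ x z + gd ℓ z u ≤ gd ℓ x u + 2 * δ := by
      rw [max_eq_right hc] at h1
      omega
    obtain ⟨z', h3, h4⟩ := nearBtw h hyp h2
    exact ⟨z', Or.inl h3, by omega⟩

/-- (1.3) bigons -/
theorem bigon (h : GNorm ℓ) {δ : ℕ} (hyp : Hyp ℓ δ) {x y z z' : A} (hz : Btw ℓ x y z)
    (hz' : Btw ℓ x y z') (he : gd ℓ x z = gd ℓ x z') : gd ℓ z z' ≤ 2 * δ := by
  have h1 := hyp z z' x y
  unfold Btw at *
  have e1 := h.gd_comm z x
  have e2 := h.gd_comm z' x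
  omega

/-- discrete intermediate value -/
theorem ivt (f : ℕ → ℕ) (N t : ℕ) (h0 : f 0 ≤ t) (hN : t ≤ f N) (hpos : 0 < N) :
    ∃ i < N, f i ≤ t ∧ t ≤ f (i + 1) := by
  induction N with
  | zero => omega
  | succ n ih =>
    by_cases hc : t ≤ f n
    · rcases Nat.eq_zero_or_pos n with hn | hn
      · subst hn; exact ⟨0, by omega, h0, hN⟩
      · obtain ⟨i, h1, h2⟩ := ih hc hn
        exact ⟨i, by omega, h2⟩
    · exact ⟨n, by omega, by omega, hN⟩

/-- (1.4) coverage -/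
theorem cover (h : GNorm ℓ) {δ : ℕ} (hyp : Hyp ℓ δ) {x y z : A} (hz : Btw ℓ x y z)
    (a : ℕ → A) (N k : ℕ) (hN : 0 < N) (h0 : a 0 = x) (h1 : a N = y)
    (ha : ∀ i ≤ N, gd ℓ x (a i) + gd ℓ (a i) y ≤ gd ℓ x y + k) :
    ∃ i < N, ∃ z', Btw ℓ (a i) (a (i+1)) z' ∧ gd ℓ z z' ≤ 2 * k + 6 * δ := by
  obtain ⟨i, hi, hi1, hi2⟩ := ivt (fun i => gd ℓ x (a i)) N (gd ℓ x z)
    (by simp only [h0, h.gd_self]; omega) (by simp only [h1]; unfold Btw at hz; omega) hN
  refine ⟨i, hi, ?_⟩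
  have A1 := ha i (by omega)
  have A2 := ha (i+1) (by omega)
  have B1 := hyp z (a i) x y
  have B2 := hyp z (a (i+1)) x y
  have C1 := h.gd_comm z x
  have C2 := h.gd_comm (a i) x
  have C3 := h.gd_comm (a (i+1)) x
  have T := h.gd_tri x (a i) (a (i+1))
  have C4 := h.gd_comm z (a i)
  unfold Btw at hz
  have key : gd ℓ (a i) z + gd ℓ z (a (i+1)) ≤ gd ℓ (a i) (a (i+1)) + (2 * k + 4 * δ) := by
    omega
  obtain ⟨z', h3, h4⟩ := nearBtw h hyp key
  exact ⟨z', h3, by omega⟩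

end

end L2B
end
end

section

/-!
# First L²-Betti number of a finitely generated group through harmonic Dirichlet functions

Real Hilbert spaces `ℓ²(G × I)` with the left translation action of `G`, traces of equivariant
operators, von Neumann dimension of invariant subspaces.
-/

noncomputable section

namespace MP42532b.L2

open scoped InnerProductSpace

/-- `ℓ²(G × I)` -/
abbrev Hi (G I : Type*) : Type _ := lp (fun _ : G × I => ℝ) 2

theorem memℓp_comp {α β : Type*} (σ : α ≃ β) (v : lp (fun _ : β => ℝ) 2) :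
    Memℓp (fun a => v (σ a)) 2 := by
  have h := lp.memℓp v
  rw [memℓp_gen_iff (by norm_num)] at h ⊢
  exact (σ.summable_iff (f := fun b => ‖v b‖ ^ ENNReal.toReal 2)).2 h

/-- pull back of functions along a bijection, as an isometry of `ℓ²` spaces -/
def permL {α β : Type*} (σ : α ≃ β) :
    lp (fun _ : β => ℝ) 2 ≃ₗᵢ[ℝ] lp (fun _ : α => ℝ) 2 where
  toFun v := ⟨fun a => v (σ a), memℓp_comp σ v⟩
  invFun v := ⟨fun b => v (σ.symm b), memℓp_comp σ.symm v⟩
  left_inv v := by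
    ext b
    change v (σ (σ.symm b)) = v b
    rw [σ.apply_symm_apply]
  right_inv v := by
    ext b
    change v (σ.symm (σ b)) = v b
    rw [σ.symm_apply_apply]
  map_add' u v := by
    ext b
    rfl
  map_smul' c v := by
    ext b
    rfl
  norm_map' v := by
    rw [lp.norm_eq_tsum_rpow (by norm_num), lp.norm_eq_tsum_rpow (by norm_num)]
    congr 1
    exact σ.tsum_eq (fun b => ‖v b‖ ^ ENNReal.toReal 2)

@[simp] theorem permL_apply {α β : Type*} (σ : α ≃ β) (v : lp (fun _ : β => ℝ) 2) (a : α) :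
    permL σ v a = v (σ a) := rfl

variable {G I J K : Type*} [Group G]

/-- left translation on `ℓ²(G × I)`: `(lam g v) (h, i) = v (g⁻¹ h, i)` -/
def lam (g : G) : Hi G I ≃ₗᵢ[ℝ] Hi G I :=
  permL ((Equiv.mulLeft g⁻¹).prodCongr (Equiv.refl I))

@[simp] theorem lam_apply (g : G) (v : Hi G I) (h : G) (i : I) :
    lam g v (h, i) = v (g⁻¹ * h, i) := rfl

open Classical in
/-- the basis vector at `(g, i)` -/
def ee (g : G) (i : I) : Hi G I := lp.single 2 (g, i) (1 : ℝ)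

/-- operators commuting with the left translations -/
def Equivar (A : Hi G I →L[ℝ] Hi G J) : Prop := ∀ (g : G) (v : Hi G I), A (lam g v) = lam g (A v)

/-- subspaces invariant under the left translations -/
def Invar (W : Submodule ℝ (Hi G I)) : Prop := ∀ (g : G), ∀ v ∈ W, lam g v ∈ W

/-- the trace of an operator (used for equivariant ones) -/
def tr [Fintype I] (A : Hi G I →L[ℝ] Hi G I) : ℝ := ∑ i, ⟪A (ee 1 i), ee 1 i⟫_ℝ

/-- von Neumann dimension of (the closure of) an invariant subspace of `ℓ²(G × I)` -/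
def vdim [Fintype I] (W : Submodule ℝ (Hi G I)) : ℝ :=
  ∑ i, ‖W.topologicalClosure.starProjection (ee 1 i)‖ ^ 2

/-- right translation operator on `ℓ²(G)`: `(rsh h u) g = u (g h)` -/
def rsh (h : G) : Hi G Unit ≃ₗᵢ[ℝ] Hi G Unit :=
  permL ((Equiv.mulRight h).prodCongr (Equiv.refl Unit))

@[simp] theorem rsh_apply (h : G) (u : Hi G Unit) (g : G) :
    rsh h u (g, ()) = u (g * h, ()) := rfl

/-- functions on `G` which are constant on the cosets `g C` -/
def invR (C : Subgroup G) : Submodule ℝ (Hi G Unit) where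
  carrier := {u | ∀ g, ∀ c ∈ C, u (g * c, ()) = u (g, ())}
  zero_mem' := fun g c _ => rfl
  add_mem' := fun {u v} hu hv g c hc => by
    change u (g * c, ()) + v (g * c, ()) = u (g, ()) + v (g, ())
    rw [hu g c hc, hv g c hc]
  smul_mem' := fun r u hu g c hc => by
    change r * u (g * c, ()) = r * u (g, ())
    rw [hu g c hc]

/-! ### Paths in the Cayley graph -/

variable {d : ℕ}

/-- one step along the generator `i`, adding up the values of `v` on the edges -/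
def step (s : Fin d → G) (v : G × Fin d → ℝ) (i : Fin d) : Equiv.Perm (G × ℝ) where
  toFun p := (p.1 * s i, p.2 + v (p.1, i))
  invFun p := (p.1 * (s i)⁻¹, p.2 - v (p.1 * (s i)⁻¹, i))
  left_inv p := by simp
  right_inv p := by simp

/-- paths labelled by words of the free group -/
def psum (s : Fin d → G) (v : G × Fin d → ℝ) :
    FreeGroup (Fin d) →* (Equiv.Perm (G × ℝ))ᵐᵒᵖ :=
  FreeGroup.lift fun i => MulOpposite.op (step s v i)

/-- the sum of `v` along the path starting at `g` labelled by the word `w` -/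
def pint (s : Fin d → G) (v : G × Fin d → ℝ) (g : G) (w : FreeGroup (Fin d)) : ℝ :=
  ((psum s v w).unop (g, 0)).2

/-- square summable gradients: `v (g, i) = f (g sᵢ) - f g` -/
def gradS (s : Fin d → G) : Submodule ℝ (Hi G (Fin d)) where
  carrier := {v | ∃ f : G → ℝ, ∀ g i, v (g, i) = f (g * s i) - f g}
  zero_mem' := ⟨0, fun g i => by simp⟩
  add_mem' := by
    rintro u v ⟨f, hf⟩ ⟨f', hf'⟩
    refine ⟨f + f', fun g i => ?_⟩
    change u (g, i) + v (g, i) = _
    rw [hf, hf', Pi.add_apply, Pi.add_apply]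
    ring
  smul_mem' := by
    rintro r u ⟨f, hf⟩
    refine ⟨r • f, fun g i => ?_⟩
    change r * u (g, i) = _
    rw [hf, Pi.smul_apply, Pi.smul_apply, smul_eq_mul, smul_eq_mul]
    ring

/-- `f` is harmonic on the Cayley graph (right multiplication by the generators `sᵢ`) -/
def IsHarm (s : Fin d → G) (f : G → ℝ) : Prop :=
  ∀ g, ∑ i, ((f (g * s i) - f g) + (f (g * (s i)⁻¹) - f g)) = 0

/-- gradients of harmonic Dirichlet functions -/
def harmS (s : Fin d → G) : Submodule ℝ (Hi G (Fin d)) where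
  carrier := {v | ∃ f : G → ℝ, IsHarm s f ∧ ∀ g i, v (g, i) = f (g * s i) - f g}
  zero_mem' := ⟨0, fun g => by simp, fun g i => by simp⟩
  add_mem' := by
    rintro u v ⟨f, hh, hf⟩ ⟨f', hh', hf'⟩
    refine ⟨f + f', fun g => ?_, fun g i => ?_⟩
    · have h1 := congrArg₂ (· + ·) (hh g) (hh' g)
      simp only [add_zero] at h1
      rw [← Finset.sum_add_distrib] at h1
      rw [← h1]
      refine Finset.sum_congr rfl fun i _ => ?_
      simp only [Pi.add_apply]
      ring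
    · change u (g, i) + v (g, i) = _
      rw [hf, hf', Pi.add_apply, Pi.add_apply]
      ring
  smul_mem' := by
    rintro r u ⟨f, hh, hf⟩
    refine ⟨r • f, fun g => ?_, fun g i => ?_⟩
    · rw [← mul_zero r, ← hh g, Finset.mul_sum]
      refine Finset.sum_congr rfl fun i _ => ?_
      simp only [Pi.smul_apply, smul_eq_mul]
      ring
    · change r * u (g, i) = _
      rw [hf, Pi.smul_apply, Pi.smul_apply, smul_eq_mul, smul_eq_mul]
      ring

/-- the first `L²`-Betti number of a group with generators `s`: the von Neumann dimension of the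
space of gradients of harmonic Dirichlet functions -/
def beta (s : Fin d → G) : ℝ := vdim (harmS s)

/-- the gradient, as an operator -/
def IsGradOp (s : Fin d → G) (A : Hi G Unit →L[ℝ] Hi G (Fin d)) : Prop :=
  ∀ u g i, A u (g, i) = u (g * s i, ()) - u (g, ())

open Classical in
/-- amenability (Følner's condition) -/
def Amen (G : Type*) [Group G] : Prop :=
  ∀ S : Finset G, ∀ ε : ℝ, 0 < ε → ∃ F : Finset G, F.Nonempty ∧
    ∀ s ∈ S, (({g ∈ F | g * s ∉ F} : Finset G).card : ℝ) ≤ ε * F.card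

end MP42532b.L2
end
end

section

/-! # Translations, basis vectors, equivariant operators, invariant subspaces -/

noncomputable section

namespace MP42532b.L2

open scoped InnerProductSpace

variable {G I J K : Type*} [Group G]

theorem lam_one (v : Hi G I) : lam 1 v = v := by
  ext p
  obtain ⟨h, i⟩ := p
  rw [lam_apply, inv_one, one_mul]

theorem lam_mul (g h : G) (v : Hi G I) : lam (g * h) v = lam g (lam h v) := by
  ext p
  obtain ⟨k, i⟩ := p
  rw [lam_apply, lam_apply, lam_apply, mul_inv_rev, mul_assoc]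

theorem lam_inv_lam (g : G) (v : Hi G I) : lam g⁻¹ (lam g v) = v := by
  rw [← lam_mul, inv_mul_cancel, lam_one]

theorem lam_lam_inv (g : G) (v : Hi G I) : lam g (lam g⁻¹ v) = v := by
  rw [← lam_mul, mul_inv_cancel, lam_one]

theorem ee_apply_self (g : G) (i : I) : ee g i (g, i) = 1 := by
  classical
  unfold ee
  rw [lp.single_apply]
  exact Pi.single_eq_same _ _

theorem ee_apply_ne (g : G) (i : I) (p : G × I) (hp : p ≠ (g, i)) : ee g i p = 0 := by
  classical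
  unfold ee
  rw [lp.single_apply]
  exact Pi.single_eq_of_ne hp _

theorem inner_ee_left (v : Hi G I) (g : G) (i : I) : ⟪ee g i, v⟫_ℝ = v (g, i) := by
  classical
  unfold ee
  rw [lp.inner_single_left]
  simp

theorem inner_ee_right (v : Hi G I) (g : G) (i : I) : ⟪v, ee g i⟫_ℝ = v (g, i) := by
  rw [real_inner_comm, inner_ee_left]

theorem norm_ee (g : G) (i : I) : ‖(ee g i : Hi G I)‖ = 1 := by
  have h : ‖(ee g i : Hi G I)‖ ^ 2 = 1 := by
    rw [← real_inner_self_eq_norm_sq, inner_ee_left, ee_apply_self]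
  nlinarith [norm_nonneg (ee g i : Hi G I)]

theorem lam_ee (g h : G) (i : I) : lam g (ee h i : Hi G I) = ee (g * h) i := by
  ext p
  obtain ⟨k, j⟩ := p
  rw [lam_apply]
  by_cases hk : (k, j) = (g * h, i)
  · obtain ⟨rfl, rfl⟩ := Prod.mk.inj hk
    rw [inv_mul_cancel_left, ee_apply_self, ee_apply_self]
  · rw [ee_apply_ne _ _ _ hk, ee_apply_ne]
    intro h1
    apply hk
    obtain ⟨h2, h3⟩ := Prod.mk.inj h1
    rw [← h2, h3, mul_inv_cancel_left]

theorem inner_lam_lam (g : G) (u v : Hi G I) : ⟪lam g u, lam g v⟫_ℝ = ⟪u, v⟫_ℝ :=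
  (lam g).inner_map_map u v

theorem inner_lam_left (g : G) (u v : Hi G I) : ⟪lam g u, v⟫_ℝ = ⟪u, lam g⁻¹ v⟫_ℝ := by
  rw [← inner_lam_lam g u (lam g⁻¹ v), lam_lam_inv]

/-! ### Equivariant operators -/

theorem Equivar.apply_ee {A : Hi G I →L[ℝ] Hi G J} (hA : Equivar A) (g : G) (i : I) :
    A (ee g i) = lam g (A (ee 1 i)) := by
  rw [← hA, lam_ee, mul_one]

theorem Equivar.one : Equivar (1 : Hi G I →L[ℝ] Hi G I) := fun _ _ => rfl

theorem Equivar.zero : Equivar (0 : Hi G I →L[ℝ] Hi G J) := fun g v => by simp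

theorem Equivar.add {A B : Hi G I →L[ℝ] Hi G J} (hA : Equivar A) (hB : Equivar B) :
    Equivar (A + B) := fun g v => by
  rw [ContinuousLinearMap.add_apply, ContinuousLinearMap.add_apply, hA, hB, map_add]

theorem Equivar.smul {A : Hi G I →L[ℝ] Hi G J} (hA : Equivar A) (c : ℝ) :
    Equivar (c • A) := fun g v => by
  rw [ContinuousLinearMap.smul_apply, ContinuousLinearMap.smul_apply, hA, map_smul]

theorem Equivar.neg {A : Hi G I →L[ℝ] Hi G J} (hA : Equivar A) :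
    Equivar (-A) := fun g v => by
  rw [ContinuousLinearMap.neg_apply, ContinuousLinearMap.neg_apply, hA, map_neg]

theorem Equivar.sub {A B : Hi G I →L[ℝ] Hi G J} (hA : Equivar A) (hB : Equivar B) :
    Equivar (A - B) := fun g v => by
  rw [ContinuousLinearMap.sub_apply, ContinuousLinearMap.sub_apply, hA, hB, map_sub]

theorem Equivar.comp {A : Hi G J →L[ℝ] Hi G K} {B : Hi G I →L[ℝ] Hi G J} (hA : Equivar A)
    (hB : Equivar B) : Equivar (A ∘L B) := fun g v => by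
  rw [ContinuousLinearMap.comp_apply, ContinuousLinearMap.comp_apply, hB, hA]

theorem Equivar.adjoint {A : Hi G I →L[ℝ] Hi G J} (hA : Equivar A) :
    Equivar (ContinuousLinearMap.adjoint A) := fun g v => by
  refine ext_inner_right ℝ fun w => ?_
  rw [ContinuousLinearMap.adjoint_inner_left, inner_lam_left, ← hA g⁻¹,
    ← ContinuousLinearMap.adjoint_inner_left, ← inner_lam_left]

/-! ### Invariant subspaces -/

theorem Invar.lam_mem_iff {W : Submodule ℝ (Hi G I)} (hW : Invar W) (g : G) (v : Hi G I) :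
    lam g v ∈ W ↔ v ∈ W :=
  ⟨fun h => by rw [← lam_inv_lam g v]; exact hW _ _ h, fun h => hW g v h⟩

theorem Invar.orthogonal {W : Submodule ℝ (Hi G I)} (hW : Invar W) : Invar Wᗮ := by
  intro g v hv
  rw [Submodule.mem_orthogonal] at hv ⊢
  intro u hu
  rw [← lam_lam_inv g u, inner_lam_lam]
  exact hv _ (hW _ _ hu)

theorem Invar.closure {W : Submodule ℝ (Hi G I)} (hW : Invar W) :
    Invar W.topologicalClosure := by
  rw [← Submodule.orthogonal_orthogonal_eq_closure]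
  exact hW.orthogonal.orthogonal

theorem Invar.inf {U W : Submodule ℝ (Hi G I)} (hU : Invar U) (hW : Invar W) :
    Invar (U ⊓ W) := fun g v hv => ⟨hU g v hv.1, hW g v hv.2⟩

theorem Invar.iInf {κ : Type*} {W : κ → Submodule ℝ (Hi G I)} (hW : ∀ k, Invar (W k)) :
    Invar (⨅ k, W k) := by
  intro g v hv
  rw [Submodule.mem_iInf] at hv ⊢
  exact fun k => hW k g v (hv k)

theorem Invar.sup {U W : Submodule ℝ (Hi G I)} (hU : Invar U) (hW : Invar W) :
    Invar (U ⊔ W) := by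
  intro g v hv
  obtain ⟨x, hx, y, hy, rfl⟩ := Submodule.mem_sup.1 hv
  rw [map_add]
  exact Submodule.add_mem_sup (hU g x hx) (hW g y hy)

theorem Invar.ker {A : Hi G I →L[ℝ] Hi G J} (hA : Equivar A) :
    Invar (A : Hi G I →ₗ[ℝ] Hi G J).ker := by
  intro g v hv
  rw [LinearMap.mem_ker] at hv ⊢
  change A v = 0 at hv
  change A (lam g v) = 0
  rw [hA, hv, map_zero]

theorem Invar.range {A : Hi G I →L[ℝ] Hi G J} (hA : Equivar A) :
    Invar (A : Hi G I →ₗ[ℝ] Hi G J).range := by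
  rintro g _ ⟨v, rfl⟩
  exact ⟨lam g v, hA g v⟩

/-- the orthogonal projection onto an invariant subspace is equivariant -/
theorem Invar.starProjection {W : Submodule ℝ (Hi G I)} [W.HasOrthogonalProjection]
    (hW : Invar W) : Equivar W.starProjection := by
  intro g v
  refine Submodule.eq_starProjection_of_mem_of_inner_eq_zero
    (hW g _ (W.starProjection_apply_mem v)) fun w hw => ?_
  rw [← map_sub, inner_lam_left]
  exact W.starProjection_inner_eq_zero v _ (hW _ _ hw)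

end MP42532b.L2
end
end
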