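import Pool.Agent.Lib.MP_42532b_al.L2.Grad
import Pool.Agent.Lib.MP_42532b_al.Root
import Pool.Agent.Lib.MP_42532b_al.ChainAB
import Pool.Agent.Lib.MP_42532b_al.L2.Basic

section

namespace L2B
variable {A : Type*} [Group A]

/-! ### words in four elements `U i = f i * c ^ N i * (f i)⁻¹` -/

abbrev Wd := List (Fin 4 × Bool)

def sg (b : Bool) : ℤ := if b then 1 else -1

def Uu (c : A) (f : Fin 4 → A) (N : Fin 4 → ℕ) (i : Fin 4) : A := f i * c ^ N i * (f i)⁻¹

/-- value of a word -/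
def wval (c : A) (f : Fin 4 → A) (N : Fin 4 → ℕ) (l : Wd) : A :=
  (l.map (fun p => Uu c f N p.1 ^ sg p.2)).prod

/-- consecutive letters have different indices -/
def Alt (l : Wd) : Prop := l.IsChain (fun p q => p.1 ≠ q.1)

/-- representative of the `t`-th line of the word -/
def wline (c : A) (f : Fin 4 → A) (N : Fin 4 → ℕ) (l : Wd) (t : ℕ) (ht : t < l.length) : A :=
  wval c f N (l.take t) * f (l[t]'ht).1

/-- expansion of a word in `x = U₀U₁`, `y = U₂U₃` -/
def expd1 (p : Fin 2 × Bool) : Wd :=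
  if p.1 = 0 then (if p.2 then [(0, true), (1, true)] else [(1, false), (0, false)])
  else (if p.2 then [(2, true), (3, true)] else [(3, false), (2, false)])

def expd (L : List (Fin 2 × Bool)) : Wd := L.flatMap expd1

end L2B
end

section

namespace L2B
variable {A : Type*} [Group A] {ℓ : A → ℕ}

/-! ### index based form of alternating words -/

/-- prefix sequence `P` of an alternating product -/
private structure BSeq (c : A) (f : Fin 4 → A) (N : Fin 4 → ℕ) (r : ℕ) (idx : ℕ → Fin 4)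
    (σ : ℕ → ℤ) (P : ℕ → A) : Prop where
  zero : P 0 = 1
  step : ∀ t < r, P (t + 1) = P t * (f (idx t) * c ^ (σ t * N (idx t)) * (f (idx t))⁻¹)
  alt : ∀ t, t + 1 < r → idx t ≠ idx (t + 1)
  sgn : ∀ t, σ t = 1 ∨ σ t = -1

/-- `1` or a point of a line `f j`, `j ≠ i` -/
private def bnr (c : A) (f : Fin 4 → A) (i : Fin 4) (y : A) : Prop :=
  y = 1 ∨ ∃ j, j ≠ i ∧ ∃ a : ℤ, y = f j * c ^ a

private theorem bnr_bound {c : A} {e : A → ℤ} {κ : ℕ} (ps : PS ℓ c κ e)
    {f : Fin 4 → A} (hf : ∀ i j, i ≠ j → ¬ SameL c (f i) (f j)) {F : ℕ} (hF : ∀ i, ℓ (f i) ≤ F)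
    {i : Fin 4} {y : A} (hy : bnr c f i y) :
    |dl e (f i) 1 y| ≤ κ * (F + 1) + κ := by
  rcases hy with rfl | ⟨j, hj, a, rfl⟩
  · rw [dl_self]
    simp only [abs_zero]
    positivity
  · have h1 := ps.dl_lip (f i) 1 (f j)
    rw [gd_one] at h1
    have h2 := ps.dl_overlap (f i) (f j) (hf i j hj.symm) 0 a
    rw [zpow_zero, mul_one] at h2
    have h3 := dl_add e (f i) 1 (f j) (f j * c ^ a)
    have h4 : (κ : ℤ) * (ℓ (f j) + 1) ≤ κ * (F + 1) := by
      apply mul_le_mul_of_nonneg_left _ (by positivity)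
      have := hF j
      omega
    rw [← h3]
    refine (abs_add_le _ _).trans ?_
    linarith

private theorem bseq_star {c : A} {e : A → ℤ} {κ : ℕ} (ps : PS ℓ c κ e)
    {f : Fin 4 → A} (hf : ∀ i j, i ≠ j → ¬ SameL c (f i) (f j)) {F : ℕ} (hF : ∀ i, ℓ (f i) ≤ F)
    {N : Fin 4 → ℕ} {r : ℕ} {idx : ℕ → Fin 4} {σ : ℕ → ℤ} {P : ℕ → A}
    (B : BSeq c f N r idx σ P) {k : ℕ} (hk : k < r) {x y : A} (hx : bnr c f (idx k) x)
    (hy : bnr c f (idx k) y) :
    |dl e (P k * f (idx k)) (P k * x) (P (k + 1) * y) - σ k * N (idx k)| ≤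
      2 * ((κ : ℤ) * (F + 1) + κ) := by
  have h1 := bnr_bound ps hf hF hx
  have h2 := bnr_bound ps hf hF hy
  rw [B.step k hk, mul_assoc (P k), dl_left, ps.dl_rot]
  have h3 := dl_add e (f (idx k)) x 1 y
  have h4 := dl_symm e (f (idx k)) 1 x
  have h5 : dl e (f (idx k)) x y + σ k * ↑(N (idx k)) - σ k * ↑(N (idx k)) =
      - dl e (f (idx k)) 1 x + dl e (f (idx k)) 1 y := by
    rw [← h3, h4]; ring
  rw [h5]
  refine (abs_add_le _ _).trans ?_
  rw [abs_neg]
  linarith

/-- the previous line, seen from `P (k+1)` -/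
private theorem bseq_prev {c : A} {f : Fin 4 → A}
    {N : Fin 4 → ℕ} {r : ℕ} {idx : ℕ → Fin 4} {σ : ℕ → ℤ} {P : ℕ → A}
    (B : BSeq c f N r idx σ P) {k : ℕ} (hk : k < r) (a : ℤ) :
    P k * f (idx k) * c ^ a = P (k + 1) * (f (idx k) * c ^ (a - σ k * N (idx k))) := by
  rw [B.step k hk]
  group

private theorem bseq_diff {c : A} {f : Fin 4 → A}
    (hf : ∀ i j, i ≠ j → ¬ SameL c (f i) (f j))
    {N : Fin 4 → ℕ} {r : ℕ} {idx : ℕ → Fin 4} {σ : ℕ → ℤ} {P : ℕ → A}
    (B : BSeq c f N r idx σ P) {k : ℕ} (hk : k + 1 < r) :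
    ¬ SameL c (P k * f (idx k)) (P (k + 1) * f (idx (k + 1))) := by
  rintro ⟨i, hi⟩
  rw [bseq_prev B (by omega : k < r) i] at hi
  exact hf _ _ (B.alt k hk) ⟨_, mul_left_cancel hi⟩

private theorem bseq_chain {c : A} {e : A → ℤ} {κ : ℕ} (ps : PS ℓ c κ e)
    {f : Fin 4 → A} (hf : ∀ i j, i ≠ j → ¬ SameL c (f i) (f j)) {F : ℕ} (hF : ∀ i, ℓ (f i) ≤ F)
    {N : Fin 4 → ℕ} {r : ℕ} {idx : ℕ → Fin 4} {σ : ℕ → ℤ} {P : ℕ → A}
    (B : BSeq c f N r idx σ P) {Λ : ℤ} (hΛ : ∀ i, Λ + 2 * ((κ : ℤ) * (F + 1) + κ) ≤ N i)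
    {s m : ℕ} (hm : s + m + 1 ≤ r) {x y : A} (hx : bnr c f (idx s) x)
    (hy : bnr c f (idx (s + m)) y) :
    Chain c e Λ (m + 1)
      (fun i => if i = 0 then {P s * x} else if i ≤ m + 1 then
        Ln c (P (s + (i - 1)) * f (idx (s + (i - 1)))) else {P (s + m + 1) * y})
      (fun i => P (s + (i - 1)) * f (idx (s + (i - 1)))) := by
  refine ⟨?_, ?_, ?_⟩
  · intro i hi him
    rw [if_neg (by omega), if_pos him]
  · intro i hi him
    obtain ⟨k, rfl⟩ : ∃ k, i = k + 1 := ⟨i - 1, by omega⟩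
    simp only [Nat.add_sub_cancel]
    rw [show s + (k + 1) = (s + k) + 1 by omega]
    exact bseq_diff hf B (by omega)
  · intro i him u hu v hv
    simp only [Nat.add_sub_cancel] at hu hv ⊢
    -- the left point
    have hu' : ∃ u', bnr c f (idx (s + i)) u' ∧ u = P (s + i) * u' := by
      by_cases h0 : i = 0
      · subst h0
        rw [if_pos rfl] at hu
        exact ⟨x, hx, hu⟩
      · rw [if_neg h0, if_pos (by omega)] at hu
        obtain ⟨a, rfl⟩ := hu
        obtain ⟨k, rfl⟩ : ∃ k, i = k + 1 := ⟨i - 1, by omega⟩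
        simp only [Nat.add_sub_cancel]
        rw [bseq_prev B (by omega : s + k < r)]
        exact ⟨_, Or.inr ⟨_, B.alt (s + k) (by omega), _, rfl⟩, rfl⟩
    have hv' : ∃ v', bnr c f (idx (s + i)) v' ∧ v = P (s + i + 1) * v' := by
      rw [if_neg (by omega)] at hv
      by_cases h0 : i + 2 ≤ m + 1
      · rw [if_pos h0] at hv
        obtain ⟨a, rfl⟩ := hv
        rw [show s + (i + 2 - 1) = s + i + 1 by omega]
        exact ⟨_, Or.inr ⟨_, (B.alt (s + i) (by omega)).symm, a, rfl⟩, by rw [mul_assoc]⟩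
      · rw [if_neg h0] at hv
        have : i = m := by omega
        subst this
        exact ⟨y, hy, hv⟩
    obtain ⟨u', hu1, rfl⟩ := hu'
    obtain ⟨v', hv1, rfl⟩ := hv'
    have h1 := bseq_star ps hf hF B (by omega : s + i < r) hu1 hv1
    have h2 := hΛ (idx (s + i))
    rw [abs_le] at h1
    rw [le_abs]
    rcases B.sgn (s + i) with h3 | h3
    · rw [h3] at h1
      left
      linarith [h1.1]
    · rw [h3] at h1
      right
      linarith [h1.2]

/-- the main estimates -/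
private theorem bseq_main (h : GNorm ℓ) {c : A} {e : A → ℤ} {κ : ℕ} (ps : PS ℓ c κ e)
    {f : Fin 4 → A} (hf : ∀ i j, i ≠ j → ¬ SameL c (f i) (f j)) {F : ℕ} (hF : ∀ i, ℓ (f i) ≤ F)
    {N : Fin 4 → ℕ} {r : ℕ} {idx : ℕ → Fin 4} {σ : ℕ → ℤ} {P : ℕ → A}
    (B : BSeq c f N r idx σ P) (hN : ∀ i, 2 * ((κ : ℤ) * (F + 1) + κ) + 4 * κ < N i)
    {s k t : ℕ} (hsk : s ≤ k) (hkt : k < t) (ht : t ≤ r) {x y : A} (hx : bnr c f (idx s) x)
    (hy : bnr c f (idx (t - 1)) y) :
    |dl e (P k * f (idx k)) (P s * x) (P k)| ≤ ((κ : ℤ) * (F + 1) + κ) + κ ∧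
    |dl e (P k * f (idx k)) (P s * x) (P t * y) - σ k * N (idx k)| ≤
      2 * ((κ : ℤ) * (F + 1) + κ) + 2 * κ := by
  obtain ⟨m, rfl⟩ : ∃ m, t = s + m + 1 := ⟨t - s - 1, by omega⟩
  rw [Nat.add_sub_cancel] at hy
  set C0 : ℤ := (κ : ℤ) * (F + 1) + κ with hC0
  have hC0n : 0 ≤ C0 := by positivity
  have CH := bseq_chain ps hf hF B (Λ := 4 * κ + 1) (fun i => by have := hN i; omega)
    (s := s) (m := m) ht hx hy
  have hA := chainA h ps (by omega) CH (P s * x) (P (s + m + 1) * y) (by simp)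
    (by
      rw [if_neg (by omega), if_neg (by omega)]) (k - s + 1) (by omega) (by omega)
  simp only [Nat.add_sub_cancel] at hA
  rw [show s + (k - s) = k by omega] at hA
  obtain ⟨hA1, hA2, -⟩ := hA
  have hu : ∃ u', bnr c f (idx k) u' ∧ |dl e (P k * f (idx k)) (P s * x) (P k * u')| ≤ κ := by
    by_cases h0 : k = s
    · subst h0
      exact ⟨x, hx, by rw [dl_self]; simp⟩
    · have h1 := hA1 (P (k - 1) * f (idx (k - 1)) * c ^ (0 : ℤ)) (by
        rw [if_neg (by omega), if_pos (by omega)]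
        rw [show s + (k - s - 1) = k - 1 by omega]
        exact ⟨0, rfl⟩)
      rw [bseq_prev B (by omega : k - 1 < r)] at h1
      have h2 := B.alt (k - 1) (by omega)
      rw [show k - 1 + 1 = k by omega] at h1 h2
      exact ⟨_, Or.inr ⟨_, h2, _, rfl⟩, h1⟩
  have hv : ∃ v', bnr c f (idx k) v' ∧
      |dl e (P k * f (idx k)) (P (k + 1) * v') (P (s + m + 1) * y)| ≤ κ := by
    by_cases h0 : k = s + m
    · subst h0
      exact ⟨y, hy, by rw [dl_self]; simp⟩
    · have h1 := hA2 (P (k + 1) * f (idx (k + 1)) * c ^ (0 : ℤ)) (by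
        rw [if_neg (by omega), if_pos (by omega)]
        rw [show s + (k - s + 1) = k + 1 by omega]
        exact ⟨0, rfl⟩)
      rw [mul_assoc] at h1
      exact ⟨_, Or.inr ⟨_, (B.alt k (by omega)).symm, 0, rfl⟩, h1⟩
  obtain ⟨u', hu1, hu2⟩ := hu
  obtain ⟨v', hv1, hv2⟩ := hv
  have hk : k < r := by omega
  constructor
  · have h1 := dl_add e (P k * f (idx k)) (P s * x) (P k * u') (P k)
    have h2 : |dl e (P k * f (idx k)) (P k * u') (P k)| ≤ C0 := by
      have h3 := dl_left e (P k) (f (idx k)) u' 1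
      rw [mul_one] at h3
      rw [h3, dl_symm, abs_neg]
      exact bnr_bound ps hf hF hu1
    rw [← h1]
    refine (abs_add_le _ _).trans ?_
    linarith
  · have h1 := dl_add e (P k * f (idx k)) (P s * x) (P k * u') (P (k + 1) * v')
    have h2 := dl_add e (P k * f (idx k)) (P s * x) (P (k + 1) * v') (P (s + m + 1) * y)
    have h3 := bseq_star ps hf hF B hk hu1 hv1
    rw [← hC0] at h3
    rw [abs_le] at hu2 hv2 h3 ⊢
    constructor <;> linarith [hu2.1, hu2.2, hv2.1, hv2.2, h3.1, h3.2]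

private theorem gn_zpow_le (h : GNorm ℓ) (c : A) (a : ℤ) : ℓ (c ^ a) ≤ a.natAbs * ℓ c := by
  have hp : ∀ n : ℕ, ℓ (c ^ n) ≤ n * ℓ c := by
    intro n
    induction n with
    | zero => simp [h.one]
    | succ n ih =>
      rw [pow_succ]
      have := h.mul (c ^ n) c
      nlinarith
  rcases Int.natAbs_eq a with ha | ha
  · rw [ha, zpow_natCast, Int.natAbs_natCast]
    exact hp _
  · rw [ha, zpow_neg, zpow_natCast, h.inv, Int.natAbs_neg, Int.natAbs_natCast]
    exact hp _

private theorem bseq_pass (h : GNorm ℓ) {c : A} {e : A → ℤ} {κ : ℕ} (ps : PS ℓ c κ e)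
    {f : Fin 4 → A} (hf : ∀ i j, i ≠ j → ¬ SameL c (f i) (f j)) {F : ℕ} (hF : ∀ i, ℓ (f i) ≤ F)
    {N : Fin 4 → ℕ} {r : ℕ} {idx : ℕ → Fin 4} {σ : ℕ → ℤ} {P : ℕ → A}
    (B : BSeq c f N r idx σ P) (hN : ∀ i, 2 * ((κ : ℤ) * (F + 1) + κ) + 4 * κ < N i)
    {t : ℕ} (ht : t < r) {b : A} (hb : (κ : ℤ) < |dl e (P t * f (idx t)) 1 b|) :
    ∃ p, gd ℓ 1 p + gd ℓ p b ≤ gd ℓ 1 b + κ ∧
      gd ℓ (P t) p ≤ F + (2 * (κ * (F + 1) + κ)) * ℓ c := by
  set V := P t * f (idx t) with hV
  set a := e (V⁻¹ * 1) with ha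
  have h1 := ps.pass (V⁻¹ * 1) (V⁻¹ * b) hb
  refine ⟨V * c ^ a, ?_, ?_⟩
  · have e1 : gd ℓ (V⁻¹ * 1) (c ^ a) = gd ℓ 1 (V * c ^ a) := by
      rw [← gd_left ℓ V (V⁻¹ * 1) (c ^ a)]
      congr 1
      group
    have e2 : gd ℓ (c ^ e (V⁻¹ * b)) (V⁻¹ * b) = gd ℓ (V * c ^ e (V⁻¹ * b)) b := by
      rw [← gd_left ℓ V (c ^ e (V⁻¹ * b)) (V⁻¹ * b)]
      congr 1
      group
    have e3 : ℓ (c ^ (e (V⁻¹ * b) - e (V⁻¹ * 1))) = gd ℓ (V * c ^ a) (V * c ^ e (V⁻¹ * b)) := by
      rw [gd_left]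
      unfold gd
      congr 1
      rw [← ha]
      group
    have e4 : gd ℓ (V⁻¹ * 1) (V⁻¹ * b) = gd ℓ 1 b := gd_left _ _ _ _
    rw [← ha, e1, e2, ha, e3, e4] at h1
    have h2 := h.gd_tri (V * c ^ a) (V * c ^ e (V⁻¹ * b)) b
    rw [← ha] at h1
    omega
  · -- the base point
    have hm := (bseq_main h ps hf hF B hN (s := 0) (k := t) (t := t + 1) (x := 1) (y := 1)
      (Nat.zero_le _) (Nat.lt_succ_self _) ht (Or.inl rfl) (Or.inl rfl)).1
    rw [B.zero, one_mul] at hm
    have h3 : e (V⁻¹ * P t) = e ((f (idx t))⁻¹) := by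
      congr 1
      rw [hV]
      group
    have h4 : |e ((f (idx t))⁻¹)| ≤ κ * (F + 1) := by
      have h5 := ps.lip 1 ((f (idx t))⁻¹)
      rw [ps.one, sub_zero, gd_one, h.inv] at h5
      refine h5.trans ?_
      apply mul_le_mul_of_nonneg_left _ (by positivity)
      have := hF (idx t)
      omega
    have h5 : |a| ≤ 2 * ((κ : ℤ) * (F + 1) + κ) := by
      unfold dl at hm
      rw [← hV, h3, ← ha] at hm
      rw [abs_le] at hm h4 ⊢
      constructor <;> linarith [hm.1, hm.2, h4.1, h4.2, (by positivity : (0 : ℤ) ≤ κ)]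
    have h6 : a.natAbs ≤ 2 * (κ * (F + 1) + κ) := by
      zify
      exact h5
    have h7 : gd ℓ (P t) (V * c ^ a) = ℓ (f (idx t) * c ^ a) := by
      unfold gd
      congr 1
      rw [hV]
      group
    rw [h7]
    have h8 := h.mul (f (idx t)) (c ^ a)
    have h9 := gn_zpow_le h c a
    have h10 := hF (idx t)
    have h11 : a.natAbs * ℓ c ≤ (2 * (κ * (F + 1) + κ)) * ℓ c := Nat.mul_le_mul_right _ h6
    omega

/-- (2) -/
private theorem bseq_prefix (h : GNorm ℓ) {c : A} {e : A → ℤ} {κ : ℕ} (ps : PS ℓ c κ e)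
    {f : Fin 4 → A} (hf : ∀ i j, i ≠ j → ¬ SameL c (f i) (f j)) {F : ℕ} (hF : ∀ i, ℓ (f i) ≤ F)
    {N : Fin 4 → ℕ} {r : ℕ} {idx : ℕ → Fin 4} {σ : ℕ → ℤ} {P : ℕ → A}
    (B : BSeq c f N r idx σ P) (hN : ∀ i, 2 * ((κ : ℤ) * (F + 1) + κ) + 4 * κ < N i)
    {t T : ℕ} (ht : t ≤ T) (hT : T ≤ r) :
    ℓ (P t) + gd ℓ (P t) (P T) ≤ ℓ (P T) + (κ + 2 * (F + (2 * (κ * (F + 1) + κ)) * ℓ c)) := by
  rcases ht.eq_or_lt with h0 | h0
  · subst h0
    rw [h.gd_self]
    omega
  have hm := (bseq_main h ps hf hF B hN (s := 0) (k := t) (t := T) (x := 1) (y := 1)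
    (Nat.zero_le _) h0 hT (Or.inl rfl) (Or.inl rfl)).2
  rw [B.zero, one_mul, mul_one] at hm
  have hb : (κ : ℤ) < |dl e (P t * f (idx t)) 1 (P T)| := by
    have h1 := hN (idx t)
    have h2 : (0 : ℤ) ≤ (κ : ℤ) * (F + 1) + κ := by positivity
    have h3 : (0 : ℤ) ≤ κ := by positivity
    rw [abs_le] at hm
    rw [lt_abs]
    rcases B.sgn t with h4 | h4
    · rw [h4] at hm
      left
      linarith [hm.1]
    · rw [h4] at hm
      right
      linarith [hm.2]
  obtain ⟨p, hp1, hp2⟩ := bseq_pass h ps hf hF B hN (by omega : t < r) hb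
  have h1 := h.gd_tri 1 p (P t)
  have h2 := h.gd_tri (P t) p (P T)
  have h3 := h.gd_comm p (P t)
  have h4 := gd_one ℓ (P t)
  have h5 := gd_one ℓ (P T)
  omega

/-- (4) -/
private theorem bseq_length (h : GNorm ℓ) {c : A} {e : A → ℤ} {κ : ℕ} (ps : PS ℓ c κ e)
    {f : Fin 4 → A} (hf : ∀ i j, i ≠ j → ¬ SameL c (f i) (f j)) {F : ℕ} (hF : ∀ i, ℓ (f i) ≤ F)
    {N : Fin 4 → ℕ} {r : ℕ} {idx : ℕ → Fin 4} {σ : ℕ → ℤ} {P : ℕ → A}
    (B : BSeq c f N r idx σ P) (hN : ∀ i, 2 * ((κ : ℤ) * (F + 1) + κ) + 4 * κ < N i)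
    (hN2 : ∀ i, κ * (κ + 2 * (F + (2 * (κ * (F + 1) + κ)) * ℓ c) + 2 * F + 1) < N i) :
    ∀ t ≤ r, t ≤ ℓ (P t) := by
  intro t
  induction t with
  | zero => intro _; omega
  | succ t ih =>
    intro ht
    have h1 := ih (by omega)
    have h2 := bseq_prefix h ps hf hF B hN (Nat.le_succ t) ht
    rw [Nat.succ_eq_add_one] at h2
    have h3 : gd ℓ (P t) (P (t + 1)) = ℓ (f (idx t) * c ^ (σ t * N (idx t)) * (f (idx t))⁻¹) := by
      rw [B.step t (by omega)]
      unfold gd
      congr 1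
      group
    set u := f (idx t) * c ^ (σ t * N (idx t)) * (f (idx t))⁻¹ with hu
    have h4 : c ^ (σ t * N (idx t)) = (f (idx t))⁻¹ * u * f (idx t) := by
      rw [hu]
      group
    have h5 := ps.low (σ t * N (idx t))
    rw [h4] at h5
    have h6 := h.mul ((f (idx t))⁻¹ * u) (f (idx t))
    have h7 := h.mul ((f (idx t))⁻¹) u
    rw [h.inv] at h7
    have h8 := hF (idx t)
    have h9 : |σ t * (N (idx t) : ℤ)| = N (idx t) := by
      rw [abs_mul]
      rcases B.sgn t with h10 | h10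
      · rw [h10]; simp
      · rw [h10]; simp
    rw [h9] at h5
    have h10 := hN2 (idx t)
    set D := κ + 2 * (F + (2 * (κ * (F + 1) + κ)) * ℓ c) with hD
    have h11 : D + 2 * F + 1 ≤ ℓ ((f (idx t))⁻¹ * u * f (idx t)) := by
      by_contra hcon
      push Not at hcon
      have h12 : κ * (ℓ ((f (idx t))⁻¹ * u * f (idx t)) + 1) ≤ κ * (D + 2 * F + 1) :=
        Nat.mul_le_mul_left _ (by omega)
      have h13 : N (idx t) ≤ κ * (ℓ ((f (idx t))⁻¹ * u * f (idx t)) + 1) := by
        exact_mod_cast h5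
      omega
    omega

/-- projections on a line different from the adjacent ones -/
private theorem bseq_loc {c : A} {e : A → ℤ} {κ : ℕ} (ps : PS ℓ c κ e)
    {f : Fin 4 → A} {F : ℕ} (hF : ∀ i, ℓ (f i) ≤ F) {Z Q : A} {j : Fin 4}
    (hZ : ¬ SameL c (Q * f j) Z) (a : ℤ) :
    |dl e Z Q (Q * f j * c ^ a)| ≤ (κ : ℤ) * (F + 1) + κ := by
  have h1 := ps.dl_lip Z Q (Q * f j)
  have h2 := ps.dl_overlap Z (Q * f j) (fun H => hZ H.symm) 0 a
  rw [zpow_zero, mul_one] at h2
  have h3 := dl_add e Z Q (Q * f j) (Q * f j * c ^ a)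
  have h4 : gd ℓ Q (Q * f j) = ℓ (f j) := by
    unfold gd
    congr 1
    group
  rw [h4] at h1
  have h5 : (κ : ℤ) * (ℓ (f j) + 1) ≤ κ * (F + 1) := by
    apply mul_le_mul_of_nonneg_left _ (by positivity)
    have := hF j
    omega
  rw [← h3]
  refine (abs_add_le _ _).trans ?_
  linarith

private theorem bseq_loc_prev {c : A} {e : A → ℤ} {κ : ℕ} (ps : PS ℓ c κ e)
    {f : Fin 4 → A} {F : ℕ} (hF : ∀ i, ℓ (f i) ≤ F)
    {N : Fin 4 → ℕ} {r : ℕ} {idx : ℕ → Fin 4} {σ : ℕ → ℤ} {P : ℕ → A}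
    (B : BSeq c f N r idx σ P) {k : ℕ} (hk : k < r) {Z : A}
    (hZ : ¬ SameL c (P k * f (idx k)) Z) (a : ℤ) :
    |dl e Z (P (k + 1)) (P k * f (idx k) * c ^ a)| ≤ (κ : ℤ) * (F + 1) + κ := by
  rw [bseq_prev B hk, ← mul_assoc]
  apply bseq_loc ps hF
  rintro ⟨i, hi⟩
  apply hZ
  refine ⟨i + σ k * N (idx k), ?_⟩
  rw [hi, bseq_prev B hk]
  group

/-- (3) -/
private theorem bseq_other (h : GNorm ℓ) {c : A} {e : A → ℤ} {κ : ℕ} (ps : PS ℓ c κ e)
    {f : Fin 4 → A} (hf : ∀ i j, i ≠ j → ¬ SameL c (f i) (f j)) {F : ℕ} (hF : ∀ i, ℓ (f i) ≤ F)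
    {N : Fin 4 → ℕ} {r : ℕ} {idx : ℕ → Fin 4} {σ : ℕ → ℤ} {P : ℕ → A}
    (B : BSeq c f N r idx σ P) (hN : ∀ i, 2 * ((κ : ℤ) * (F + 1) + κ) + 4 * κ < N i)
    {Z : A} (hZ : ∀ t < r, ¬ SameL c (P t * f (idx t)) Z) :
    |dl e Z 1 (P r)| ≤ 2 * ((κ : ℤ) * (F + 1) + κ) + 2 * κ := by
  have hκ : (0 : ℤ) ≤ κ := by positivity
  rcases Nat.eq_zero_or_pos r with h0 | h0
  · subst h0
    rw [B.zero, dl_self]
    simp only [abs_zero]
    positivity
  obtain ⟨m, rfl⟩ : ∃ m, r = m + 1 := ⟨r - 1, by omega⟩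
  set C0 : ℤ := (κ : ℤ) * (F + 1) + κ with hC0
  have hC0n : 0 ≤ C0 := by positivity
  have CH := bseq_chain ps hf hF B (Λ := 4 * κ + 1) (fun i => by have := hN i; omega)
    (s := 0) (m := m) (by omega) (x := 1) (y := 1) (Or.inl rfl) (Or.inl rfl)
  have hBB := chainB h ps (by omega) CH (P 0 * 1) (P (0 + m + 1) * 1) (by simp)
    (by
      rw [if_neg (by omega), if_neg (by omega)]) Z
    (by
      intro i hi him
      rw [Nat.zero_add]
      exact hZ _ (by omega))
    (2 * C0)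
    (by
      intro i him u hu v hv
      simp only [Nat.zero_add, Nat.add_sub_cancel, mul_one] at hu hv
      have hu' : |dl e Z (P i) u| ≤ C0 := by
        by_cases h1 : i = 0
        · subst h1
          rw [if_pos rfl] at hu
          rw [Set.mem_singleton_iff.1 hu, dl_self]
          simpa using hC0n
        · rw [if_neg h1, if_pos (by omega)] at hu
          obtain ⟨a, rfl⟩ := hu
          have h2 := bseq_loc_prev ps hF B (k := i - 1) (by omega) (hZ _ (by omega)) a
          rw [show i - 1 + 1 = i by omega] at h2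
          exact h2
      have hv' : |dl e Z (P i) v| ≤ C0 := by
        rw [if_neg (by omega)] at hv
        by_cases h1 : i + 1 ≤ m + 1
        · rw [if_pos h1] at hv
          obtain ⟨a, rfl⟩ := hv
          exact bseq_loc ps hF (hZ _ (by omega)) a
        · rw [if_neg h1] at hv
          have h2 : i = m + 1 := by omega
          subst h2
          rw [Set.mem_singleton_iff.1 hv, dl_self]
          simpa using hC0n
      have h3 := dl_add e Z u (P i) v
      have h4 := dl_symm e Z (P i) u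
      rw [← h3, h4]
      refine (abs_add_le _ _).trans ?_
      rw [abs_neg]
      linarith)
  rw [B.zero, mul_one, mul_one, Nat.zero_add] at hBB
  exact hBB

private theorem bseq_of_word (c : A) (f : Fin 4 → A) (N : Fin 4 → ℕ) (l : Wd) (hl : Alt l) :
    BSeq c f N l.length (fun t => if ht : t < l.length then (l[t]'ht).1 else 0)
      (fun t => if ht : t < l.length then sg (l[t]'ht).2 else 1)
      (fun t => wval c f N (l.take t)) := by
  refine ⟨?_, ?_, ?_, ?_⟩
  · simp [wval]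
  · intro t ht
    simp only [ht, dite_true]
    rw [List.take_succ_eq_append_getElem ht]
    unfold wval
    rw [List.map_append, List.prod_append, List.map_singleton, List.prod_singleton]
    congr 1
    unfold Uu
    rw [conj_zpow, ← zpow_natCast, ← zpow_mul, mul_comm ((N (l[t]).1 : ℕ) : ℤ)]
  · intro t ht
    have h1 : t < l.length := by omega
    simp only [ht, h1, dite_true]
    unfold Alt at hl
    rw [List.isChain_iff_getElem] at hl
    exact hl t ht
  · intro t
    split_ifs with ht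
    · unfold sg
      split_ifs
      · exact Or.inl rfl
      · exact Or.inr rfl
    · exact Or.inl rfl

/-- (9.1): the geometry of alternating words -/
theorem base_chain (h : GNorm ℓ) {δ : ℕ} (hyp : Hyp ℓ δ) {c : A} {e : A → ℤ} {κ : ℕ}
    (ps : PS ℓ c κ e) (f : Fin 4 → A) (hf : ∀ i j, i ≠ j → ¬ SameL c (f i) (f j)) :
    ∃ C E : ℕ, ∀ N : Fin 4 → ℕ, (∀ i, E ≤ N i) → ∀ l : Wd, Alt l →
      (∀ (t : ℕ) (ht : t < l.length),
        |dl e (wline c f N l t ht) 1 (wval c f N l) - sg (l[t]'ht).2 * N (l[t]'ht).1| ≤ C) ∧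
      (∀ t ≤ l.length, ℓ (wval c f N (l.take t)) + gd ℓ (wval c f N (l.take t)) (wval c f N l) ≤
        ℓ (wval c f N l) + C) ∧
      (∀ Z : A, (∀ (t : ℕ) (ht : t < l.length), ¬ SameL c (wline c f N l t ht) Z) →
        |dl e Z 1 (wval c f N l)| ≤ C) ∧
      l.length ≤ ℓ (wval c f N l) ∧
      (∀ (t : ℕ) (ht : t < l.length) (b : A), (κ : ℤ) < |dl e (wline c f N l t ht) 1 b| →
        t ≤ ℓ b + C) ∧
      (∀ (s t : ℕ) (hs : s < l.length) (ht : t < l.length), s < t → ∀ i : ℤ,
        |dl e (wline c f N l t ht) 1 (wline c f N l s hs * c ^ i)| ≤ C) ∧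
      (∀ (s t : ℕ) (hs : s < l.length) (ht : t < l.length), s < t → ∀ i : ℤ,
        |dl e (wline c f N l s hs) 1 (wline c f N l t ht * c ^ i) -
          sg (l[s]'hs).2 * N (l[s]'hs).1| ≤ C) ∧
      (∀ (t : ℕ) (ht : t + 1 < l.length) (Z : A),
        ¬ SameL c (wline c f N l t (by omega)) Z → ¬ SameL c (wline c f N l (t+1) ht) Z →
        ∀ i j : ℤ, |dl e Z (wline c f N l t (by omega) * c ^ i)
          (wline c f N l (t+1) ht * c ^ j)| ≤ C) := by
  obtain ⟨F, hF⟩ : ∃ F : ℕ, ∀ i, ℓ (f i) ≤ F :=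
    ⟨∑ i, ℓ (f i), fun i => Finset.single_le_sum (f := fun i => ℓ (f i))
      (fun _ _ => Nat.zero_le _) (Finset.mem_univ i)⟩
  set D0 : ℕ := κ * (F + 1) + κ with hD0
  set D1 : ℕ := F + (2 * D0) * ℓ c with hD1
  have hD0z : ((κ : ℤ) * (F + 1) + κ) = (D0 : ℤ) := by
    rw [hD0]
    push_cast
    ring
  refine ⟨4 * D0 + 8 * κ + 2 * D1, 2 * D0 + 4 * κ + 1 + (κ * (κ + 2 * D1 + 2 * F + 1) + 1), ?_⟩
  intro N hE l hl
  have B := bseq_of_word c f N l hl
  set r := l.length with hr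
  set idx : ℕ → Fin 4 := fun t => if ht : t < l.length then (l[t]'ht).1 else 0 with hidx
  set σ : ℕ → ℤ := fun t => if ht : t < l.length then sg (l[t]'ht).2 else 1 with hσ
  set P : ℕ → A := fun t => wval c f N (l.take t) with hP
  have hw : ∀ (t : ℕ) (ht : t < l.length), wline c f N l t ht = P t * f (idx t) := by
    intro t ht
    simp only [hidx, hP, ht, dite_true]
    rfl
  have hi : ∀ (t : ℕ) (ht : t < l.length), (l[t]'ht).1 = idx t := by
    intro t ht
    simp only [hidx, ht, dite_true]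
  have hs : ∀ (t : ℕ) (ht : t < l.length), sg (l[t]'ht).2 = σ t := by
    intro t ht
    simp only [hσ, ht, dite_true]
  have hPr : wval c f N l = P r := by
    simp only [hP, hr, List.take_length]
  have hN : ∀ i, 2 * ((κ : ℤ) * (F + 1) + κ) + 4 * κ < N i := by
    intro i
    rw [hD0z]
    have := hE i
    omega
  have hN2 : ∀ i, κ * (κ + 2 * (F + (2 * (κ * (F + 1) + κ)) * ℓ c) + 2 * F + 1) < N i := by
    intro i
    rw [← hD0, ← hD1]
    have := hE i
    omega
  have hlen := bseq_length h ps hf hF B hN hN2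
  have hmain := fun {s k t : ℕ} (hsk : s ≤ k) (hkt : k < t) (ht : t ≤ r) {x y : A}
    (hx : bnr c f (idx s) x) (hy : bnr c f (idx (t - 1)) y) =>
    bseq_main h ps hf hF B hN hsk hkt ht hx hy
  simp only [hD0z] at hmain
  have hloc := fun {Z Q : A} {j : Fin 4} (hZ : ¬ SameL c (Q * f j) Z) (a : ℤ) =>
    bseq_loc ps hF (e := e) hZ a
  have hlocp := fun {k : ℕ} (hk : k < r) {Z : A} (hZ : ¬ SameL c (P k * f (idx k)) Z) (a : ℤ) =>
    bseq_loc_prev ps hF B hk hZ a
  simp only [hD0z] at hloc hlocp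
  rw [hPr]
  refine ⟨?_, ?_, ?_, ?_, ?_, ?_, ?_, ?_⟩
  · -- (1)
    intro t ht
    rw [hw, hi, hs]
    have h1 := (hmain (Nat.zero_le t) ht le_rfl (x := 1) (y := 1) (Or.inl rfl) (Or.inl rfl)).2
    rw [B.zero, one_mul, mul_one] at h1
    refine h1.trans ?_
    push_cast
    omega
  · -- (2)
    intro t ht
    have h1 := bseq_prefix h ps hf hF B hN (T := r) ht le_rfl
    rw [← hD0, ← hD1] at h1
    refine h1.trans ?_
    omega
  · -- (3)
    intro Z hZ
    have h1 := bseq_other h ps hf hF B hN (Z := Z) (by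
      intro t ht
      rw [← hw t ht]
      exact hZ t ht)
    rw [hD0z] at h1
    refine h1.trans ?_
    push_cast
    omega
  · -- (4)
    exact hlen r le_rfl
  · -- (5)
    intro t ht b hb
    rw [hw] at hb
    obtain ⟨p, hp1, hp2⟩ := bseq_pass h ps hf hF B hN ht hb
    rw [← hD0, ← hD1] at hp2
    have h1 := h.gd_tri 1 p (P t)
    have h2 := h.gd_comm p (P t)
    have h3 := gd_one ℓ (P t)
    have h4 := gd_one ℓ b
    have h5 := hlen t ht.le
    omega
  · -- (6)
    intro s t hs' ht hst i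
    rw [hw, hw]
    have h1 := (hmain (Nat.zero_le t) (Nat.lt_succ_self t) ht (x := 1) (y := 1)
      (Or.inl rfl) (Or.inl rfl)).1
    have h2 := (hmain (s := s + 1) (k := t) (t := t + 1) hst (Nat.lt_succ_self t) ht
      (x := f (idx s) * c ^ (i - σ s * N (idx s))) (y := 1)
      (Or.inr ⟨_, B.alt s (by omega), _, rfl⟩) (Or.inl rfl)).1
    rw [B.zero, one_mul] at h1
    rw [← bseq_prev B hs'] at h2
    have h3 := dl_add e (P t * f (idx t)) 1 (P t) (P s * f (idx s) * c ^ i)
    have h4 := dl_symm e (P t * f (idx t)) (P s * f (idx s) * c ^ i) (P t)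
    rw [← h3, h4]
    refine (abs_add_le _ _).trans ?_
    rw [abs_neg]
    push_cast
    omega
  · -- (7)
    intro s t hs' ht hst i
    rw [hw, hw, hi, hs]
    have h0 : idx (t - 1) ≠ idx t := by
      have := B.alt (t - 1) (by omega)
      rwa [show t - 1 + 1 = t by omega] at this
    have h1 := (hmain (s := 0) (k := s) (t := t) (Nat.zero_le s) hst ht.le (x := 1)
      (y := f (idx t) * c ^ i) (Or.inl rfl) (Or.inr ⟨_, h0.symm, _, rfl⟩)).2
    rw [B.zero, one_mul, ← mul_assoc] at h1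
    refine h1.trans ?_
    push_cast
    omega
  · -- (8)
    intro t ht Z hZ1 hZ2 i j
    rw [hw] at hZ1 hZ2
    rw [hw, hw]
    have h1 := hlocp (by omega : t < r) hZ1 i
    have h2 := hloc hZ2 j
    have h3 := dl_add e Z (P t * f (idx t) * c ^ i) (P (t + 1))
      (P (t + 1) * f (idx (t + 1)) * c ^ j)
    have h4 := dl_symm e Z (P (t + 1)) (P t * f (idx t) * c ^ i)
    rw [← h3, h4]
    refine (abs_add_le _ _).trans ?_
    rw [abs_neg]
    push_cast
    omega

end L2B
end

section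

namespace L2B
variable {A : Type*} [Group A] {ℓ : A → ℕ}

private theorem expd1_ne (p : Fin 2 × Bool) : ∃ a b, expd1 p = [a, b] ∧ a.1 ≠ b.1 := by
  obtain ⟨i, b⟩ := p
  fin_cases i <;> cases b <;> simp [expd1]

private theorem expd1_isChain (p : Fin 2 × Bool) :
    (expd1 p).IsChain (fun p q => p.1 ≠ q.1) := by
  obtain ⟨i, b⟩ := p
  fin_cases i <;> cases b <;> simp [expd1]

private theorem expd1_last (p q : Fin 2 × Bool) (hpq : ¬ (p.1 = q.1 ∧ p.2 = !q.2)) :
    ∀ x ∈ (expd1 p).getLast?, ∀ y ∈ (expd1 q).head?, x.1 ≠ y.1 := by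
  obtain ⟨i, b⟩ := p
  obtain ⟨j, d⟩ := q
  fin_cases i <;> fin_cases j <;> cases b <;> cases d <;> simp_all [expd1]

private theorem reduce_chain (L : List (Fin 2 × Bool)) (hL : FreeGroup.reduce L = L) :
    L.IsChain (fun p q => ¬ (p.1 = q.1 ∧ p.2 = !q.2)) := by
  have h := FreeGroup.isReduced_iff_reduce_eq.2 hL
  unfold FreeGroup.IsReduced at h
  refine h.imp ?_
  rintro ⟨a, b⟩ ⟨c, d⟩ hh ⟨h1, h2⟩
  simp only at hh h1 h2
  have := hh h1
  rw [this] at h2
  cases d <;> simp at h2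

/-- the expansion of a reduced word is alternating -/
theorem expd_alt (L : List (Fin 2 × Bool)) (hL : FreeGroup.reduce L = L) : Alt (expd L) := by
  have hc := reduce_chain L hL
  clear hL
  unfold Alt expd
  induction L with
  | nil => simp
  | cons p L ih =>
    rw [List.flatMap_cons]
    rw [List.isChain_append]
    refine ⟨expd1_isChain p, ih hc.of_cons, ?_⟩
    cases L with
    | nil => simp
    | cons q L' =>
      rw [List.isChain_cons_cons] at hc
      intro x hx y hy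
      rw [List.flatMap_cons] at hy
      have : y ∈ (expd1 q).head? := by
        obtain ⟨a, b, hab, -⟩ := expd1_ne q
        rw [hab] at hy ⊢
        simpa using hy
      exact expd1_last p q hc.1 x hx y this

theorem expd_length (L : List (Fin 2 × Bool)) : (expd L).length = 2 * L.length := by
  unfold expd
  induction L with
  | nil => simp
  | cons p L ih =>
    obtain ⟨a, b, hab, -⟩ := expd1_ne p
    rw [List.flatMap_cons, List.length_append, ih, hab]
    simp only [List.length_cons, List.length_nil]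
    omega

private theorem wval_append (c : A) (f : Fin 4 → A) (N : Fin 4 → ℕ) (l l' : Wd) :
    wval c f N (l ++ l') = wval c f N l * wval c f N l' := by
  unfold wval
  rw [List.map_append, List.prod_append]

private theorem wval_expd1 (c : A) (f : Fin 4 → A) (N : Fin 4 → ℕ) (p : Fin 2 × Bool) :
    wval c f N (expd1 p) =
      FreeGroup.lift ![Uu c f N 0 * Uu c f N 1, Uu c f N 2 * Uu c f N 3] (FreeGroup.mk [p]) := by
  obtain ⟨i, b⟩ := p
  fin_cases i <;> cases b <;> simp [expd1, wval, sg, FreeGroup.lift_mk]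

/-- value of the expansion -/
theorem expd_val (c : A) (f : Fin 4 → A) (N : Fin 4 → ℕ) (L : List (Fin 2 × Bool)) :
    wval c f N (expd L) =
      FreeGroup.lift ![Uu c f N 0 * Uu c f N 1, Uu c f N 2 * Uu c f N 3] (FreeGroup.mk L) := by
  induction L with
  | nil => simp [expd, wval, FreeGroup.lift_mk]
  | cons p L ih =>
    have e1 : (FreeGroup.mk (p :: L) : FreeGroup (Fin 2)) = FreeGroup.mk [p] * FreeGroup.mk L := by
      rw [FreeGroup.mul_mk]; rfl
    rw [e1, map_mul, ← ih, ← wval_expd1, ← wval_append]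
    rfl

/-- coset representative determined by the last letter of a prefix -/
def lastRep (c : A) (f : Fin 4 → A) (N : Fin 4 → ℕ) (p : Fin 4 × Bool) : A :=
  if p = (0, true) ∨ p = (1, false) then Uu c f N 0
  else if p = (2, true) ∨ p = (3, false) then Uu c f N 2 else 1

private theorem wval_expd_mem (c : A) (f : Fin 4 → A) (N : Fin 4 → ℕ) (p : Fin 2 × Bool) :
    wval c f N (expd1 p) ∈
      Subgroup.closure {Uu c f N 0 * Uu c f N 1, Uu c f N 2 * Uu c f N 3} := by
  have hx : Uu c f N 0 * Uu c f N 1 ∈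
      Subgroup.closure {Uu c f N 0 * Uu c f N 1, Uu c f N 2 * Uu c f N 3} :=
    Subgroup.subset_closure (by simp)
  have hy : Uu c f N 2 * Uu c f N 3 ∈
      Subgroup.closure {Uu c f N 0 * Uu c f N 1, Uu c f N 2 * Uu c f N 3} :=
    Subgroup.subset_closure (by simp)
  have hx' := inv_mem hx
  have hy' := inv_mem hy
  rw [mul_inv_rev] at hx' hy'
  obtain ⟨i, b⟩ := p
  fin_cases i <;> cases b <;> simp [expd1, wval, sg] <;> assumption

private theorem prefix_block (c : A) (f : Fin 4 → A) (N : Fin 4 → ℕ) (p : Fin 2 × Bool) (t : ℕ)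
    (ht : t < (expd1 p).length) :
    wval c f N ((expd1 p).take (t + 1)) * (lastRep c f N ((expd1 p)[t]'ht))⁻¹ ∈
      Subgroup.closure {Uu c f N 0 * Uu c f N 1, Uu c f N 2 * Uu c f N 3} := by
  have hx : Uu c f N 0 * Uu c f N 1 ∈
      Subgroup.closure {Uu c f N 0 * Uu c f N 1, Uu c f N 2 * Uu c f N 3} :=
    Subgroup.subset_closure (by simp)
  have hy : Uu c f N 2 * Uu c f N 3 ∈
      Subgroup.closure {Uu c f N 0 * Uu c f N 1, Uu c f N 2 * Uu c f N 3} :=
    Subgroup.subset_closure (by simp)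
  have hx' := inv_mem hx
  have hy' := inv_mem hy
  rw [mul_inv_rev] at hx' hy'
  have h2 : (expd1 p).length = 2 := by
    obtain ⟨a, b, hab, -⟩ := expd1_ne p
    rw [hab]; rfl
  have h1 : t = 0 ∨ t = 1 := by omega
  obtain ⟨i, b⟩ := p
  rcases h1 with rfl | rfl <;> fin_cases i <;> cases b <;>
    simp [expd1, wval, sg, lastRep] <;> assumption

/-- prefixes of expansions lie in the coset `H * lastRep` -/
theorem expd_prefix (c : A) (f : Fin 4 → A) (N : Fin 4 → ℕ) (L : List (Fin 2 × Bool)) (t : ℕ)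
    (ht : t < (expd L).length) :
    wval c f N ((expd L).take (t + 1)) * (lastRep c f N ((expd L)[t]'ht))⁻¹ ∈
      Subgroup.closure {Uu c f N 0 * Uu c f N 1, Uu c f N 2 * Uu c f N 3} := by
  induction L generalizing t with
  | nil => simp [expd] at ht
  | cons p L ih =>
    have e0 : expd (p :: L) = expd1 p ++ expd L := rfl
    have h2 : (expd1 p).length = 2 := by
      obtain ⟨a, b, hab, -⟩ := expd1_ne p
      rw [hab]; rfl
    rcases Nat.lt_or_ge t (expd1 p).length with h | h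
    · have h3 := prefix_block c f N p t h
      have e1 : (expd (p :: L)).take (t + 1) = (expd1 p).take (t + 1) := by
        rw [e0, List.take_append_of_le_length (by omega)]
      have e2 : (expd (p :: L))[t]'ht = (expd1 p)[t]'h := by
        simp only [e0]
        exact List.getElem_append_left h
      rw [e1, e2]
      exact h3
    · have ht' : t - (expd1 p).length < (expd L).length := by
        rw [e0, List.length_append] at ht
        omega
      have h3 := ih (t - (expd1 p).length) ht'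
      have e1 : (expd (p :: L)).take (t + 1) =
          expd1 p ++ (expd L).take (t - (expd1 p).length + 1) := by
        rw [e0, List.take_append, List.take_of_length_le (by omega)]
        congr 2
        omega
      have e2 : (expd (p :: L))[t]'ht = (expd L)[t - (expd1 p).length]'ht' := by
        simp only [e0]
        exact List.getElem_append_right h
      rw [e1, e2, wval_append, mul_assoc]
      exact mul_mem (wval_expd_mem c f N p) h3

end L2B
end

section

/-! # Functions which are constant on the cosets of a finite subgroup -/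

noncomputable section

namespace MP42532b.L2

open scoped InnerProductSpace

variable {G : Type*} [Group G]

theorem invar_invR (C : Subgroup G) : Invar (invR C) := by
  intro g u hu h c hc
  rw [lam_apply, lam_apply, ← mul_assoc]
  exact hu _ c hc

private theorem continuous_apply_Hi (p : G) :
    Continuous fun u : Hi G Unit => u (p, ()) := by
  have h : (fun u : Hi G Unit => u (p, ())) = fun u => ⟪ee p (), u⟫_ℝ := by
    funext u
    rw [inner_ee_left]
  rw [h]
  exact continuous_const.inner continuous_id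

theorem isClosed_invR (C : Subgroup G) : IsClosed (invR C : Set (Hi G Unit)) := by
  have h : (invR C : Set (Hi G Unit)) =
      ⋂ g : G, ⋂ c : G, ⋂ _ : c ∈ C, {u | u (g * c, ()) = u (g, ())} := by
    ext u
    simp only [Set.mem_iInter, Set.mem_setOf_eq]
    rfl
  rw [h]
  exact isClosed_iInter fun g => isClosed_iInter fun c => isClosed_iInter fun _ =>
    isClosed_eq (continuous_apply_Hi _) (continuous_apply_Hi _)

theorem vdim_invR (C : Subgroup G) [Finite C] : vdim (invR C) = 1 / Nat.card C := by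
  classical
  haveI : Fintype C := Fintype.ofFinite C
  have hcard : (Nat.card C : ℝ) ≠ 0 := by
    have : 0 < Nat.card C := Nat.card_pos
    positivity
  set x : Hi G Unit := (Nat.card C : ℝ)⁻¹ • ∑ c : C, ee (c : G) () with hx
  have hin : ∀ w : Hi G Unit, ⟪x, w⟫_ℝ = (Nat.card C : ℝ)⁻¹ * ∑ c : C, w ((c : G), ()) := by
    intro w
    rw [hx, real_inner_smul_left, sum_inner]
    congr 1
    exact Finset.sum_congr rfl fun c _ => inner_ee_left _ _ _
  have hxv : ∀ g : G, x (g, ()) = (Nat.card C : ℝ)⁻¹ * if g ∈ C then 1 else 0 := by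
    intro g
    rw [← inner_ee_right, hin]
    congr 1
    by_cases hg : g ∈ C
    · rw [if_pos hg, Finset.sum_eq_single (⟨g, hg⟩ : C)]
      · exact ee_apply_self _ _
      · intro c _ hc
        refine ee_apply_ne _ _ _ fun h => hc ?_
        exact Subtype.ext (Prod.mk.inj h).1
      · intro h
        exact absurd (Finset.mem_univ _) h
    · rw [if_neg hg]
      refine Finset.sum_eq_zero fun c _ => ee_apply_ne _ _ _ fun h => hg ?_
      rw [← (Prod.mk.inj h).1]
      exact c.2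
  have hmem : x ∈ invR C := by
    intro g c hc
    rw [hxv, hxv]
    congr 1
    have : g * c ∈ C ↔ g ∈ C := Subgroup.mul_mem_cancel_right C hc
    simp only [this]
  have horth : ∀ w ∈ invR C, ⟪ee 1 () - x, w⟫_ℝ = 0 := by
    intro w hw
    rw [inner_sub_left, inner_ee_left, hin]
    have h1 : ∀ c : C, w ((c : G), ()) = w (1, ()) := by
      intro c
      have := hw 1 c c.2
      rwa [one_mul] at this
    rw [Finset.sum_congr rfl fun c _ => h1 c, Finset.sum_const, Finset.card_univ, nsmul_eq_mul,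
      ← Nat.card_eq_fintype_card, inv_mul_cancel_left₀ hcard, sub_self]
  haveI : CompleteSpace (invR C) := (isClosed_invR C).completeSpace_coe
  have hcl : (invR C).topologicalClosure = invR C :=
    (isClosed_invR C).submodule_topologicalClosure_eq
  have hP : (invR C).topologicalClosure.starProjection (ee 1 ()) = x := by
    refine Submodule.eq_starProjection_of_mem_of_inner_eq_zero ?_ ?_
    · rw [hcl]; exact hmem
    · intro w hw
      rw [hcl] at hw
      exact horth w hw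
  have hnorm : ‖x‖ ^ 2 = 1 / Nat.card C := by
    rw [← real_inner_self_eq_norm_sq]
    have := horth x hmem
    rw [inner_sub_left, inner_ee_left, hxv, if_pos C.one_mem] at this
    have h2 : ⟪x, x⟫_ℝ = (Nat.card C : ℝ)⁻¹ * 1 := by linarith
    rw [h2]; ring
  unfold vdim
  rw [Fintype.sum_unique]
  change ‖(invR C).topologicalClosure.starProjection (ee 1 ())‖ ^ 2 = _
  rw [hP, hnorm]

end MP42532b.L2
end
end
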