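import Pool.Agent.Lib.MP_42532b_al.L2.Basic

section

section

namespace L2B

section
variable {A : Type*} [Group A] {ℓ : A → ℕ}

/-- (2.1) local to global, one sided -/
theorem lg (h : GNorm ℓ) {δ : ℕ} (hyp : Hyp ℓ δ) (x : ℕ → A) (a : ℕ → ℕ) (m : ℕ)
    (h1 : ∀ i, i + 2 ≤ m → gd ℓ (x i) (x (i+1)) + gd ℓ (x (i+1)) (x (i+2)) ≤
      gd ℓ (x i) (x (i+2)) + a (i+1))
    (h2 : ∀ i, 1 ≤ i → i + 2 ≤ m → a i + a (i+1) + 4 * δ < 2 * gd ℓ (x i) (x (i+1))) :
    ∀ j, 1 ≤ j → j + 1 ≤ m → gd ℓ (x 0) (x j) + gd ℓ (x j) (x (j+1)) ≤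
      gd ℓ (x 0) (x (j+1)) + a j + 2 * δ := by
  intro j hj
  induction j, hj using Nat.le_induction with
  | base =>
    intro hm
    have := h1 0 (by omega)
    simp only [Nat.zero_add] at this
    show gd ℓ (x 0) (x 1) + gd ℓ (x 1) (x 2) ≤ gd ℓ (x 0) (x 2) + a 1 + 2 * δ
    omega
  | succ j hj ih =>
    intro hm
    have i1 := ih (by omega)
    have i2 := h1 j (by omega)
    have i3 := h2 j hj (by omega)
    have H := hyp (x 0) (x (j+1)) (x j) (x (j+1+1))
    have e1 := h.gd_comm (x (j+1)) (x j)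
    have e2 := h.gd_comm (x (j+2)) (x j)
    have e3 : j + 1 + 1 = j + 2 := rfl
    rw [e3] at H ⊢
    omega

/-- (2.2) progress -/
theorem lg_progress (h : GNorm ℓ) {δ : ℕ} (hyp : Hyp ℓ δ) (x : ℕ → A) (a : ℕ → ℕ) (m : ℕ)
    (h1 : ∀ i, i + 2 ≤ m → gd ℓ (x i) (x (i+1)) + gd ℓ (x (i+1)) (x (i+2)) ≤
      gd ℓ (x i) (x (i+2)) + a (i+1))
    (h2 : ∀ i, 1 ≤ i → i + 2 ≤ m → a i + a (i+1) + 4 * δ + 2 ≤ 2 * gd ℓ (x i) (x (i+1))) :
    ∀ j, 1 ≤ j → j + 1 ≤ m →
      2 * gd ℓ (x 0) (x 1) + 2 * (j - 1) + a j ≤ 2 * gd ℓ (x 0) (x j) + a 1 := by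
  have H := lg h hyp x a m h1 (fun i hi hm => by have := h2 i hi hm; omega)
  intro j hj
  induction j, hj using Nat.le_induction with
  | base => intro _; omega
  | succ j hj ih =>
    intro hm
    have i1 := ih (by omega)
    have i2 := H j hj (by omega)
    have i3 := h2 j hj (by omega)
    omega

/-- (2.3) local to global, two sided -/
theorem lg2 (h : GNorm ℓ) {δ : ℕ} (hyp : Hyp ℓ δ) (x : ℕ → A) (a : ℕ → ℕ) (m : ℕ)
    (h1 : ∀ i, i + 2 ≤ m → gd ℓ (x i) (x (i+1)) + gd ℓ (x (i+1)) (x (i+2)) ≤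
      gd ℓ (x i) (x (i+2)) + a (i+1))
    (h2 : ∀ i, 1 ≤ i → i + 2 ≤ m → a i + a (i+1) + 6 * δ < 2 * gd ℓ (x i) (x (i+1))) :
    ∀ j, 1 ≤ j → j + 1 ≤ m → gd ℓ (x 0) (x j) + gd ℓ (x j) (x m) ≤
      gd ℓ (x 0) (x m) + a j + 4 * δ := by
  have F := lg h hyp x a m h1 (fun i hi hm => by have := h2 i hi hm; omega)
  -- reversed path
  have B := lg h hyp (fun i => x (m - i)) (fun i => a (m - i)) m
    (by
      intro i hi
      have := h1 (m - (i + 2)) (by omega)
      have e1 : m - (i + 2) + 1 = m - (i + 1) := by omega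
      have e2 : m - (i + 2) + 2 = m - i := by omega
      simp only [e1, e2] at this
      rw [h.gd_comm (x (m - i)) (x (m - (i+1))), h.gd_comm (x (m - (i+1))) (x (m - (i+2))),
        h.gd_comm (x (m - i)) (x (m - (i+2)))]
      omega)
    (by
      intro i hi hm
      have := h2 (m - (i + 1)) (by omega) (by omega)
      have e1 : m - (i + 1) + 1 = m - i := by omega
      simp only [e1] at this
      rw [h.gd_comm (x (m - i)) (x (m - (i+1)))]
      omega)
  intro j hj hm
  by_cases hjm : j + 1 = m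
  · have := F j hj hm
    subst hjm
    omega
  have f := F j hj hm
  have b := B (m - (j + 1)) (by omega) (by omega)
  simp only [Nat.sub_zero] at b
  have e1 : m - (m - (j + 1)) = j + 1 := by omega
  have e2 : m - (m - (j + 1) + 1) = j := by omega
  rw [e1, e2] at b
  have g := h2 j hj (by omega)
  have H := hyp (x 0) (x (j+1)) (x j) (x m)
  have c1 := h.gd_comm (x (j+1)) (x j)
  have c2 := h.gd_comm (x m) (x j)
  have c3 := h.gd_comm (x m) (x (j+1))
  have c4 := h.gd_comm (x (j+1)) (x m)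
  omega

theorem gd_pow_bound (h : GNorm ℓ) (x g : A) :
    gd ℓ x (g * x) ≤ ℓ g + 2 * ℓ x := by
  have h1 := h.mul (x⁻¹ * g) x
  have h2 := h.mul x⁻¹ g
  have h3 := h.inv x
  unfold gd
  have : x⁻¹ * (g * x) = x⁻¹ * g * x := by group
  rw [this]; omega

/-- from linear growth of an orbit to `Lox` -/
theorem lox_of_growth (h : GNorm ℓ) (g x : A) (C : ℕ)
    (H : ∀ m : ℕ, m ≤ gd ℓ x (g ^ m * x) + C) : Lox ℓ g := by
  have H' : ∀ m : ℕ, m ≤ ℓ (g ^ m) + (2 * ℓ x + C) := by
    intro m
    have := gd_pow_bound h x (g ^ m)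
    have := H m
    omega
  have hinf : ∀ m : ℕ, 0 < m → g ^ m ≠ 1 := by
    intro m hm hg
    have := H' (m * (2 * ℓ x + C + 1))
    rw [pow_mul, hg, one_pow, h.one] at this
    nlinarith
  refine ⟨2 * ℓ x + C + 1, by omega, ?_⟩
  intro m
  rcases Nat.eq_zero_or_pos m with hm | hm
  · omega
  have h1 : 1 ≤ ℓ (g ^ m) := by
    by_contra hc
    exact hinf m hm (h.eq_one _ (by omega))
  have h2 := H' m
  nlinarith

theorem lox_of_pow (h : GNorm ℓ) {g : A} {j : ℕ} (hl : Lox ℓ (g ^ j)) : Lox ℓ g := by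
  obtain ⟨c, hc, H⟩ := hl
  have hp : ∀ (m : ℕ) (u : A), ℓ (u ^ m) ≤ m * ℓ u := by
    intro m u
    induction m with
    | zero => simp [h.one]
    | succ m ih =>
      rw [pow_succ]
      have := h.mul (u ^ m) u
      nlinarith
  have hj : 0 < j := by
    rcases Nat.eq_zero_or_pos j with hj | hj
    · subst hj
      have := H 1
      simp [h.one] at this
    · exact hj
  refine ⟨c * j, by positivity, ?_⟩
  intro m
  have h1 := H m
  have h2 := hp j (g ^ m)
  have h3 : (g ^ j) ^ m = (g ^ m) ^ j := by rw [← pow_mul, ← pow_mul, mul_comm]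
  rw [h3] at h1
  calc m ≤ c * ℓ ((g ^ m) ^ j) := h1
    _ ≤ c * (j * ℓ (g ^ m)) := Nat.mul_le_mul_left _ h2
    _ = c * j * ℓ (g ^ m) := by ring

theorem lox_one_not (h : GNorm ℓ) : ¬ Lox ℓ (1 : A) := by
  rintro ⟨c, _, H⟩
  have := H 1
  simp [h.one] at this

theorem Lox.infOrd (h : GNorm ℓ) {g : A} (hl : Lox ℓ g) : InfOrd g := by
  intro m hm hg
  have : Lox ℓ (g ^ m) := by
    obtain ⟨c, hc, H⟩ := hl
    refine ⟨c, hc, ?_⟩
    intro k
    have := H (m * k)
    rw [pow_mul] at this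
    nlinarith
  rw [hg] at this
  exact lox_one_not h this

/-- (2.4), period one -/
theorem lox_crit1 (h : GNorm ℓ) {δ : ℕ} (hyp : Hyp ℓ δ) (g x : A) (a : ℕ)
    (ha : 2 * gd ℓ x (g * x) ≤ gd ℓ x (g ^ 2 * x) + a)
    (hb : a + 2 * δ + 1 ≤ gd ℓ x (g * x)) : Lox ℓ g := by
  have hs : ∀ i j : ℕ, gd ℓ (g ^ i * x) (g ^ (i + j) * x) = gd ℓ x (g ^ j * x) := by
    intro i j
    rw [pow_add, mul_assoc, gd_left]
  have key := fun m => lg_progress h hyp (fun i => g ^ i * x) (fun _ => a) m
    (by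
      intro i _
      rw [hs i 1, hs (i+1) 1, hs i 2, pow_one]
      omega)
    (by
      intro i _ _
      rw [hs i 1, pow_one]
      omega)
  apply lox_of_growth h g x 1
  intro m
  rcases Nat.eq_zero_or_pos m with hm | hm
  · omega
  have := key (m + 1) m hm le_rfl
  simp only [pow_zero, one_mul] at this
  omega

/-- (2.4), period two -/
theorem lox_crit2 (h : GNorm ℓ) {δ : ℕ} (hyp : Hyp ℓ δ) (s t x : A) (e e' : ℕ)
    (he : gd ℓ x (s * x) + gd ℓ x (t * x) ≤ gd ℓ (s⁻¹ * x) (t * x) + e)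
    (he' : gd ℓ x (s * x) + gd ℓ x (t * x) ≤ gd ℓ (t⁻¹ * x) (s * x) + e')
    (hs : e + e' + 4 * δ + 2 ≤ 2 * gd ℓ x (s * x))
    (ht : e + e' + 4 * δ + 2 ≤ 2 * gd ℓ x (t * x)) : Lox ℓ (s * t) := by
  -- the path `x, s x, s t x, s t s x, ...`
  set X : ℕ → A := fun i => if i % 2 = 0 then (s * t) ^ (i / 2) * x else (s * t) ^ (i / 2) * s * x
    with hX
  have hev : ∀ k, X (2 * k) = (s * t) ^ k * x := by
    intro k
    simp [hX]
  have hod : ∀ k, X (2 * k + 1) = (s * t) ^ k * s * x := by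
    intro k
    simp only [hX]
    rw [if_neg (by omega)]
    congr 3; omega
  have d1 : ∀ k, gd ℓ (X (2*k)) (X (2*k+1)) = gd ℓ x (s * x) := by
    intro k
    rw [hev, hod, mul_assoc, gd_left]
  have d2 : ∀ k, gd ℓ (X (2*k+1)) (X (2*k+2)) = gd ℓ x (t * x) := by
    intro k
    have : 2 * k + 2 = 2 * (k + 1) := by ring
    rw [this, hev, hod, pow_succ]
    have e1 : (s * t) ^ k * (s * t) * x = (s * t) ^ k * s * (t * x) := by group
    rw [e1, gd_left]
  have d3 : ∀ k, gd ℓ (X (2*k)) (X (2*k+2)) = gd ℓ (s⁻¹ * x) (t * x) := by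
    intro k
    have : 2 * k + 2 = 2 * (k + 1) := by ring
    rw [this, hev, hev, pow_succ]
    have e1 : (s * t) ^ k * (s * t) * x = (s * t) ^ k * s * (t * x) := by group
    have e2 : (s * t) ^ k * x = (s * t) ^ k * s * (s⁻¹ * x) := by group
    rw [e1]; nth_rewrite 1 [e2]; rw [gd_left]
  have d4 : ∀ k, gd ℓ (X (2*k+1)) (X (2*k+3)) = gd ℓ (t⁻¹ * x) (s * x) := by
    intro k
    have : 2 * k + 3 = 2 * (k + 1) + 1 := by ring
    rw [this, hod, hod, pow_succ]
    have e1 : (s * t) ^ k * (s * t) * s * x = (s * t) ^ k * s * t * (s * x) := by group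
    have e2 : (s * t) ^ k * s * x = (s * t) ^ k * s * t * (t⁻¹ * x) := by group
    rw [e1, e2, gd_left]
  have key := fun m => lg_progress h hyp X (fun i => if i % 2 = 0 then e' else e) m
    (by
      intro i _
      rcases Nat.even_or_odd' i with ⟨k, hk | hk⟩
      · subst hk
        rw [d1, d2, d3]
        rw [if_neg (by omega)]
        exact he
      · subst hk
        have e1 : 2 * k + 1 + 1 = 2 * k + 2 := rfl
        have e2 : 2 * k + 1 + 2 = 2 * k + 3 := rfl
        have e3 := d1 (k + 1)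
        have e4 : 2 * (k + 1) = 2 * k + 2 := by ring
        rw [e4] at e3
        rw [e1, e2, d2, d4, e3]
        rw [if_pos (by omega)]
        omega)
    (by
      intro i _ _
      rcases Nat.even_or_odd' i with ⟨k, hk | hk⟩
      · subst hk
        rw [d1]
        rw [if_pos (by omega), if_neg (by omega)]
        omega
      · subst hk
        have e1 : 2 * k + 1 + 1 = 2 * k + 2 := rfl
        rw [e1, d2]
        rw [if_neg (by omega), if_pos (by omega)]
        omega)
  apply lox_of_growth h (s * t) x (e + 1)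
  intro m
  rcases Nat.eq_zero_or_pos m with hm | hm
  · omega
  have := key (2 * m + 1) (2 * m) (by omega) le_rfl
  rw [hev] at this
  have h0 : X 0 = x := by simp [hX]
  rw [h0] at this
  rw [if_pos (by omega), if_neg (by omega)] at this
  omega

end

end L2B
end

section

namespace L2B
variable {A : Type*} [Group A] {ℓ : A → ℕ}

private theorem koubi_lox_sq {s : A} (hs : Lox ℓ s) : Lox ℓ (s * s) := by
  obtain ⟨c, hc, H⟩ := hs
  refine ⟨c, hc, fun m => ?_⟩
  have h1 := H (2 * m)
  rw [pow_mul, pow_two] at h1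
  omega

private theorem koubi_inv (_h : GNorm ℓ) (x t y : A) :
    gd ℓ y (t⁻¹ * x) = gd ℓ (t * y) x := by
  rw [← gd_left ℓ t y (t⁻¹ * x), mul_inv_cancel_left]

/-- step 1 -/
private theorem koubi_one (h : GNorm ℓ) {δ : ℕ} (hyp : Hyp ℓ δ) {s : A} (x : A)
    (hs : ¬ Lox ℓ (s * s)) : gd ℓ x (s ^ 2 * x) ≤ gd ℓ x (s * x) + 2 * δ := by
  have h1 : ¬ Lox ℓ s := fun hl => hs (koubi_lox_sq hl)
  have h2 := h.gd_tri x (s * x) (s ^ 2 * x)
  have h3 : gd ℓ (s * x) (s ^ 2 * x) = gd ℓ x (s * x) := by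
    rw [pow_two, mul_assoc, gd_left]
  by_contra hc
  exact h1 (lox_crit1 h hyp s x (2 * gd ℓ x (s * x) - gd ℓ x (s ^ 2 * x)) (by omega) (by omega))

/-- step 2 -/
private theorem koubi_two (h : GNorm ℓ) {δ : ℕ} (hyp : Hyp ℓ δ) {s t : A} (x : A)
    (hss : ¬ Lox ℓ (s * s)) (htt : ¬ Lox ℓ (t * t)) (hst : ¬ Lox ℓ (s⁻¹ * t)) :
    gd ℓ (s * x) (t * x) ≤ max (gd ℓ x (s * x)) (gd ℓ x (t * x)) + 6 * δ := by
  have a1 := koubi_one h hyp x hss
  have a2 := koubi_one h hyp x htt
  have b1 : gd ℓ x (s⁻¹ * x) = gd ℓ x (s * x) := by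
    rw [koubi_inv h, h.gd_comm]
  have b2 : gd ℓ x (t⁻¹ * x) = gd ℓ x (t * x) := by
    rw [koubi_inv h, h.gd_comm]
  have c1 : gd ℓ (s * x) (s⁻¹ * x) = gd ℓ x (s ^ 2 * x) := by
    rw [koubi_inv h, ← mul_assoc, ← pow_two, h.gd_comm]
  have c2 : gd ℓ (t * x) (t⁻¹ * x) = gd ℓ x (t ^ 2 * x) := by
    rw [koubi_inv h, ← mul_assoc, ← pow_two, h.gd_comm]
  have d1 := hyp (s * x) (t * x) x (s⁻¹ * x)
  have d2 := hyp (s⁻¹ * x) (t * x) x (t⁻¹ * x)
  have e1 := h.gd_comm (s * x) x
  have e2 := h.gd_comm (t * x) x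
  have e3 := h.gd_comm (s⁻¹ * x) x
  have e4 := h.gd_comm (t⁻¹ * x) x
  have e5 := h.gd_comm (t * x) (s⁻¹ * x)
  have e6 := h.gd_comm (t⁻¹ * x) (s⁻¹ * x)
  have f1 := h.gd_tri (s * x) x (t * x)
  have f2 := h.gd_tri (s⁻¹ * x) x (t⁻¹ * x)
  by_contra hc
  apply hst
  refine lox_crit2 h hyp s⁻¹ t x (gd ℓ x (s * x) + gd ℓ x (t * x) - gd ℓ (s * x) (t * x))
    (gd ℓ x (s * x) + gd ℓ x (t * x) - gd ℓ (s⁻¹ * x) (t⁻¹ * x)) ?_ ?_ ?_ ?_
  · rw [inv_inv]
    omega
  · omega
  · omega
  · omega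

/-- (3.1) Koubi's lemma -/
theorem koubi (h : GNorm ℓ) {δ : ℕ} (hyp : Hyp ℓ δ) (S : Finset A) (hne : S.Nonempty)
    (hS : ∀ s ∈ S, s⁻¹ ∈ S) (hl : ∀ s ∈ S, ∀ t ∈ S, ¬ Lox ℓ (s * t)) :
    ∃ x : A, ∀ s ∈ S, gd ℓ x (s * x) ≤ 18 * δ + 4 := by
  set f : A → ℕ := fun x => S.sup fun s => gd ℓ x (s * x) with hf
  obtain ⟨x, hx⟩ : ∃ x, ∀ y, f x ≤ f y :=
    ⟨Function.argmin f, fun y => Function.argmin_le f y⟩
  refine ⟨x, ?_⟩
  by_contra hcon
  have hM : 18 * δ + 4 < f x := by
    push Not at hcon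
    obtain ⟨s, hs, hs2⟩ := hcon
    exact lt_of_lt_of_le hs2 (Finset.le_sup (f := fun s => gd ℓ x (s * x)) hs)
  have hle : ∀ t ∈ S, gd ℓ x (t * x) ≤ f x := fun t ht =>
    Finset.le_sup (f := fun s => gd ℓ x (s * x)) ht
  obtain ⟨s₀, hs₀, hs₀M⟩ : ∃ s ∈ S, f x = gd ℓ x (s * x) :=
    Finset.exists_mem_eq_sup S hne _
  have two : ∀ t ∈ S, gd ℓ (s₀ * x) (t * x) ≤ f x + 6 * δ := by
    intro t ht
    have h1 := koubi_two h hyp x (hl _ hs₀ _ hs₀) (hl _ ht _ ht) (hl _ (hS _ hs₀) _ ht)
    have h2 := hle t ht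
    omega
  obtain ⟨y, hy1, hy2⟩ := h.exists_btw x (s₀ * x) (3 * δ + 1) (by omega)
  have key : f y < f x := by
    change (S.sup fun s => gd ℓ y (s * y)) < f x
    rw [Finset.sup_lt_iff (by rw [Nat.bot_eq_zero]; omega)]
    intro t ht
    have hb := hle t ht
    have t1 := two t ht
    have t2 := two _ (hS t ht)
    have b2 : gd ℓ x (t⁻¹ * x) = gd ℓ x (t * x) := by
      rw [koubi_inv h, h.gd_comm]
    have b3 : gd ℓ y (t⁻¹ * x) = gd ℓ (t * y) x := koubi_inv h x t y
    have b4 : gd ℓ (t * y) (t * x) = gd ℓ y x := gd_left ℓ t y x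
    have g1 := h.gd_tri y x (t * y)
    have g2 := h.gd_tri x (t * x) (t * y)
    have g3 := h.gd_comm y x
    have g4 := h.gd_comm (t * x) (t * y)
    -- first products
    have p1 := hyp y (t * x) x (s₀ * x)
    have p2 := hyp y (t⁻¹ * x) x (s₀ * x)
    have p3 := hyp y (t * y) x (t * x)
    have q1 := h.gd_comm (t * x) (s₀ * x)
    have q2 := h.gd_comm (t⁻¹ * x) (s₀ * x)
    have q3 := h.gd_comm (t * x) x
    have q4 := h.gd_comm (t⁻¹ * x) x
    unfold Btw at hy2
    omega
  exact absurd (hx y) (by omega)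

end L2B
end

section

namespace L2B
variable {A : Type*} [Group A] {ℓ : A → ℕ}

private theorem loxF_inv (h : GNorm ℓ) {g : A} (hl : Lox ℓ g) : Lox ℓ g⁻¹ := by
  obtain ⟨c, hc, H⟩ := hl
  refine ⟨c, hc, fun m => ?_⟩
  rw [inv_pow, h.inv]
  exact H m

private theorem loxF_of_zpow (h : GNorm ℓ) {g : A} {m : ℤ} (hl : Lox ℓ (g ^ m)) : Lox ℓ g := by
  obtain ⟨n, rfl | rfl⟩ := m.eq_nat_or_neg
  · rw [zpow_natCast] at hl
    exact lox_of_pow h hl
  · rw [zpow_neg, zpow_natCast] at hl
    have := loxF_inv h hl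
    rw [inv_inv] at this
    exact lox_of_pow h this

private theorem loxF_pow_le (h : GNorm ℓ) (u : A) (m : ℕ) : ℓ (u ^ m) ≤ m * ℓ u := by
  induction m with
  | zero => simp [h.one]
  | succ m ih =>
    rw [pow_succ]
    have := h.mul (u ^ m) u
    nlinarith

/-- a symmetric finite set larger than the ball of radius `18 * δ + 4` contains two elements with
a loxodromic product -/
private theorem loxF_card (h : GNorm ℓ) {δ : ℕ} (hyp : Hyp ℓ δ) (S : Finset A)
    (hS : ∀ s ∈ S, s⁻¹ ∈ S) (hcard : (h.fin (18 * δ + 4)).toFinset.card < S.card) :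
    ∃ s ∈ S, ∃ t ∈ S, Lox ℓ (s * t) := by
  classical
  by_contra hno
  push Not at hno
  have hne : S.Nonempty := Finset.card_pos.1 (by omega)
  obtain ⟨x, hx⟩ := koubi h hyp S hne hS hno
  have hmap : S.image (fun s => x⁻¹ * (s * x)) ⊆ (h.fin (18 * δ + 4)).toFinset := by
    intro u hu
    obtain ⟨s, hs, rfl⟩ := Finset.mem_image.1 hu
    rw [Set.Finite.mem_toFinset]
    exact hx s hs
  have hinj : Function.Injective (fun s : A => x⁻¹ * (s * x)) := by
    intro s t hst
    exact mul_right_cancel (mul_left_cancel hst)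
  have := Finset.card_le_card hmap
  rw [Finset.card_image_of_injective _ hinj] at this
  omega

/-- (3.2) -/
theorem lox_of_infOrd (h : GNorm ℓ) {δ : ℕ} (hyp : Hyp ℓ δ) {g : A} (hg : InfOrd g) :
    Lox ℓ g := by
  classical
  set k : ℕ := (h.fin (18 * δ + 4)).toFinset.card with hk
  have hinj : Function.Injective (fun z : ℤ => g ^ z) := by
    have : ¬ IsOfFinOrder g := by
      rw [isOfFinOrder_iff_pow_eq_one]
      rintro ⟨n, hn, hn'⟩
      exact hg n hn hn'
    exact injective_zpow_iff_not_isOfFinOrder.2 this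
  set S : Finset A := (Finset.Icc (-(k : ℤ)) k).image (fun z : ℤ => g ^ z) with hSdef
  have hS : ∀ s ∈ S, s⁻¹ ∈ S := by
    intro s hs
    obtain ⟨z, hz, rfl⟩ := Finset.mem_image.1 hs
    refine Finset.mem_image.2 ⟨-z, ?_, ?_⟩
    · rw [Finset.mem_Icc] at hz ⊢
      omega
    · rw [zpow_neg]
  have hcard : k < S.card := by
    rw [hSdef, Finset.card_image_of_injective _ hinj, Int.card_Icc]
    omega
  obtain ⟨s, hs, t, ht, hst⟩ := loxF_card h hyp S hS hcard
  obtain ⟨i, _, rfl⟩ := Finset.mem_image.1 hs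
  obtain ⟨j, _, rfl⟩ := Finset.mem_image.1 ht
  simp only [← zpow_add] at hst
  exact loxF_of_zpow h hst

/-- (3.3) -/
theorem exists_lox_of_infinite (h : GNorm ℓ) {δ : ℕ} (hyp : Hyp ℓ δ) (H : Subgroup A)
    (hH : (H : Set A).Infinite) : ∃ g ∈ H, Lox ℓ g := by
  classical
  obtain ⟨T, hT, hTc⟩ := hH.exists_subset_card_eq ((h.fin (18 * δ + 4)).toFinset.card + 1)
  have hTH : ∀ t ∈ T, t ∈ H := fun t ht => hT ht
  have hmem : ∀ s ∈ T ∪ T.image (fun t => t⁻¹), s ∈ H := by
    intro s hs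
    rcases Finset.mem_union.1 hs with hs | hs
    · exact hTH s hs
    · obtain ⟨t, ht, rfl⟩ := Finset.mem_image.1 hs
      exact H.inv_mem (hTH t ht)
  obtain ⟨s, hs, t, ht, hst⟩ := loxF_card h hyp (T ∪ T.image (fun t => t⁻¹))
    (by
      intro s hs
      rcases Finset.mem_union.1 hs with hs | hs
      · exact Finset.mem_union_right _ (Finset.mem_image.2 ⟨s, hs, rfl⟩)
      · obtain ⟨t, ht, rfl⟩ := Finset.mem_image.1 hs
        rw [inv_inv]
        exact Finset.mem_union_left _ ht)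
    (by
      have := Finset.card_le_card (Finset.subset_union_left (s₁ := T)
        (s₂ := T.image (fun t => t⁻¹)))
      omega)
  exact ⟨s * t, H.mul_mem (hmem s hs) (hmem t ht), hst⟩

/-- (3.4) -/
theorem finite_subgroup_fix (h : GNorm ℓ) {δ : ℕ} (hyp : Hyp ℓ δ) (P : Subgroup A)
    (hP : (P : Set A).Finite) : ∃ x : A, ∀ p ∈ P, gd ℓ x (p * x) ≤ 18 * δ + 4 := by
  classical
  obtain ⟨x, hx⟩ := koubi h hyp hP.toFinset ⟨1, hP.mem_toFinset.2 P.one_mem⟩
    (by
      intro s hs
      rw [hP.mem_toFinset] at hs ⊢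
      exact P.inv_mem hs)
    (by
      intro s hs t ht hl
      rw [hP.mem_toFinset] at hs ht
      have hst : s * t ∈ P := P.mul_mem hs ht
      have : Finite P := hP.to_subtype
      have hfo : IsOfFinOrder (⟨s * t, hst⟩ : P) := isOfFinOrder_of_finite _
      obtain ⟨n, hn, hn'⟩ := isOfFinOrder_iff_pow_eq_one.1 hfo
      refine Lox.infOrd h hl n hn ?_
      have := congrArg Subtype.val hn'
      simpa using this)
  exact ⟨x, fun p hp => hx p (hP.mem_toFinset.2 hp)⟩

private theorem loxF_double {c L δ : ℕ} (f : ℕ → ℕ) (h0 : f 0 ≤ L)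
    (hstep : ∀ j, f (j + 1) ≤ f j + 5 * δ) (hlow : ∀ j, 2 ^ j ≤ c * f j) : False := by
  have h1 : ∀ j, f j ≤ L + 5 * δ * j := by
    intro j
    induction j with
    | zero => simpa using h0
    | succ j ih =>
      have := hstep j
      nlinarith
  set i : ℕ := c * (L + 10 * δ) + 1 with hi
  have h2 := hlow (i + i)
  have h3 := h1 (i + i)
  have h4 : i < 2 ^ i := Nat.lt_two_pow_self
  have h5 : i * i < 2 ^ (i + i) := by
    rw [pow_add]
    exact Nat.mul_lt_mul'' h4 h4
  have h6 : c * f (i + i) ≤ c * (L + 5 * δ * (i + i)) := Nat.mul_le_mul_left _ h3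
  have h7 : L + 5 * δ * (i + i) ≤ (L + 10 * δ) * i := by
    have : 1 ≤ i := by omega
    nlinarith
  have h8 : c * (L + 5 * δ * (i + i)) ≤ c * ((L + 10 * δ) * i) := Nat.mul_le_mul_left _ h7
  have h9 : c * ((L + 10 * δ) * i) ≤ i * i := by
    rw [← mul_assoc]
    exact Nat.mul_le_mul_right _ (by omega)
  omega

/-- (3.5) -/
theorem lox_ax (h : GNorm ℓ) {δ : ℕ} (hyp : Hyp ℓ δ) {g : A} (hg : Lox ℓ g) :
    ∃ c : ℕ, ∀ i j : ℕ, ℓ (g ^ i) + ℓ (g ^ j) ≤ ℓ (g ^ (i + j)) + c := by
  obtain ⟨c₀, hc₀, Hc⟩ := hg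
  -- (a)
  obtain ⟨N, hN, hN2⟩ : ∃ N : ℕ, 1 ≤ N ∧ ℓ (g ^ N) + 5 * δ + 1 ≤ ℓ (g ^ (2 * N)) := by
    by_contra hno
    push Not at hno
    refine loxF_double (c := c₀) (L := ℓ g) (δ := δ) (fun j => ℓ (g ^ (2 ^ j))) (by simp) ?_ ?_
    · intro j
      have := hno (2 ^ j) Nat.one_le_two_pow
      have e : 2 ^ (j + 1) = 2 * 2 ^ j := by ring
      simp only [e]
      omega
    · intro j
      exact Hc _
  -- (b)
  set v : A := g ^ N with hv
  have hv2 : g ^ (2 * N) = v ^ 2 := by rw [hv, ← pow_mul, mul_comm]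
  rw [hv2] at hN2
  have hdv : ∀ i j : ℕ, gd ℓ (v ^ i) (v ^ (i + j)) = ℓ (v ^ j) := by
    intro i j
    unfold gd
    rw [pow_add, inv_mul_cancel_left]
  have hb : ∀ i j : ℕ, ℓ (v ^ i) + ℓ (v ^ j) ≤ ℓ (v ^ (i + j)) + (2 * ℓ v + 4 * δ) := by
    intro i j
    rcases Nat.eq_zero_or_pos i with hi | hi
    · subst hi
      simp [h.one]
    rcases Nat.eq_zero_or_pos j with hj | hj
    · subst hj
      simp [h.one]
    have hv2le : ℓ (v ^ 2) ≤ 2 * ℓ v := loxF_pow_le h v 2
    have key := lg2 h hyp (fun i => v ^ i) (fun _ => 2 * ℓ v - ℓ (v ^ 2)) (i + j)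
      (by
        intro k _
        rw [hdv k 1, hdv (k + 1) 1, hdv k 2, pow_one]
        omega)
      (by
        intro k _ _
        rw [hdv k 1, pow_one]
        omega) i hi (by omega)
    have e1 : gd ℓ (v ^ 0) (v ^ i) = ℓ (v ^ i) := by
      have := hdv 0 i
      rwa [Nat.zero_add] at this
    have e2 : gd ℓ (v ^ 0) (v ^ (i + j)) = ℓ (v ^ (i + j)) := by
      have := hdv 0 (i + j)
      rwa [Nat.zero_add] at this
    simp only [e1, e2, hdv i j] at key
    omega
  -- (c)
  refine ⟨2 * ℓ v + 4 * δ + 4 * N * ℓ g, fun i j => ?_⟩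
  have hdec : ∀ i : ℕ, ℓ (g ^ i) ≤ ℓ (v ^ (i / N)) + N * ℓ g := by
    intro i
    have e : g ^ i = v ^ (i / N) * g ^ (i % N) := by
      rw [hv, ← pow_mul, ← pow_add, Nat.div_add_mod]
    rw [e]
    refine (h.mul _ _).trans ?_
    have h1 := loxF_pow_le h g (i % N)
    have h2 : i % N * ℓ g ≤ N * ℓ g := Nat.mul_le_mul_right _ (Nat.mod_lt _ hN).le
    omega
  have h1 := hdec i
  have h2 := hdec j
  have h3 := hb (i / N) (j / N)
  have h4 : ℓ (v ^ (i / N + j / N)) ≤ ℓ (g ^ (i + j)) + 2 * N * ℓ g := by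
    have e : g ^ (i + j) = v ^ (i / N + j / N) * g ^ (i % N + j % N) := by
      rw [hv, ← pow_mul, ← pow_add]
      congr 1
      have e1 := Nat.div_add_mod i N
      have e2 := Nat.div_add_mod j N
      rw [mul_add]
      omega
    have e' : v ^ (i / N + j / N) = g ^ (i + j) * (g ^ (i % N + j % N))⁻¹ := by
      rw [e, mul_inv_cancel_right]
    rw [e']
    refine (h.mul _ _).trans ?_
    rw [h.inv]
    have h5 := loxF_pow_le h g (i % N + j % N)
    have h6 : (i % N + j % N) * ℓ g ≤ 2 * N * ℓ g := by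
      refine Nat.mul_le_mul_right _ ?_
      have := Nat.mod_lt i hN
      have := Nat.mod_lt j hN
      omega
    omega
  have h7 : 4 * N * ℓ g = N * ℓ g + N * ℓ g + 2 * N * ℓ g := by ring
  omega

end L2B
end
end

section

namespace L2B
variable {A A' : Type*} [Group A] [Group A']

/-- quotient norm -/
noncomputable def qnorm (q : A →* A') (ℓ : A → ℕ) (g' : A') : ℕ :=
  sInf {n | ∃ g, q g = g' ∧ ℓ g = n}

theorem qnorm_spec (q : A →* A') (hq : Function.Surjective q) (ℓ : A → ℕ) :
    QNorm q ℓ (qnorm q ℓ) := by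
  constructor
  · intro g
    exact Nat.sInf_le ⟨g, rfl, rfl⟩
  · intro g'
    obtain ⟨g, hg⟩ := hq g'
    exact Nat.sInf_mem (s := {n | ∃ g, q g = g' ∧ ℓ g = n}) ⟨ℓ g, g, hg, rfl⟩

/-- a quotient norm is a norm -/
theorem QNorm.gnorm {q : A →* A'} (hq : Function.Surjective q) {ℓ : A → ℕ} {ℓ' : A' → ℕ}
    (hqn : QNorm q ℓ ℓ') (h : GNorm ℓ) : GNorm ℓ' := by
  have hinv : ∀ g', ℓ' g'⁻¹ ≤ ℓ' g' := by
    intro g'
    obtain ⟨g, hg, hg2⟩ := hqn.lift g'
    have h1 := hqn.le g⁻¹
    rw [map_inv, hg, h.inv, hg2] at h1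
    exact h1
  have hmul : ∀ g h, ℓ' (g * h) ≤ ℓ' g + ℓ' h := by
    intro g' h'
    obtain ⟨g, hg, hg2⟩ := hqn.lift g'
    obtain ⟨k, hk, hk2⟩ := hqn.lift h'
    have h1 := hqn.le (g * k)
    rw [map_mul, hg, hk] at h1
    have h2 := h.mul g k
    omega
  refine ⟨?_, ?_, ?_, hmul, ?_, ?_⟩
  · have h1 := hqn.le 1
    rw [map_one, h.one] at h1
    omega
  · intro g' hg'
    obtain ⟨g, hg, hg2⟩ := hqn.lift g'
    have h1 := h.eq_one g (by omega)
    rw [← hg, h1, map_one]
  · intro g'
    have h1 := hinv g'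
    have h2 := hinv g'⁻¹
    rw [inv_inv] at h2
    omega
  · intro g' n hn
    obtain ⟨g, hg, hg2⟩ := hqn.lift g'
    obtain ⟨k, hk1, hk2⟩ := h.geo g n (by omega)
    have h1 := hqn.le k
    have h2 := hqn.le (k⁻¹ * g)
    rw [map_mul, map_inv, hg] at h2
    have h3 := hmul (q k) ((q k)⁻¹ * g')
    rw [mul_inv_cancel_left] at h3
    exact ⟨q k, by omega, by omega⟩
  · intro n
    refine ((h.fin n).image q).subset ?_
    intro g' hg'
    obtain ⟨g, hg, hg2⟩ := hqn.lift g'
    refine ⟨g, ?_, hg⟩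
    show ℓ g ≤ n
    have : ℓ' g' ≤ n := hg'
    omega

/-- distances in the quotient: lift of the second point for a given lift of the first one -/
theorem QNorm.lift_gd {q : A →* A'} {ℓ : A → ℕ} {ℓ' : A' → ℕ}
    (hqn : QNorm q ℓ ℓ') (x : A) (y' : A') : ∃ y, q y = y' ∧ gd ℓ x y = gd ℓ' (q x) y' := by
  obtain ⟨z, hz1, hz2⟩ := hqn.lift ((q x)⁻¹ * y')
  refine ⟨x * z, ?_, ?_⟩
  · rw [map_mul, hz1, mul_inv_cancel_left]
  · unfold gd
    rw [inv_mul_cancel_left]
    exact hz2

theorem QNorm.gd_le {q : A →* A'} {ℓ : A → ℕ} {ℓ' : A' → ℕ}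
    (hqn : QNorm q ℓ ℓ') (x y : A) : gd ℓ' (q x) (q y) ≤ gd ℓ x y := by
  unfold gd
  rw [← map_inv, ← map_mul]
  exact hqn.le _

private theorem norm_mk_of_isReduced {L : List (Fin 2 × Bool)} (h : FreeGroup.IsReduced L) :
    (FreeGroup.mk L).norm = L.length := by
  unfold FreeGroup.norm
  rw [FreeGroup.toWord_mk, h.reduce_eq]

/-- the norm of the free group of rank two -/
theorem gnorm_free : GNorm (fun g : FreeGroup (Fin 2) => g.norm) := by
  refine ⟨FreeGroup.norm_one, fun g hg => FreeGroup.norm_eq_zero.1 hg,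
    fun g => FreeGroup.norm_inv_eq, FreeGroup.norm_mul_le, ?_, ?_⟩
  · intro g n hn
    have hr : FreeGroup.IsReduced g.toWord := FreeGroup.isReduced_toWord
    have h1 : FreeGroup.IsReduced (g.toWord.take n) :=
      List.IsChain.take hr n
    have h2 : FreeGroup.IsReduced (g.toWord.drop n) :=
      List.IsChain.drop hr n
    have hn' : n ≤ g.toWord.length := hn
    refine ⟨FreeGroup.mk (g.toWord.take n), ?_, ?_⟩
    · show (FreeGroup.mk (g.toWord.take n)).norm = n
      rw [norm_mk_of_isReduced h1, List.length_take]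
      omega
    · show ((FreeGroup.mk (g.toWord.take n))⁻¹ * g).norm = g.norm - n
      have h3 : g = FreeGroup.mk (g.toWord.take n) * FreeGroup.mk (g.toWord.drop n) := by
        rw [FreeGroup.mul_mk, List.take_append_drop, FreeGroup.mk_toWord]
      have h4 : (FreeGroup.mk (g.toWord.take n))⁻¹ * g = FreeGroup.mk (g.toWord.drop n) := by
        rw [inv_mul_eq_iff_eq_mul]
        exact h3
      rw [h4, norm_mk_of_isReduced h2, List.length_drop]
      rfl
  · intro n
    have h1 : (FreeGroup.toWord ⁻¹' {L : List (Fin 2 × Bool) | L.length ≤ n}).Finite :=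
      (List.finite_length_le (Fin 2 × Bool) n).preimage FreeGroup.toWord_injective.injOn
    exact h1

/-- the free group satisfies the Dehn property -/
theorem dehn_free : DehnP (fun g : FreeGroup (Fin 2) => g.norm) 2 := by
  intro m v hm hv hstep
  by_contra hcon
  push Not at hcon
  -- the letters
  have hone : ∀ i < m, ((v i)⁻¹ * v (i + 1)).norm = 1 := by
    intro i hi
    have h1 : ((v i)⁻¹ * v (i + 1)).norm ≤ 1 := hstep i hi
    have h2 : i + 1 - i ≤ ((v i)⁻¹ * v (i + 1)).norm :=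
      hcon i (i + 1) (by omega) (by omega) (by omega)
    omega
  have hlet : ∀ i, ∃ a : Fin 2 × Bool, i < m → (v i)⁻¹ * v (i + 1) = FreeGroup.mk [a] := by
    intro i
    by_cases hi : i < m
    · have h1 := hone i hi
      unfold FreeGroup.norm at h1
      obtain ⟨a, ha⟩ := List.length_eq_one_iff.1 h1
      refine ⟨a, fun _ => ?_⟩
      rw [← ha, FreeGroup.mk_toWord]
    · exact ⟨(0, true), fun h => absurd h hi⟩
  choose a ha using hlet
  have hword : ∀ i, i ≤ m → (v 0)⁻¹ * v i = FreeGroup.mk ((List.range i).map a) := by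
    intro i
    induction i with
    | zero =>
      intro _
      simp [FreeGroup.one_eq_mk]
    | succ i ih =>
      intro hi
      rw [List.range_succ, List.map_append, List.map_singleton, ← FreeGroup.mul_mk,
        ← ih (by omega), ← ha i (by omega)]
      group
  have hred : FreeGroup.IsReduced ((List.range m).map a) := by
    unfold FreeGroup.IsReduced
    rw [List.isChain_iff_getElem]
    intro i hi
    rw [List.length_map, List.length_range] at hi
    simp only [List.getElem_map, List.getElem_range]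
    intro h1
    by_contra h2
    have h3 : i + 2 - i ≤ ((v i)⁻¹ * v (i + 2)).norm :=
      hcon i (i + 2) (by omega) (by omega) (by omega)
    have h4 : (v i)⁻¹ * v (i + 2) = FreeGroup.mk [a i, a (i + 1)] := by
      have e1 := ha i (by omega)
      have e2 := ha (i + 1) (by omega)
      have e3 : FreeGroup.mk [a i, a (i + 1)] = FreeGroup.mk [a i] * FreeGroup.mk [a (i + 1)] := by
        rw [FreeGroup.mul_mk]; rfl
      rw [e3, ← e1, ← e2]
      group
    have h5 : FreeGroup.mk [a i, a (i + 1)] = 1 := by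
      have e1 : a (i + 1) = ((a i).1, !(a i).2) := by
        apply Prod.ext
        · exact h1.symm
        · have : (a i).2 ≠ (a (i + 1)).2 := h2
          revert this
          cases (a i).2 <;> cases (a (i + 1)).2 <;> simp
      rw [e1]
      have e2 : [a i, ((a i).1, !(a i).2)] = [] ++ ((a i).1, (a i).2) :: ((a i).1, !(a i).2) :: [] :=
        rfl
      rw [e2, FreeGroup.one_eq_mk]
      exact Quot.sound FreeGroup.Red.Step.not
    rw [h4, h5, FreeGroup.norm_one] at h3
    omega
  have h1 := hword m le_rfl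
  rw [hv, inv_mul_cancel] at h1
  have h2 := norm_mk_of_isReduced hred
  rw [← h1, FreeGroup.norm_one, List.length_map, List.length_range] at h2
  omega

end L2B
end

section

section

/-! # Sums along paths -/

noncomputable section

namespace MP42532b.L2

variable {G : Type*} [Group G] {d : ℕ} (s : Fin d → G) (v : G × Fin d → ℝ)

theorem psum_one : psum s v 1 = 1 := map_one _

theorem psum_mul_unop (w w' : FreeGroup (Fin d)) (p : G × ℝ) :
    (psum s v (w * w')).unop p = (psum s v w').unop ((psum s v w).unop p) := by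
  rw [map_mul, MulOpposite.unop_mul, Equiv.Perm.mul_apply]

theorem psum_of_unop (i : Fin d) (p : G × ℝ) :
    (psum s v (FreeGroup.of i)).unop p = (p.1 * s i, p.2 + v (p.1, i)) := by
  unfold psum
  rw [FreeGroup.lift_apply_of, MulOpposite.unop_op]
  rfl

theorem psum_of_inv_unop (i : Fin d) (p : G × ℝ) :
    (psum s v (FreeGroup.of i)⁻¹).unop p =
      (p.1 * (s i)⁻¹, p.2 - v (p.1 * (s i)⁻¹, i)) := by
  unfold psum
  rw [map_inv, FreeGroup.lift_apply_of, MulOpposite.unop_inv, MulOpposite.unop_op]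
  rfl

theorem psum_apply (w : FreeGroup (Fin d)) (g : G) (t : ℝ) :
    (psum s v w).unop (g, t) = (g * FreeGroup.lift s w, t + pint s v g w) := by
  induction w using FreeGroup.induction_on generalizing g t with
  | C1 =>
    unfold pint
    rw [psum_one]
    simp
  | of i =>
    unfold pint
    rw [psum_of_unop, psum_of_unop, FreeGroup.lift_apply_of]
    simp
  | inv_of i _ =>
    unfold pint
    rw [psum_of_inv_unop, psum_of_inv_unop, map_inv, FreeGroup.lift_apply_of]
    simp [sub_eq_add_neg]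
  | mul x y hx hy =>
    have h1 : pint s v g (x * y) = pint s v g x + pint s v (g * FreeGroup.lift s x) y := by
      change ((psum s v (x * y)).unop (g, 0)).2 = _
      rw [psum_mul_unop, hx, hy, zero_add]
    rw [h1, psum_mul_unop, hx, hy, map_mul, mul_assoc, add_assoc]

theorem pint_one (g : G) : pint s v g 1 = 0 := by
  unfold pint
  rw [psum_one]
  rfl

theorem pint_of (g : G) (i : Fin d) : pint s v g (FreeGroup.of i) = v (g, i) := by
  unfold pint
  rw [psum_of_unop]
  exact zero_add _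

theorem pint_mul (g : G) (w w' : FreeGroup (Fin d)) :
    pint s v g (w * w') = pint s v g w + pint s v (g * FreeGroup.lift s w) w' := by
  change ((psum s v (w * w')).unop (g, 0)).2 = _
  rw [psum_mul_unop, psum_apply, psum_apply, zero_add]

theorem pint_inv (g : G) (w : FreeGroup (Fin d)) :
    pint s v g w⁻¹ = - pint s v (g * (FreeGroup.lift s w)⁻¹) w := by
  have h := pint_mul s v g w⁻¹ w
  rw [inv_mul_cancel, pint_one, map_inv] at h
  linarith

/-- the path sum of a gradient -/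
theorem pint_grad (f : G → ℝ) (hf : ∀ g i, v (g, i) = f (g * s i) - f g) (g : G)
    (w : FreeGroup (Fin d)) : pint s v g w = f (g * FreeGroup.lift s w) - f g := by
  induction w using FreeGroup.induction_on generalizing g with
  | C1 => rw [pint_one, map_one, mul_one, sub_self]
  | of i => rw [pint_of, hf, FreeGroup.lift_apply_of]
  | inv_of i h =>
    rw [pint_inv, h, inv_mul_cancel_right, map_inv]
    ring
  | mul x y hx hy =>
    rw [pint_mul, hx, hy, map_mul, mul_assoc]
    ring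

/-- it is enough to look at the relators -/
theorem pint_eq_zero_of_normalClosure (R : Set (FreeGroup (Fin d)))
    (hR : ∀ r ∈ R, FreeGroup.lift s r = 1) (h : ∀ r ∈ R, ∀ g, pint s v g r = 0)
    (r : FreeGroup (Fin d)) (hr : r ∈ Subgroup.normalClosure R) (g : G) : pint s v g r = 0 := by
  let N : Subgroup (FreeGroup (Fin d)) :=
    { carrier := {r | FreeGroup.lift s r = 1 ∧ ∀ g, pint s v g r = 0}
      one_mem' := ⟨map_one _, fun g => pint_one s v g⟩
      mul_mem' := by
        rintro x y ⟨hx, hx'⟩ ⟨hy, hy'⟩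
        exact ⟨by rw [map_mul, hx, hy, one_mul],
          fun g => by rw [pint_mul, hx', hy', add_zero]⟩
      inv_mem' := by
        rintro x ⟨hx, hx'⟩
        exact ⟨by rw [map_inv, hx, inv_one], fun g => by rw [pint_inv, hx', neg_zero]⟩ }
  have hN : N.Normal := by
    refine ⟨fun x hx y => ?_⟩
    obtain ⟨hx, hx'⟩ := hx
    refine ⟨by rw [map_mul, map_mul, hx, mul_one, ← map_mul, mul_inv_cancel, map_one],
      fun g => ?_⟩
    have h1 := pint_mul s v g y y⁻¹
    rw [mul_inv_cancel, pint_one] at h1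
    rw [pint_mul, pint_mul, hx', add_zero, map_mul, hx, mul_one]
    exact h1.symm
  have hle : Subgroup.normalClosure R ≤ N :=
    Subgroup.normalClosure_le_normal fun r hr => ⟨hR r hr, h r hr⟩
  exact (hle hr).2 g

/-- if the sums along closed paths vanish then `v` is a gradient -/
theorem exists_grad (hs : Function.Surjective (FreeGroup.lift s))
    (h : ∀ r, FreeGroup.lift s r = 1 → ∀ g, pint s v g r = 0) :
    ∃ f : G → ℝ, ∀ g i, v (g, i) = f (g * s i) - f g := by
  have hind : ∀ w w' : FreeGroup (Fin d), FreeGroup.lift s w = FreeGroup.lift s w' →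
      pint s v 1 w = pint s v 1 w' := by
    intro w w' hw
    have h1 := pint_mul s v 1 w (w⁻¹ * w')
    rw [mul_inv_cancel_left] at h1
    rw [h1, h (w⁻¹ * w') (by rw [map_mul, map_inv, hw, inv_mul_cancel]), add_zero]
  refine ⟨fun g => pint s v 1 (Function.surjInv hs g), fun g i => ?_⟩
  have h1 : pint s v 1 (Function.surjInv hs (g * s i)) =
      pint s v 1 (Function.surjInv hs g * FreeGroup.of i) := by
    apply hind
    rw [Function.surjInv_eq hs, map_mul, Function.surjInv_eq hs, FreeGroup.lift_apply_of]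
  change v (g, i) = pint s v 1 (Function.surjInv hs (g * s i)) - pint s v 1 (Function.surjInv hs g)
  rw [h1, pint_mul, Function.surjInv_eq hs, one_mul, pint_of]
  ring

/-- periodicity of the sums along powers -/
theorem pint_pow_shift (w : FreeGroup (Fin d)) (m : ℕ) (hw : (FreeGroup.lift s w) ^ m = 1)
    (g : G) : pint s v (g * FreeGroup.lift s w) (w ^ m) = pint s v g (w ^ m) := by
  have h1 := pint_mul s v g w (w ^ m)
  have h2 := pint_mul s v g (w ^ m) w
  rw [map_pow, hw, mul_one, ← pow_succ, pow_succ'] at h2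
  rw [h2] at h1
  linarith

/-- sums along powers of a generator -/
theorem pint_of_pow (g : G) (i : Fin d) (m : ℕ) :
    pint s v g (FreeGroup.of i ^ m) = ∑ k ∈ Finset.range m, v (g * s i ^ k, i) := by
  induction m with
  | zero => rw [pow_zero, pint_one, Finset.sum_range_zero]
  | succ m ih =>
    rw [pow_succ, pint_mul, ih, pint_of, map_pow, FreeGroup.lift_apply_of,
      Finset.sum_range_succ]

end MP42532b.L2
end
end

section

/-! # The trace on equivariant operators -/

noncomputable section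

namespace MP42532b.L2

open scoped InnerProductSpace

variable {G I J : Type*} [Group G] [Fintype I] [Fintype J]

theorem tr_add (A B : Hi G I →L[ℝ] Hi G I) : tr (A + B) = tr A + tr B := by
  unfold tr
  rw [← Finset.sum_add_distrib]
  refine Finset.sum_congr rfl fun i _ => ?_
  rw [add_apply, inner_add_left]

theorem tr_sub (A B : Hi G I →L[ℝ] Hi G I) : tr (A - B) = tr A - tr B := by
  unfold tr
  rw [← Finset.sum_sub_distrib]
  refine Finset.sum_congr rfl fun i _ => ?_
  rw [sub_apply, inner_sub_left]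

theorem tr_smul (c : ℝ) (A : Hi G I →L[ℝ] Hi G I) : tr (c • A) = c * tr A := by
  unfold tr
  rw [Finset.mul_sum]
  refine Finset.sum_congr rfl fun i _ => ?_
  rw [smul_apply, real_inner_smul_left]

theorem tr_one : tr (1 : Hi G I →L[ℝ] Hi G I) = Fintype.card I := by
  unfold tr
  have h : ∀ i : I, ⟪(1 : Hi G I →L[ℝ] Hi G I) (ee 1 i), ee 1 i⟫_ℝ = 1 := by
    intro i
    rw [one_apply_eq_self, real_inner_self_eq_norm_sq, norm_ee, one_pow]
  rw [Finset.sum_congr rfl fun i _ => h i]
  simp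

theorem vdim_eq_tr (W : Submodule ℝ (Hi G I)) :
    vdim W = tr W.topologicalClosure.starProjection := by
  unfold vdim tr
  refine Finset.sum_congr rfl fun i _ => ?_
  have h := W.topologicalClosure.starProjection_inner_eq_zero (ee 1 i)
    (W.topologicalClosure.starProjection (ee 1 i))
    (W.topologicalClosure.starProjection_apply_mem _)
  rw [inner_sub_left, sub_eq_zero] at h
  rw [real_inner_comm, h, real_inner_self_eq_norm_sq]

theorem tsum_prod_finite {G J : Type*} [Fintype J] (f : G × J → ℝ) (hf : Summable f) :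
    ∑' p, f p = ∑ j, ∑' g, f (g, j) := by
  have h2 : Summable (fun q : J × G => f (q.2, q.1)) := (Equiv.prodComm J G).summable_iff.2 hf
  have h3 : ∑' q : J × G, f (q.2, q.1) = ∑' p, f p := (Equiv.prodComm J G).tsum_eq f
  rw [← h3, h2.tsum_prod, tsum_fintype]

omit [Fintype I] [Fintype J] in
/-- one half of the computation of the trace of a product -/
theorem tr_comp_aux {A : Hi G I →L[ℝ] Hi G J} {B : Hi G J →L[ℝ] Hi G I}
    (hB : Equivar B) (i : I) :
    HasSum (fun p : G × J => (A (ee 1 i)) p * (B (ee 1 p.2)) (p.1⁻¹, i))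
      ⟪B (A (ee 1 i)), ee 1 i⟫_ℝ := by
  have h1 := lp.hasSum_inner (𝕜 := ℝ) (A (ee 1 i)) (ContinuousLinearMap.adjoint B (ee 1 i))
  rw [ContinuousLinearMap.adjoint_inner_right] at h1
  refine h1.congr_fun ?_
  rintro ⟨g, j⟩
  have h2 : (ContinuousLinearMap.adjoint B (ee 1 i)) (g, j) = (B (ee 1 j)) (g⁻¹, i) := by
    rw [← inner_ee_right, ContinuousLinearMap.adjoint_inner_left, hB.apply_ee, inner_ee_left,
      lam_apply, mul_one]
  change _ = ⟪(A (ee 1 i)) (g, j), (ContinuousLinearMap.adjoint B (ee 1 i)) (g, j)⟫_ℝ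
  rw [h2]
  simp [mul_comm]

/-- traciality -/
theorem tr_comm {A : Hi G I →L[ℝ] Hi G J} {B : Hi G J →L[ℝ] Hi G I} (hA : Equivar A)
    (hB : Equivar B) : tr (B ∘L A) = tr (A ∘L B) := by
  have key : ∀ (i : I), ⟪B (A (ee 1 i)), ee 1 i⟫_ℝ =
      ∑ j, ∑' g : G, (A (ee 1 i)) (g, j) * (B (ee 1 j)) (g⁻¹, i) := fun i => by
    have h1 := tr_comp_aux (A := A) hB i
    rw [← h1.tsum_eq, tsum_prod_finite _ h1.summable]
  have key' : ∀ (j : J), ⟪A (B (ee 1 j)), ee 1 j⟫_ℝ =
      ∑ i, ∑' g : G, (B (ee 1 j)) (g, i) * (A (ee 1 i)) (g⁻¹, j) := fun j => by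
    have h1 := tr_comp_aux (A := B) hA j
    rw [← h1.tsum_eq, tsum_prod_finite _ h1.summable]
  have e1 : tr (B ∘L A) = ∑ i, ∑ j, ∑' g : G, (A (ee 1 i)) (g, j) * (B (ee 1 j)) (g⁻¹, i) :=
    Finset.sum_congr rfl fun i _ => key i
  have e2 : tr (A ∘L B) = ∑ j, ∑ i, ∑' g : G, (B (ee 1 j)) (g, i) * (A (ee 1 i)) (g⁻¹, j) :=
    Finset.sum_congr rfl fun j _ => key' j
  rw [e1, e2, Finset.sum_comm]
  refine Finset.sum_congr rfl fun j _ => Finset.sum_congr rfl fun i _ => ?_
  have h3 : ∑' g : G, (A (ee 1 i)) (g⁻¹, j) * (B (ee 1 j)) (g⁻¹⁻¹, i) =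
      ∑' g : G, (A (ee 1 i)) (g, j) * (B (ee 1 j)) (g⁻¹, i) :=
    (Equiv.inv G).tsum_eq (fun g => (A (ee 1 i)) (g, j) * (B (ee 1 j)) (g⁻¹, i))
  rw [← h3]
  refine tsum_congr fun g => ?_
  rw [inv_inv, mul_comm]

end MP42532b.L2
end
end

section

/-! # The operators `(D_w v) g = sum of v along the path w from g` -/

noncomputable section

namespace MP42532b.L2

variable {G : Type*} [Group G] {d : ℕ}

omit [Group G] in
private lemma coord_mem (i : Fin d) (v : Hi G (Fin d)) :
    Memℓp (fun p : G × Unit => v (p.1, i)) 2 := by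
  have h := lp.memℓp v
  rw [memℓp_gen_iff (by norm_num)] at h ⊢
  have hinj : Function.Injective (fun p : G × Unit => ((p.1, i) : G × Fin d)) := by
    rintro ⟨a, _⟩ ⟨b, _⟩ hab
    have := (Prod.mk.inj hab).1
    change a = b at this
    rw [this]
  exact h.comp_injective hinj

/-- the `i`-th coordinate `(κ v) g = v (g, i)` -/
theorem exists_coordOp (G : Type*) [Group G] {d : ℕ} (i : Fin d) :
    ∃ D : Hi G (Fin d) →L[ℝ] Hi G Unit, Equivar D ∧ ∀ v g, D v (g, ()) = v (g, i) := by
  let L : Hi G (Fin d) →ₗ[ℝ] Hi G Unit :=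
    { toFun := fun v => ⟨fun p => v (p.1, i), coord_mem i v⟩
      map_add' := fun u v => by ext p; rfl
      map_smul' := fun c v => by ext p; rfl }
  have hb : ∀ v, ‖L v‖ ≤ 1 * ‖v‖ := by
    intro v
    rw [one_mul]
    have hinj : Function.Injective (fun p : G × Unit => ((p.1, i) : G × Fin d)) := by
      rintro ⟨a, _⟩ ⟨b, _⟩ hab
      have := (Prod.mk.inj hab).1
      change a = b at this
      rw [this]
    have hs : Summable fun p : G × Fin d => ‖v p‖ ^ ENNReal.toReal 2 := by
      have h := lp.memℓp v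
      rwa [memℓp_gen_iff (by norm_num)] at h
    rw [lp.norm_eq_tsum_rpow (by norm_num), lp.norm_eq_tsum_rpow (by norm_num)]
    refine Real.rpow_le_rpow (tsum_nonneg fun p => by positivity) ?_ (by positivity)
    exact tsum_comp_le_tsum_of_inj hs (fun p => by positivity) hinj
  refine ⟨L.mkContinuous 1 hb, fun g v => ?_, fun v g => rfl⟩
  ext p
  rfl

/-- the inclusion of the `i`-th coordinate -/
theorem exists_inclOp (G : Type*) [Group G] {d : ℕ} (i : Fin d) :
    ∃ D : Hi G Unit →L[ℝ] Hi G (Fin d), Equivar D ∧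
      ∀ u g j, D u (g, j) = if j = i then u (g, ()) else 0 := by
  obtain ⟨D, hD, hD2⟩ := exists_coordOp G i
  refine ⟨ContinuousLinearMap.adjoint D, hD.adjoint, fun u g j => ?_⟩
  rw [← inner_ee_right, ContinuousLinearMap.adjoint_inner_left]
  have h1 : D (ee g j) = if j = i then ee g () else 0 := by
    ext ⟨h, _⟩
    rw [hD2]
    split_ifs with hj
    · subst hj
      by_cases hh : h = g
      · subst hh
        rw [ee_apply_self, ee_apply_self]
      · rw [ee_apply_ne _ _ _ (fun h1 => hh (Prod.mk.inj h1).1),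
          ee_apply_ne _ _ _ (fun h1 => hh (Prod.mk.inj h1).1)]
    · rw [ee_apply_ne _ _ _ (fun h1 => hj (Prod.mk.inj h1).2.symm)]
      rfl
  rw [h1]
  split_ifs with hj
  · exact inner_ee_right u g ()
  · exact inner_zero_right u

theorem equivar_rsh (h : G) :
    Equivar ((rsh h : Hi G Unit ≃ₗᵢ[ℝ] Hi G Unit) : Hi G Unit →L[ℝ] Hi G Unit) := by
  intro g v
  ext ⟨k, _⟩
  change (rsh h (lam g v)) (k, ()) = (lam g (rsh h v)) (k, ())
  rw [rsh_apply, lam_apply, lam_apply, rsh_apply, mul_assoc]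

/-- the path operators -/
theorem exists_pathOp (s : Fin d → G) (w : FreeGroup (Fin d)) :
    ∃ D : Hi G (Fin d) →L[ℝ] Hi G Unit, Equivar D ∧ ∀ v g, D v (g, ()) = pint s v g w := by
  induction w using FreeGroup.induction_on with
  | C1 =>
    refine ⟨0, Equivar.zero, fun v g => ?_⟩
    rw [pint_one]
    rfl
  | of i =>
    obtain ⟨D, hD, hD2⟩ := exists_coordOp G i
    exact ⟨D, hD, fun v g => by rw [hD2, pint_of]⟩
  | inv_of i _ =>
    obtain ⟨D, hD, hD2⟩ := exists_coordOp G i
    refine ⟨-(((rsh (s i)⁻¹ : Hi G Unit ≃ₗᵢ[ℝ] Hi G Unit) : Hi G Unit →L[ℝ] Hi G Unit) ∘L D),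
      ((equivar_rsh _).comp hD).neg, fun v g => ?_⟩
    rw [pint_inv, pint_of, FreeGroup.lift_apply_of]
    change -((rsh (s i)⁻¹ (D v)) (g, ())) = _
    rw [rsh_apply, hD2]
  | mul x y hx hy =>
    obtain ⟨D, hD, hD2⟩ := hx
    obtain ⟨D', hD', hD2'⟩ := hy
    refine ⟨D + ((rsh (FreeGroup.lift s x) : Hi G Unit ≃ₗᵢ[ℝ] Hi G Unit) :
      Hi G Unit →L[ℝ] Hi G Unit) ∘L D', hD.add ((equivar_rsh _).comp hD'), fun v g => ?_⟩
    rw [pint_mul]
    change D v (g, ()) + (rsh (FreeGroup.lift s x) (D' v)) (g, ()) = _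
    rw [rsh_apply, hD2, hD2']

omit [Group G] in
private lemma sum_coe {J : Type*} {κ : Type*} (S : Finset κ) (f : κ → Hi G J) (p : G × J) :
    (∑ k ∈ S, f k : Hi G J) p = ∑ k ∈ S, f k p := by
  classical
  induction S using Finset.induction_on with
  | empty => simp
  | insert a S ha ih => rw [Finset.sum_insert ha, Finset.sum_insert ha, ← ih]; rfl

private lemma equivar_sum {I J : Type*} {κ : Type*} (S : Finset κ)
    (f : κ → (Hi G I →L[ℝ] Hi G J)) (hf : ∀ k, Equivar (f k)) : Equivar (∑ k ∈ S, f k) := by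
  classical
  induction S using Finset.induction_on with
  | empty => rw [Finset.sum_empty]; exact Equivar.zero
  | insert a S ha ih => rw [Finset.sum_insert ha]; exact (hf a).add ih

private lemma assemble {I : Type*} {e : ℕ} (D : Fin e → (Hi G I →L[ℝ] Hi G Unit))
    (hD : ∀ j, Equivar (D j)) : ∃ A : Hi G I →L[ℝ] Hi G (Fin e), Equivar A ∧
      ∀ v g j, A v (g, j) = D j v (g, ()) := by
  classical
  choose C hC hC2 using fun j : Fin e => exists_inclOp G j
  refine ⟨∑ j, (C j) ∘L (D j), equivar_sum _ _ fun j => (hC j).comp (hD j), fun v g j => ?_⟩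
  rw [_root_.sum_apply, sum_coe]
  have h1 : ∀ k, ((C k) ∘L (D k)) v (g, j) = if j = k then D k v (g, ()) else 0 := fun k => by
    rw [ContinuousLinearMap.comp_apply, hC2]
  simp_rw [h1]
  rw [Finset.sum_ite_eq Finset.univ j]
  simp

/-- the gradient operator -/
theorem exists_gradOp (s : Fin d → G) :
    ∃ A : Hi G Unit →L[ℝ] Hi G (Fin d), Equivar A ∧ IsGradOp s A := by
  obtain ⟨A, hA, hA2⟩ := assemble (fun i : Fin d => ((rsh (s i) : Hi G Unit ≃ₗᵢ[ℝ] Hi G Unit) :
      Hi G Unit →L[ℝ] Hi G Unit) - 1) (fun i => (equivar_rsh _).sub Equivar.one)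
  refine ⟨A, hA, fun u g i => ?_⟩
  rw [hA2]
  change (rsh (s i) u) (g, ()) - u (g, ()) = _
  rw [rsh_apply]

/-- a tuple of path operators -/
theorem exists_pathOps {e : ℕ} (s : Fin d → G) (w : Fin e → FreeGroup (Fin d)) :
    ∃ D : Hi G (Fin d) →L[ℝ] Hi G (Fin e), Equivar D ∧
      ∀ v g j, D v (g, j) = pint s v g (w j) := by
  choose D hD hD2 using fun j => exists_pathOp s (w j)
  obtain ⟨A, hA, hA2⟩ := assemble D hD
  exact ⟨A, hA, fun v g j => by rw [hA2, hD2]⟩

end MP42532b.L2
end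
end

section

/-! # Rank and nullity of an equivariant operator -/

noncomputable section

namespace MP42532b.L2

open scoped InnerProductSpace

variable {G I J : Type*} [Group G] [Fintype I] [Fintype J]

/-- algebra: the powers of `1 - c A* A` and of `1 - c A A*` -/
theorem exists_pow_eq {A : Hi G I →L[ℝ] Hi G J} (hA : Equivar A) (c : ℝ) (k : ℕ) :
    ∃ Q : Hi G J →L[ℝ] Hi G J, Equivar Q ∧
      (1 - c • (ContinuousLinearMap.adjoint A ∘L A)) ^ k =
        1 - ContinuousLinearMap.adjoint A ∘L Q ∘L A ∧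
      (1 - c • (A ∘L ContinuousLinearMap.adjoint A)) ^ k =
        1 - A ∘L ContinuousLinearMap.adjoint A ∘L Q := by
  induction k with
  | zero =>
    refine ⟨0, Equivar.zero, ?_, ?_⟩
    · rw [pow_zero, ContinuousLinearMap.zero_comp, ContinuousLinearMap.comp_zero, sub_zero]
    · rw [pow_zero, ContinuousLinearMap.comp_zero, ContinuousLinearMap.comp_zero, sub_zero]
  | succ k ih =>
    obtain ⟨Q, hQ, h1, h2⟩ := ih
    refine ⟨Q + c • (1 : Hi G J →L[ℝ] Hi G J) -
      c • (Q ∘L (A ∘L ContinuousLinearMap.adjoint A)), ?_, ?_, ?_⟩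
    · exact (hQ.add (Equivar.one.smul c)).sub ((hQ.comp (hA.comp hA.adjoint)).smul c)
    · rw [pow_succ, h1]
      refine ContinuousLinearMap.ext fun v => ?_
      simp only [mul_apply_eq_comp, sub_apply,
        add_apply, one_apply_eq_self,
        ContinuousLinearMap.comp_apply, smul_apply, map_sub, map_add, map_smul]
      module
    · rw [pow_succ, h2]
      refine ContinuousLinearMap.ext fun v => ?_
      simp only [mul_apply_eq_comp, sub_apply,
        add_apply, one_apply_eq_self,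
        ContinuousLinearMap.comp_apply, smul_apply, map_sub, map_add, map_smul]
      module

lemma rk_adj_self (A : Hi G I →L[ℝ] Hi G J) (v : Hi G I) :
    ⟪ContinuousLinearMap.adjoint A (A v), v⟫_ℝ = ‖A v‖ ^ 2 := by
  rw [ContinuousLinearMap.adjoint_inner_left, real_inner_self_eq_norm_sq]

lemma rk_norm_le (A : Hi G I →L[ℝ] Hi G J) (c : ℝ) (hc : 0 < c) (hc' : c * ‖A‖ ^ 2 ≤ 1) :
    ‖1 - c • (ContinuousLinearMap.adjoint A ∘L A)‖ ≤ 1 := by
  refine ContinuousLinearMap.opNorm_le_bound _ zero_le_one fun v => ?_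
  rw [one_mul]
  have h1 : (1 - c • (ContinuousLinearMap.adjoint A ∘L A)) v =
      v - c • ContinuousLinearMap.adjoint A (A v) := rfl
  rw [h1]
  refine le_of_sq_le_sq ?_ (norm_nonneg _)
  rw [norm_sub_sq_real, real_inner_smul_right, real_inner_comm, rk_adj_self, norm_smul, mul_pow,
    Real.norm_eq_abs, sq_abs]
  have h2 : ‖ContinuousLinearMap.adjoint A (A v)‖ ≤ ‖A‖ * ‖A v‖ := by
    have := (ContinuousLinearMap.adjoint A).le_opNorm (A v)
    rwa [LinearIsometryEquiv.norm_map] at this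
  have h3 : ‖ContinuousLinearMap.adjoint A (A v)‖ ^ 2 ≤ ‖A‖ ^ 2 * ‖A v‖ ^ 2 := by
    rw [← mul_pow]
    exact pow_le_pow_left₀ (norm_nonneg _) h2 2
  have h4 : c ^ 2 * ‖ContinuousLinearMap.adjoint A (A v)‖ ^ 2 ≤ c * ‖A v‖ ^ 2 := by
    calc c ^ 2 * ‖ContinuousLinearMap.adjoint A (A v)‖ ^ 2
        ≤ c ^ 2 * (‖A‖ ^ 2 * ‖A v‖ ^ 2) := mul_le_mul_of_nonneg_left h3 (by positivity)
      _ = (c * ‖A‖ ^ 2) * (c * ‖A v‖ ^ 2) := by ring
      _ ≤ 1 * (c * ‖A v‖ ^ 2) := mul_le_mul_of_nonneg_right hc' (by positivity)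
      _ = c * ‖A v‖ ^ 2 := one_mul _
  have h5 : 0 ≤ c * ‖A v‖ ^ 2 := by positivity
  linarith

lemma rk_starProjection_congr {E : Type*} [NormedAddCommGroup E] [InnerProductSpace ℝ E]
    {S T : Submodule ℝ E} [S.HasOrthogonalProjection] [T.HasOrthogonalProjection] (h : S = T) :
    S.starProjection = T.starProjection := by
  subst h
  rfl

lemma rk_ker_closure (A : Hi G I →L[ℝ] Hi G J) :
    (A : Hi G I →ₗ[ℝ] Hi G J).ker.topologicalClosure = (A : Hi G I →ₗ[ℝ] Hi G J).ker :=
  (ContinuousLinearMap.isClosed_ker A).submodule_topologicalClosure_eq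

/-- the mean ergodic theorem for `1 - c A* A` -/
theorem tendsto_tr_ker (A : Hi G I →L[ℝ] Hi G J) (c : ℝ) (hc : 0 < c)
    (hc' : c * ‖A‖ ^ 2 ≤ 1) :
    Filter.Tendsto (fun N : ℕ => (N : ℝ)⁻¹ * ∑ k ∈ Finset.range N,
      tr ((1 - c • (ContinuousLinearMap.adjoint A ∘L A)) ^ k)) Filter.atTop
      (nhds (vdim (A : Hi G I →ₗ[ℝ] Hi G J).ker)) := by
  set K : Hi G I →L[ℝ] Hi G I := 1 - c • (ContinuousLinearMap.adjoint A ∘L A) with hK
  have hKn : ‖K‖ ≤ 1 := rk_norm_le A c hc hc'
  have hfix : K.eqLocus (1 : Hi G I →L[ℝ] Hi G I) =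
      (A : Hi G I →ₗ[ℝ] Hi G J).ker.topologicalClosure := by
    rw [rk_ker_closure]
    ext v
    have h1 : v ∈ K.eqLocus (1 : Hi G I →L[ℝ] Hi G I) ↔ K v = v := Iff.rfl
    have h2 : v ∈ (A : Hi G I →ₗ[ℝ] Hi G J).ker ↔ A v = 0 := Iff.rfl
    have h3 : K v = v - c • ContinuousLinearMap.adjoint A (A v) := rfl
    rw [h1, h2, h3]
    constructor
    · intro h
      have h4 : c • ContinuousLinearMap.adjoint A (A v) = 0 := by
        have := sub_eq_self.1 h
        exact this
      have h5 : ContinuousLinearMap.adjoint A (A v) = 0 := by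
        rcases smul_eq_zero.1 h4 with h6 | h6
        · exact absurd h6 hc.ne'
        · exact h6
      have h7 := rk_adj_self A v
      rw [h5, inner_zero_left] at h7
      have h8 : ‖A v‖ = 0 := by
        have := h7.symm
        exact pow_eq_zero_iff (two_ne_zero) |>.1 this
      exact norm_eq_zero.1 h8
    · intro h
      rw [h, map_zero, smul_zero, sub_zero]
  have hlim : ∀ i : I, Filter.Tendsto (fun N : ℕ => (N : ℝ)⁻¹ * ∑ k ∈ Finset.range N,
      ⟪(K ^ k) (ee 1 i), ee 1 i⟫_ℝ) Filter.atTop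
      (nhds (‖(A : Hi G I →ₗ[ℝ] Hi G J).ker.topologicalClosure.starProjection (ee 1 i)‖ ^ 2)) := by
    intro i
    have h1 := K.tendsto_birkhoffAverage_orthogonalProjection hKn (ee 1 i)
    have h2 := Filter.Tendsto.inner (𝕜 := ℝ) h1 (tendsto_const_nhds (x := (ee 1 i : Hi G I)))
    have e1 : ∀ N : ℕ, ⟪birkhoffAverage ℝ K _root_.id N (ee 1 i), (ee 1 i : Hi G I)⟫_ℝ =
        (N : ℝ)⁻¹ * ∑ k ∈ Finset.range N, ⟪(K ^ k) (ee 1 i), ee 1 i⟫_ℝ := by
      intro N
      rw [birkhoffAverage, birkhoffSum, real_inner_smul_left, sum_inner]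
      congr 1
      refine Finset.sum_congr rfl fun k _ => ?_
      rw [ContinuousLinearMap.coe_pow']
      rfl
    have e2 : ⟪((K.eqLocus (1 : Hi G I →L[ℝ] Hi G I)).orthogonalProjectionOnto (ee 1 i) :
        Hi G I), (ee 1 i : Hi G I)⟫_ℝ =
        ‖(A : Hi G I →ₗ[ℝ] Hi G J).ker.topologicalClosure.starProjection (ee 1 i)‖ ^ 2 := by
      rw [← rk_starProjection_congr hfix]
      exact (K.eqLocus (1 : Hi G I →L[ℝ] Hi G I)).re_inner_starProjection_eq_normSq (ee 1 i)
    simp only [e1] at h2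
    rw [e2] at h2
    exact h2
  have h3 := tendsto_finsetSum (Finset.univ : Finset I) fun i _ => hlim i
  refine Filter.Tendsto.congr (fun N => ?_) h3
  rw [← Finset.mul_sum, Finset.sum_comm]
  rfl

/-- `|I| - dim ker A = |J| - dim ker A*` -/
theorem card_sub_vdim_ker {A : Hi G I →L[ℝ] Hi G J} (hA : Equivar A) :
    (Fintype.card I : ℝ) - vdim (A : Hi G I →ₗ[ℝ] Hi G J).ker =
      Fintype.card J -
        vdim (ContinuousLinearMap.adjoint A : Hi G J →ₗ[ℝ] Hi G I).ker := by
  set c : ℝ := 1 / (1 + ‖A‖ ^ 2) with hcdef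
  have hpos : 0 < 1 + ‖A‖ ^ 2 := by positivity
  have hc : 0 < c := by positivity
  have hc' : c * ‖A‖ ^ 2 ≤ 1 := by
    rw [hcdef, div_mul_eq_mul_div, one_mul, div_le_one hpos]
    linarith
  have hc'' : c * ‖ContinuousLinearMap.adjoint A‖ ^ 2 ≤ 1 := by
    rwa [LinearIsometryEquiv.norm_map]
  have h1 := tendsto_tr_ker A c hc hc'
  have h2 := tendsto_tr_ker (ContinuousLinearMap.adjoint A) c hc hc''
  rw [ContinuousLinearMap.adjoint_adjoint] at h2
  have hk : ∀ k : ℕ, (Fintype.card I : ℝ) -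
      tr ((1 - c • (ContinuousLinearMap.adjoint A ∘L A)) ^ k) = Fintype.card J -
      tr ((1 - c • (A ∘L ContinuousLinearMap.adjoint A)) ^ k) := by
    intro k
    obtain ⟨Q, hQ, e1, e2⟩ := exists_pow_eq hA c k
    rw [e1, e2, tr_sub, tr_sub, tr_one, tr_one]
    have e3 : tr (ContinuousLinearMap.adjoint A ∘L Q ∘L A) =
        tr ((Q ∘L A) ∘L ContinuousLinearMap.adjoint A) := tr_comm (hQ.comp hA) hA.adjoint
    have e4 : tr (Q ∘L (A ∘L ContinuousLinearMap.adjoint A)) =
        tr ((A ∘L ContinuousLinearMap.adjoint A) ∘L Q) := tr_comm (hA.comp hA.adjoint) hQ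
    have e5 : (Q ∘L A) ∘L ContinuousLinearMap.adjoint A =
        Q ∘L (A ∘L ContinuousLinearMap.adjoint A) := rfl
    have e6 : A ∘L ContinuousLinearMap.adjoint A ∘L Q =
        (A ∘L ContinuousLinearMap.adjoint A) ∘L Q := rfl
    rw [e3, e5, e4, ← e6]
    ring
  have h3 := h1.const_sub (Fintype.card I : ℝ)
  have h4 := h2.const_sub (Fintype.card J : ℝ)
  refine tendsto_nhds_unique_of_eventuallyEq h3 h4 ?_
  filter_upwards [Filter.eventually_ge_atTop 1] with N hN
  have hN0 : (N : ℝ) ≠ 0 := by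
    have : 0 < N := hN
    positivity
  have h5 := Finset.sum_congr (rfl : Finset.range N = Finset.range N) fun k _ => hk k
  rw [Finset.sum_sub_distrib, Finset.sum_sub_distrib, Finset.sum_const, Finset.sum_const,
    Finset.card_range, nsmul_eq_mul, nsmul_eq_mul] at h5
  have h6 := congrArg (fun x => (N : ℝ)⁻¹ * x) h5
  simp only [mul_sub, inv_mul_cancel_left₀ hN0] at h6
  exact h6

end MP42532b.L2
end
end

section

/-! # Von Neumann dimension -/

noncomputable section

namespace MP42532b.L2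

open scoped InnerProductSpace

variable {G I J : Type*} [Group G] [Fintype I] [Fintype J]

theorem vdim_nonneg (W : Submodule ℝ (Hi G I)) : 0 ≤ vdim W :=
  Finset.sum_nonneg fun _ _ => sq_nonneg _

theorem starProjection_congr {E : Type*} [NormedAddCommGroup E] [InnerProductSpace ℝ E]
    {K₁ K₂ : Submodule ℝ E} [K₁.HasOrthogonalProjection] [K₂.HasOrthogonalProjection]
    (h : K₁ = K₂) (v : E) : K₁.starProjection v = K₂.starProjection v := by
  subst h
  rfl

theorem vdim_congr {U W : Submodule ℝ (Hi G I)}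
    (h : U.topologicalClosure = W.topologicalClosure) : vdim U = vdim W := by
  unfold vdim
  refine Finset.sum_congr rfl fun i _ => ?_
  rw [starProjection_congr h]

theorem vdim_closure (W : Submodule ℝ (Hi G I)) : vdim W.topologicalClosure = vdim W :=
  vdim_congr W.isClosed_topologicalClosure.submodule_topologicalClosure_eq

theorem vdim_eq_of_closed {W : Submodule ℝ (Hi G I)} [W.HasOrthogonalProjection]
    (hW : IsClosed (W : Set (Hi G I))) : vdim W = ∑ i, ‖W.starProjection (ee 1 i)‖ ^ 2 := by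
  unfold vdim
  refine Finset.sum_congr rfl fun i _ => ?_
  rw [starProjection_congr hW.submodule_topologicalClosure_eq]

theorem vdim_bot : vdim (⊥ : Submodule ℝ (Hi G I)) = 0 := by
  rw [vdim_eq_of_closed (by simp)]
  refine Finset.sum_eq_zero fun i _ => ?_
  rw [Submodule.starProjection_bot]
  simp

theorem vdim_mono {U W : Submodule ℝ (Hi G I)} (h : U ≤ W) : vdim U ≤ vdim W := by
  unfold vdim
  refine Finset.sum_le_sum fun i _ => ?_
  have h1 : U.topologicalClosure.starProjection (ee 1 i) =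
      U.topologicalClosure.starProjection (W.topologicalClosure.starProjection (ee 1 i)) := by
    have := Submodule.starProjection_comp_starProjection_of_le
      (Submodule.topologicalClosure_mono h)
    rw [← ContinuousLinearMap.comp_apply, this]
  rw [h1]
  have h2 := Submodule.norm_starProjection_apply_le U.topologicalClosure
    (W.topologicalClosure.starProjection (ee 1 i))
  exact pow_le_pow_left₀ (norm_nonneg _) h2 2

theorem vdim_orth (W : Submodule ℝ (Hi G I)) : vdim W + vdim Wᗮ = Fintype.card I := by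
  have h0 : Wᗮ = W.topologicalClosureᗮ := (Submodule.orthogonal_closure W).symm
  rw [h0, vdim_eq_of_closed (W := W.topologicalClosureᗮ) (Submodule.isClosed_orthogonal _)]
  unfold vdim
  rw [← Finset.sum_add_distrib]
  have h1 : ∀ i : I, ‖W.topologicalClosure.starProjection (ee 1 i)‖ ^ 2 +
      ‖(W.topologicalClosureᗮ).starProjection (ee 1 i)‖ ^ 2 = 1 := by
    intro i
    rw [← Submodule.norm_sq_eq_add_norm_sq_starProjection, norm_ee, one_pow]
  rw [Finset.sum_congr rfl fun i _ => h1 i]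
  simp

/-- additivity -/
theorem vdim_of_le {U W : Submodule ℝ (Hi G I)} (h : U ≤ W) (hW : IsClosed (W : Set (Hi G I))) :
    vdim W = vdim U + vdim (W ⊓ Uᗮ) := by
  have hWc : W.topologicalClosure = W := hW.submodule_topologicalClosure_eq
  have hUW : U.topologicalClosure ≤ W := by
    rw [← hWc]
    exact Submodule.topologicalClosure_mono h
  have hUo : Uᗮ = U.topologicalClosureᗮ := (Submodule.orthogonal_closure U).symm
  have hclosed : IsClosed ((W ⊓ Uᗮ : Submodule ℝ (Hi G I)) : Set (Hi G I)) :=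
    hW.inter (Submodule.isClosed_orthogonal U)
  have hcc : (W ⊓ Uᗮ).topologicalClosure = W ⊓ Uᗮ := hclosed.submodule_topologicalClosure_eq
  unfold vdim
  rw [← Finset.sum_add_distrib]
  refine Finset.sum_congr rfl fun i _ => ?_
  set x : Hi G I := W.topologicalClosure.starProjection (ee 1 i) with hx
  have hxW : x ∈ W := by
    rw [← hWc]
    exact Submodule.starProjection_apply_mem _ _
  have h1 : U.topologicalClosure.starProjection (ee 1 i) =
      U.topologicalClosure.starProjection x := by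
    have := Submodule.starProjection_comp_starProjection_of_le
      (Submodule.topologicalClosure_mono h)
    rw [hx, ← ContinuousLinearMap.comp_apply, this]
  have h2 : (W ⊓ Uᗮ).topologicalClosure.starProjection (ee 1 i) =
      (U.topologicalClosureᗮ).starProjection x := by
    have h3 : (U.topologicalClosureᗮ).starProjection x =
        x - U.topologicalClosure.starProjection x := by
      have := Submodule.starProjection_add_starProjection_orthogonal (K := U.topologicalClosure) x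
      exact eq_sub_of_add_eq' this
    refine Submodule.eq_starProjection_of_mem_of_inner_eq_zero ?_ ?_
    · rw [hcc]
      refine ⟨?_, ?_⟩
      · rw [h3]
        exact W.sub_mem hxW (hUW (Submodule.starProjection_apply_mem _ _))
      · rw [hUo]
        exact Submodule.starProjection_apply_mem _ _
    · intro w hw
      rw [hcc] at hw
      have h4 : ee 1 i - (U.topologicalClosureᗮ).starProjection x =
          (ee 1 i - x) + U.topologicalClosure.starProjection x := by
        rw [h3]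
        abel
      rw [h4, inner_add_left]
      have h5 : ⟪ee 1 i - x, w⟫_ℝ = 0 :=
        Submodule.starProjection_inner_eq_zero _ w (by rw [hWc]; exact hw.1)
      have h6 : ⟪U.topologicalClosure.starProjection x, w⟫_ℝ = 0 := by
        have h7 : w ∈ U.topologicalClosureᗮ := hUo ▸ hw.2
        rw [Submodule.mem_orthogonal] at h7
        exact h7 _ (Submodule.starProjection_apply_mem _ _)
      rw [h5, h6, add_zero]
  rw [h1, h2]
  exact Submodule.norm_sq_eq_add_norm_sq_starProjection x U.topologicalClosure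

/-- rank and nullity -/
theorem rank_nullity {A : Hi G I →L[ℝ] Hi G J} (hA : Equivar A) :
    vdim (A : Hi G I →ₗ[ℝ] Hi G J).kerᗮ = vdim (A : Hi G I →ₗ[ℝ] Hi G J).range := by
  have h1 := vdim_orth (A : Hi G I →ₗ[ℝ] Hi G J).ker
  have h2 := vdim_orth (A : Hi G I →ₗ[ℝ] Hi G J).range
  have h3 := card_sub_vdim_ker hA
  have h4 : (A : Hi G I →ₗ[ℝ] Hi G J).rangeᗮ =
      (ContinuousLinearMap.adjoint A : Hi G J →ₗ[ℝ] Hi G I).ker :=
    ContinuousLinearMap.orthogonal_range A
  rw [h4] at h2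
  linarith

/-- dimension is monotone under injective equivariant maps -/
theorem vdim_le_of_injOn {A : Hi G I →L[ℝ] Hi G J} (hA : Equivar A)
    {U : Submodule ℝ (Hi G I)} {W : Submodule ℝ (Hi G J)} (hU : Invar U)
    (hUc : IsClosed (U : Set (Hi G I))) (hinj : ∀ u ∈ U, A u = 0 → u = 0)
    (hmap : ∀ u ∈ U, A u ∈ W) : vdim U ≤ vdim W := by
  have hcc : U.topologicalClosure = U := hUc.submodule_topologicalClosure_eq
  have hB : Equivar (A ∘L U.topologicalClosure.starProjection) :=
    hA.comp hU.closure.starProjection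
  have h1 := rank_nullity hB
  have hmem : ∀ v : Hi G I, U.topologicalClosure.starProjection v ∈ U := by
    intro v
    exact hcc.le (Submodule.starProjection_apply_mem U.topologicalClosure v)
  have h2 : ((A ∘L U.topologicalClosure.starProjection : Hi G I →L[ℝ] Hi G J) :
      Hi G I →ₗ[ℝ] Hi G J).kerᗮ = U.topologicalClosure := by
    have h3 : ((A ∘L U.topologicalClosure.starProjection : Hi G I →L[ℝ] Hi G J) :
      Hi G I →ₗ[ℝ] Hi G J).ker = U.topologicalClosureᗮ := by
      ext v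
      rw [LinearMap.mem_ker, ← Submodule.starProjection_apply_eq_zero_iff]
      constructor
      · intro hv
        exact hinj _ (hmem v) hv
      · intro hv
        change A (U.topologicalClosure.starProjection v) = 0
        rw [hv, map_zero]
    rw [h3, Submodule.orthogonal_orthogonal]
  rw [h2, vdim_closure] at h1
  rw [h1]
  refine vdim_mono ?_
  rintro _ ⟨v, rfl⟩
  exact hmap _ (hmem v)

/-- `P_{Uᗮ} P_W` : `dim (U + W) = dim U + dim closure (P_{Uᗮ} W) ≤ dim U + dim W` -/
theorem vdim_sup_le {U W : Submodule ℝ (Hi G I)} (hU : Invar U) (hW : Invar W) :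
    vdim (U ⊔ W) ≤ vdim U + vdim W := by
  have hUc : Invar U.topologicalClosureᗮ := hU.closure.orthogonal
  set T : Hi G I →L[ℝ] Hi G I :=
    (U.topologicalClosureᗮ).starProjection ∘L W.topologicalClosure.starProjection with hT
  have hTe : Equivar T := hUc.starProjection.comp hW.closure.starProjection
  have h1 := rank_nullity hTe
  have hUo : Uᗮ = U.topologicalClosureᗮ := (Submodule.orthogonal_closure U).symm
  have h2 : vdim (T : Hi G I →ₗ[ℝ] Hi G I).kerᗮ ≤ vdim W := by
    rw [← vdim_closure W]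
    refine vdim_mono ?_
    rw [← Submodule.orthogonal_orthogonal W.topologicalClosure]
    refine Submodule.orthogonal_le ?_
    intro v hv
    rw [LinearMap.mem_ker]
    change (U.topologicalClosureᗮ).starProjection (W.topologicalClosure.starProjection v) = 0
    rw [(Submodule.starProjection_apply_eq_zero_iff W.topologicalClosure).2 hv, map_zero]
  have h3 : (U ⊔ W).topologicalClosure ⊓ Uᗮ ≤
      (T : Hi G I →ₗ[ℝ] Hi G I).range.topologicalClosure := by
    intro v hv
    have h4 : (U ⊔ W).topologicalClosure ≤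
        Submodule.comap ((U.topologicalClosureᗮ).starProjection : Hi G I →ₗ[ℝ] Hi G I)
          (T : Hi G I →ₗ[ℝ] Hi G I).range.topologicalClosure := by
      refine Submodule.topologicalClosure_minimal _ ?_ ?_
      · refine sup_le ?_ ?_
        · intro u hu
          rw [Submodule.mem_comap]
          have h5 : (U.topologicalClosureᗮ).starProjection u = 0 := by
            rw [Submodule.starProjection_apply_eq_zero_iff]
            rw [Submodule.orthogonal_orthogonal]
            exact Submodule.le_topologicalClosure _ hu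
          change (U.topologicalClosureᗮ).starProjection u ∈ _
          rw [h5]
          exact Submodule.zero_mem _
        · intro w hw
          rw [Submodule.mem_comap]
          refine Submodule.le_topologicalClosure _ ⟨w, ?_⟩
          change (U.topologicalClosureᗮ).starProjection
            (W.topologicalClosure.starProjection w) = (U.topologicalClosureᗮ).starProjection w
          rw [(Submodule.starProjection_eq_self_iff).2 (Submodule.le_topologicalClosure _ hw)]
      · exact (Submodule.isClosed_topologicalClosure _).preimage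
          (U.topologicalClosureᗮ).starProjection.continuous
    have h6 := h4 hv.1
    rw [Submodule.mem_comap] at h6
    change (U.topologicalClosureᗮ).starProjection v ∈ _ at h6
    rwa [(Submodule.starProjection_eq_self_iff).2 (by rw [← hUo]; exact hv.2)] at h6
  have h7 : vdim (U ⊔ W) = vdim U + vdim ((U ⊔ W).topologicalClosure ⊓ Uᗮ) := by
    rw [← vdim_closure (U ⊔ W)]
    exact vdim_of_le (le_sup_left.trans (Submodule.le_topologicalClosure _))
      (Submodule.isClosed_topologicalClosure _)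
  have h8 := vdim_mono h3
  rw [vdim_closure] at h8
  linarith

theorem Invar.biSup {κ : Type*} (W : κ → Submodule ℝ (Hi G I)) (hW : ∀ k, Invar (W k))
    (F : Finset κ) : Invar (⨆ k ∈ F, W k) ∧ vdim (⨆ k ∈ F, W k) ≤ ∑ k ∈ F, vdim (W k) := by
  classical
  induction F using Finset.induction_on with
  | empty =>
    simp only [Finset.notMem_empty, iSup_false, iSup_bot, Finset.sum_empty]
    refine ⟨fun g v hv => ?_, vdim_bot.le⟩
    rw [Submodule.mem_bot] at hv ⊢
    rw [hv, map_zero]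
  | insert a s ha ih =>
    rw [Finset.iSup_insert, Finset.sum_insert ha]
    refine ⟨(hW a).sup ih.1, ?_⟩
    have := vdim_sup_le (hW a) ih.1
    linarith [ih.2]

theorem vdim_iSup_le {κ : Type*} (W : κ → Submodule ℝ (Hi G I)) (hW : ∀ k, Invar (W k)) (σ : ℝ)
    (hσ : ∀ F : Finset κ, ∑ k ∈ F, vdim (W k) ≤ σ) : vdim (⨆ k, W k) ≤ σ := by
  classical
  let V : Finset κ → Submodule ℝ (Hi G I) := fun F => (⨆ k ∈ F, W k).topologicalClosure
  have hV : Monotone V := by
    intro F F' hF
    refine Submodule.topologicalClosure_mono ?_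
    exact biSup_mono fun k hk => hF hk
  have hcl : (⨆ F, V F).topologicalClosure = (⨆ k, W k).topologicalClosure := by
    refine le_antisymm ?_ ?_
    · refine Submodule.topologicalClosure_minimal _ ?_ (Submodule.isClosed_topologicalClosure _)
      refine iSup_le fun F => ?_
      refine Submodule.topologicalClosure_mono ?_
      exact iSup₂_le fun k _ => le_iSup W k
    · refine Submodule.topologicalClosure_mono ?_
      refine iSup_le fun k => ?_
      refine le_trans ?_ (le_iSup V {k})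
      refine le_trans ?_ (Submodule.le_topologicalClosure _)
      exact le_iSup₂_of_le k (Finset.mem_singleton_self k) le_rfl
  rw [← vdim_congr hcl]
  have hlim : Filter.Tendsto (fun F => ∑ i, ‖(V F).starProjection (ee 1 i)‖ ^ 2) Filter.atTop
      (nhds (vdim (⨆ F, V F))) := by
    unfold vdim
    refine tendsto_finsetSum _ fun i _ => ?_
    exact (((Submodule.starProjection_tendsto_closure_iSup V hV (ee 1 i)).norm).pow 2)
  refine le_of_tendsto hlim (Filter.Eventually.of_forall fun F => ?_)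
  exact ((Invar.biSup W hW F).2).trans (hσ F)

end MP42532b.L2
end
end

section

/-! # Gradients and harmonic gradients -/

noncomputable section

namespace MP42532b.L2

open scoped InnerProductSpace

variable {G : Type*} [Group G] {d : ℕ} (s : Fin d → G)

theorem mem_gradS_iff (hs : Function.Surjective (FreeGroup.lift s)) (R : Set (FreeGroup (Fin d)))
    (hR : (FreeGroup.lift s).ker = Subgroup.normalClosure R) (v : Hi G (Fin d)) :
    v ∈ gradS s ↔ ∀ r ∈ R, ∀ g, pint s v g r = 0 := by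
  have h1 : ∀ r ∈ R, FreeGroup.lift s r = 1 := by
    intro r hr
    have : r ∈ (FreeGroup.lift s).ker := by
      rw [hR]
      exact Subgroup.subset_normalClosure hr
    exact this
  constructor
  · rintro ⟨f, hf⟩ r hr g
    rw [pint_grad s (fun p => v p) f hf g r, h1 r hr, mul_one, sub_self]
  · intro h
    refine exists_grad s (fun p => v p) hs fun r hr g => ?_
    refine pint_eq_zero_of_normalClosure s (fun p => v p) R h1 h r ?_ g
    rw [← hR]
    exact hr

theorem invar_gradS : Invar (gradS s) := by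
  rintro h v ⟨f, hf⟩
  refine ⟨fun g => f (h⁻¹ * g), fun g i => ?_⟩
  rw [lam_apply, hf, mul_assoc]

theorem continuous_coord {I : Type*} (g : G) (i : I) : Continuous fun v : Hi G I => v (g, i) := by
  have h : (fun v : Hi G I => v (g, i)) = fun v => ⟪ee g i, v⟫_ℝ := by
    ext v
    rw [inner_ee_left]
  rw [h]
  exact continuous_const.inner continuous_id

theorem isClosed_gradS (hs : Function.Surjective (FreeGroup.lift s)) :
    IsClosed (gradS s : Set (Hi G (Fin d))) := by
  have h1 : (gradS s : Set (Hi G (Fin d))) =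
      ⋂ r ∈ ((FreeGroup.lift s).ker : Set (FreeGroup (Fin d))), ⋂ g : G,
        {v : Hi G (Fin d) | pint s v g r = 0} := by
    ext v
    simp only [Set.mem_iInter, Set.mem_ofPred_eq]
    exact mem_gradS_iff s hs ((FreeGroup.lift s).ker : Set (FreeGroup (Fin d)))
      (Subgroup.normalClosure_eq_self _).symm v
  rw [h1]
  refine isClosed_biInter fun r _ => isClosed_iInter fun g => ?_
  obtain ⟨D, -, hD⟩ := exists_pathOp s r
  have h2 : {v : Hi G (Fin d) | pint s v g r = 0} = {v | D v (g, ()) = 0} := by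
    ext v
    rw [Set.mem_ofPred_eq, Set.mem_ofPred_eq, hD]
  rw [h2]
  exact isClosed_eq ((continuous_coord g ()).comp D.continuous) continuous_const

variable {A : Hi G Unit →L[ℝ] Hi G (Fin d)}

theorem range_le_gradS (hA : IsGradOp s A) :
    (A : Hi G Unit →ₗ[ℝ] Hi G (Fin d)).range ≤ gradS s := by
  rintro _ ⟨u, rfl⟩
  exact ⟨fun g => u (g, ()), fun g i => hA u g i⟩

open Classical in
theorem ee_apply {I : Type*} (g : G) (i : I) (p : G × I) :
    ee g i p = if p = (g, i) then 1 else 0 := by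
  split_ifs with h
  · rw [h]; exact ee_apply_self g i
  · exact ee_apply_ne g i p h

theorem gradOp_ee (hA : IsGradOp s A) (g : G) :
    A (ee g ()) = ∑ i, (ee (g * (s i)⁻¹) i - ee g i) := by
  classical
  ext p
  obtain ⟨h, j⟩ := p
  have e1 : (∑ i, (ee (g * (s i)⁻¹) i - ee g i) : Hi G (Fin d)) (h, j) =
      ∑ i, ((ee (g * (s i)⁻¹) i : Hi G (Fin d)) (h, j) - (ee g i : Hi G (Fin d)) (h, j)) := by
    rw [lp.coeFn_sum, Finset.sum_apply]
    rfl
  rw [e1, hA, Finset.sum_eq_single j]
  · rw [ee_apply, ee_apply, ee_apply, ee_apply]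
    simp only [Prod.mk.injEq, and_true]
    have h1 : h * s j = g ↔ h = g * (s j)⁻¹ := by
      rw [eq_mul_inv_iff_mul_eq]
    simp only [h1]
  · intro i _ hij
    rw [ee_apply_ne _ _ _ (fun hh => hij (Prod.mk.inj hh).2.symm),
      ee_apply_ne _ _ _ (fun hh => hij (Prod.mk.inj hh).2.symm), sub_self]
  · intro hj
    exact absurd (Finset.mem_univ j) hj

/-- the divergence -/
theorem inner_gradOp_ee (hA : IsGradOp s A) (v : Hi G (Fin d)) (g : G) :
    ⟪v, A (ee g ())⟫_ℝ = ∑ i, (v (g * (s i)⁻¹, i) - v (g, i)) := by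
  rw [gradOp_ee s hA, inner_sum]
  refine Finset.sum_congr rfl fun i _ => ?_
  rw [inner_sub_right, inner_ee_right, inner_ee_right]

theorem mem_orth_range_iff (hA : IsGradOp s A) (v : Hi G (Fin d)) :
    v ∈ ((A : Hi G Unit →ₗ[ℝ] Hi G (Fin d)).range)ᗮ ↔
      ∀ g, ∑ i, (v (g * (s i)⁻¹, i) - v (g, i)) = 0 := by
  rw [Submodule.mem_orthogonal]
  constructor
  · intro h g
    rw [← inner_gradOp_ee s hA, real_inner_comm]
    exact h _ ⟨ee g (), rfl⟩
  · rintro h _ ⟨u, rfl⟩
    have h1 : ContinuousLinearMap.adjoint A v = 0 := by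
      ext p
      obtain ⟨g, x⟩ := p
      rw [← inner_ee_right, ContinuousLinearMap.adjoint_inner_left, inner_gradOp_ee s hA, h g]
      rfl
    change ⟪A u, v⟫_ℝ = 0
    rw [← ContinuousLinearMap.adjoint_inner_right, h1, inner_zero_right]

theorem harmS_eq (hA : IsGradOp s A) :
    harmS s = gradS s ⊓ ((A : Hi G Unit →ₗ[ℝ] Hi G (Fin d)).range)ᗮ := by
  have key : ∀ (v : Hi G (Fin d)) (f : G → ℝ), (∀ g i, v (g, i) = f (g * s i) - f g) →
      ∀ g, ∑ i, (v (g * (s i)⁻¹, i) - v (g, i)) =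
        -∑ i, ((f (g * s i) - f g) + (f (g * (s i)⁻¹) - f g)) := by
    intro v f hf g
    rw [← Finset.sum_neg_distrib]
    refine Finset.sum_congr rfl fun i _ => ?_
    rw [hf, hf, inv_mul_cancel_right]
    ring
  ext v
  rw [Submodule.mem_inf, mem_orth_range_iff s hA]
  constructor
  · rintro ⟨f, hh, hf⟩
    refine ⟨⟨f, hf⟩, fun g => ?_⟩
    rw [key v f hf, hh g, neg_zero]
  · rintro ⟨⟨f, hf⟩, h⟩
    refine ⟨f, fun g => ?_, hf⟩
    have h1 := h g
    rw [key v f hf, neg_eq_zero] at h1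
    exact h1

theorem invar_harmS : Invar (harmS s) := by
  obtain ⟨A, hA', hA⟩ := exists_gradOp s
  rw [harmS_eq s hA]
  exact (invar_gradS s).inf (Invar.range hA').orthogonal

theorem isClosed_harmS (hs : Function.Surjective (FreeGroup.lift s)) :
    IsClosed (harmS s : Set (Hi G (Fin d))) := by
  obtain ⟨A, hA', hA⟩ := exists_gradOp s
  rw [harmS_eq s hA]
  exact (isClosed_gradS s hs).inter (Submodule.isClosed_orthogonal _)

/-- `dim gradients = dim coboundaries + beta` -/
theorem vdim_gradS (hs : Function.Surjective (FreeGroup.lift s)) (hA : IsGradOp s A) :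
    vdim (gradS s) = vdim (A : Hi G Unit →ₗ[ℝ] Hi G (Fin d)).range + beta s := by
  rw [vdim_of_le (range_le_gradS s hA) (isClosed_gradS s hs), ← harmS_eq s hA]
  rfl

theorem vdim_top_unit : vdim (⊤ : Submodule ℝ (Hi G Unit)) = 1 := by
  have h := vdim_orth (⊥ : Submodule ℝ (Hi G Unit))
  rw [vdim_bot, zero_add, Submodule.bot_orthogonal_eq_top] at h
  rw [h]
  simp

theorem vdim_range_gradOp_le (hA' : Equivar A) :
    vdim (A : Hi G Unit →ₗ[ℝ] Hi G (Fin d)).range ≤ 1 := by
  rw [← rank_nullity hA', ← vdim_top_unit (G := G)]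
  exact vdim_mono le_top

theorem vdim_range_gradOp_eq [Infinite G] (hs : Function.Surjective (FreeGroup.lift s))
    (hA' : Equivar A) (hA : IsGradOp s A) :
    vdim (A : Hi G Unit →ₗ[ℝ] Hi G (Fin d)).range = 1 := by
  have hker : (A : Hi G Unit →ₗ[ℝ] Hi G (Fin d)).ker = ⊥ := by
    rw [LinearMap.ker_eq_bot']
    intro u hu
    change A u = 0 at hu
    have h1 : ∀ g i, (fun _ => 0 : G × Fin d → ℝ) (g, i) = u (g * s i, ()) - u (g, ()) := by
      intro g i
      have := hA u g i
      rw [hu] at this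
      exact this
    have h2 : ∀ h : G, u (h, ()) = u (1, ()) := by
      intro h
      obtain ⟨w, rfl⟩ := hs h
      have h3 := pint_grad s (fun _ => 0) (fun g => u (g, ())) h1 1 w
      have h4 := pint_grad s (fun _ => 0) (fun _ => 0) (fun g i => (sub_self (0:ℝ)).symm) 1 w
      rw [h4, one_mul, sub_self] at h3
      simp only at h3
      linarith
    have h5 : Summable fun _ : G × Unit => ‖u (1, ())‖ ^ ENNReal.toReal 2 := by
      have h6 := (memℓp_gen_iff (by norm_num)).1 (lp.memℓp u)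
      refine h6.congr fun p => ?_
      obtain ⟨g, x⟩ := p
      rw [h2 g]
    rw [summable_const_iff] at h5
    have h7 : u (1, ()) = 0 := by
      have h8 : ‖u (1, ())‖ ^ (2:ℝ) = 0 := by simpa using h5
      rw [Real.rpow_eq_zero_iff_of_nonneg (norm_nonneg _)] at h8
      exact norm_eq_zero.1 h8.1
    ext p
    obtain ⟨g, x⟩ := p
    rw [h2 g, h7]
    rfl
  rw [← rank_nullity hA', hker, Submodule.bot_orthogonal_eq_top, vdim_top_unit]

end MP42532b.L2
end
end
end
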