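import Pool.Agent.Lib.MP_42532b_al.Orders
import Pool.Agent.Lib.MP_42532b_al.L2.Basic
import Pool.Agent.Lib.MP_42532b_al.Axis1
import Pool.Agent.Lib.MP_42532b_al.L2.Grad
import Pool.Agent.Lib.MP_42532b_al.L2.Cosets

section

section

namespace L2B
variable {A : Type*} [Group A] {ℓ : A → ℕ}

/-- constant of (8.2) -/
def cY (κ δ c : ℕ) : ℕ := κ + 6 * δ + c

private theorem s1_zpow_ne_one {w : A} (hw : InfOrd w) {m : ℤ} (hm : m ≠ 0) : w ^ m ≠ 1 := by
  intro h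
  have hpos : 0 < m.natAbs := Int.natAbs_pos.2 hm
  rcases Int.natAbs_eq m with e | e
  · rw [e, zpow_natCast] at h
    exact hw _ hpos h
  · rw [e, zpow_neg, inv_eq_one, zpow_natCast] at h
    exact hw _ hpos h

private theorem s1_conj_infOrd {w : A} (hw : InfOrd w) (g : A) {m : ℤ} (hm : m ≠ 0) :
    InfOrd (g * w ^ m * g⁻¹) := by
  intro n hn h1
  rw [conj_pow] at h1
  have h2 : (w ^ m) ^ n = 1 := by
    have h3 : g⁻¹ * (g * (w ^ m) ^ n * g⁻¹) * g = (w ^ m) ^ n := by group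
    rw [← h3, h1]; group
  rw [← zpow_natCast, ← zpow_mul] at h2
  exact s1_zpow_ne_one hw (mul_ne_zero hm (by exact_mod_cast hn.ne')) h2

private theorem s1_gd (w : A) (i j : ℤ) : gd ℓ (w ^ i) (w ^ j) = ℓ (w ^ (j - i)) := by
  unfold gd
  congr 1
  rw [← zpow_neg, ← zpow_add]
  congr 1
  ring

private theorem s1_main (h : GNorm ℓ) {δ : ℕ} (hyp : Hyp ℓ δ) {w : A} {e : A → ℤ} {κ : ℕ}
    (ps : PS ℓ w κ e) (hw : InfOrd w) (H : Subgroup A) (c : ℕ) (hQ : QCs ℓ (H : Set A) c)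
    (hM : MN H) (e0 : ℕ) (B : Finset A)
    (hB : ∀ u, ℓ u ≤ 2 * κ + 10 * δ + e0 + c → u ∈ B) {g x y hx hy : A}
    (hxH : hx ∈ H) (hxd : gd ℓ x hx ≤ e0) (hyH : hy ∈ H) (hyd : gd ℓ y hy ≤ e0)
    (hfar : ((κ + 1 + B.card : ℕ) : ℤ) ≤ dl e g x y) : g * w * g⁻¹ ∈ H := by
  set a := e (g⁻¹ * x) with ha
  set b := e (g⁻¹ * y) with hb
  have hab : ((κ + 1 + B.card : ℕ) : ℤ) ≤ b - a := hfar
  have hpass := ps.pass (g⁻¹ * x) (g⁻¹ * y) (by
    rw [← ha, ← hb, abs_of_nonneg (by omega)]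
    push_cast at hab
    omega)
  rw [← ha, ← hb] at hpass
  -- points of the line near `H`
  have key : ∀ l : ℤ, a ≤ l → l ≤ b → ∃ η ∈ H, (w ^ l)⁻¹ * (g⁻¹ * η) ∈ B := by
    intro l hl1 hl2
    obtain ⟨n1, hn1⟩ := Int.eq_ofNat_of_zero_le (sub_nonneg.2 hl1)
    obtain ⟨n2, hn2⟩ := Int.eq_ofNat_of_zero_le (sub_nonneg.2 hl2)
    have h1 : gd ℓ (w ^ a) (w ^ l) + gd ℓ (w ^ l) (w ^ b) ≤ ℓ (w ^ (b - a)) + κ := by
      rw [s1_gd, s1_gd, hn1, hn2]
      have e1 : b - a = ((n1 + n2 : ℕ) : ℤ) := by push_cast; omega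
      rw [e1, zpow_natCast, zpow_natCast, zpow_natCast]
      exact ps.ax n1 n2
    have t1 := h.gd_tri (g⁻¹ * x) (w ^ a) (w ^ l)
    have t2 := h.gd_tri (w ^ l) (w ^ b) (g⁻¹ * y)
    have h2 : gd ℓ (g⁻¹ * x) (w ^ l) + gd ℓ (w ^ l) (g⁻¹ * y) ≤
        gd ℓ (g⁻¹ * x) (g⁻¹ * y) + 2 * κ := by omega
    obtain ⟨z, hz, hz'⟩ := nearBtw h hyp h2
    have d1 : gd ℓ (g⁻¹ * x) (g⁻¹ * hx) = gd ℓ x hx := gd_left ℓ _ _ _
    have d2 : gd ℓ (g⁻¹ * y) (g⁻¹ * hy) = gd ℓ y hy := gd_left ℓ _ _ _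
    obtain ⟨z1, hz1, hz1'⟩ := thinTri h hyp hz (g⁻¹ * hx)
    have t3 := h.gd_tri (w ^ l) z z1
    rcases hz1 with hz1 | hz1
    · refine ⟨hx, hxH, hB _ ?_⟩
      have t4 := h.gd_tri (w ^ l) z1 (g⁻¹ * hx)
      unfold Btw at hz1
      have e2 : ℓ ((w ^ l)⁻¹ * (g⁻¹ * hx)) = gd ℓ (w ^ l) (g⁻¹ * hx) := rfl
      omega
    · obtain ⟨z2, hz2, hz2'⟩ := thinTri h hyp hz1 (g⁻¹ * hy)
      have t5 := h.gd_tri (w ^ l) z1 z2
      rcases hz2 with hz2 | hz2
      · have hz3 : Btw ℓ hx hy (g * z2) := by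
          rw [← btw_left ℓ g⁻¹, inv_mul_cancel_left]; exact hz2
        obtain ⟨η, hη, hη'⟩ := hQ hx hxH hy hyH _ hz3
        refine ⟨η, hη, hB _ ?_⟩
        have d3 : gd ℓ (g * z2) η = gd ℓ z2 (g⁻¹ * η) := by
          rw [← gd_left ℓ g⁻¹, inv_mul_cancel_left]
        have t6 := h.gd_tri (w ^ l) z2 (g⁻¹ * η)
        have e2 : ℓ ((w ^ l)⁻¹ * (g⁻¹ * η)) = gd ℓ (w ^ l) (g⁻¹ * η) := rfl
        omega
      · refine ⟨hy, hyH, hB _ ?_⟩
        have t6 := h.gd_tri (w ^ l) z2 (g⁻¹ * hy)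
        unfold Btw at hz2
        have c1 := h.gd_comm z2 (g⁻¹ * hy)
        have c2 := h.gd_comm (g⁻¹ * hy) (g⁻¹ * y)
        have e2 : ℓ ((w ^ l)⁻¹ * (g⁻¹ * hy)) = gd ℓ (w ^ l) (g⁻¹ * hy) := rfl
        omega
  choose! s hsH hsB using key
  have hcard : B.card < (Finset.Icc a b).card := by
    rw [Int.card_Icc]
    push_cast at hab
    omega
  obtain ⟨l, hl, l', hl', hne, heq⟩ := Finset.exists_ne_map_eq_of_card_lt_of_maps_to hcard
    (f := fun l => (w ^ l)⁻¹ * (g⁻¹ * s l))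
    (fun l hl => by
      have hl2 := Finset.mem_Icc.1 (Finset.mem_coe.1 hl)
      exact hsB l hl2.1 hl2.2)
  have heq' : (w ^ l)⁻¹ * (g⁻¹ * s l) = (w ^ l')⁻¹ * (g⁻¹ * s l') := heq
  have hl2 := Finset.mem_Icc.1 hl
  have hl2' := Finset.mem_Icc.1 hl'
  have e1 : s l * (s l')⁻¹ = g * w ^ (l - l') * g⁻¹ := by
    have e2 : s l = g * (w ^ l * ((w ^ l')⁻¹ * (g⁻¹ * s l'))) := by
      rw [← heq', mul_inv_cancel_left, mul_inv_cancel_left]
    rw [e2, zpow_sub]; group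
  have hmem : g * w ^ (l - l') * g⁻¹ ∈ H := by
    rw [← e1]
    exact H.mul_mem (hsH l hl2.1 hl2.2) (H.inv_mem (hsH l' hl2'.1 hl2'.2))
  refine hM (g * w * g⁻¹) _ hmem (s1_conj_infOrd hw g (sub_ne_zero.2 hne)) ?_
  have e3 : g * w * g⁻¹ * (g * w ^ (l - l') * g⁻¹) * (g * w * g⁻¹)⁻¹ =
      g * w ^ (l - l') * g⁻¹ := by group
  rw [e3]; exact hmem

/-- (8.1) -/
theorem par_of_far (h : GNorm ℓ) {δ : ℕ} (hyp : Hyp ℓ δ) {w : A} {e : A → ℤ} {κ : ℕ}
    (ps : PS ℓ w κ e) (hw : InfOrd w) (H : Subgroup A) (c : ℕ) (hQ : QCs ℓ (H : Set A) c)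
    (hM : MN H) (e0 : ℕ) : ∃ τ : ℕ, ∀ g x y : A, (∃ a ∈ H, gd ℓ x a ≤ e0) →
      (∃ b ∈ H, gd ℓ y b ≤ e0) → (τ : ℤ) ≤ |dl e g x y| → g * w * g⁻¹ ∈ H := by
  have hfin := h.fin (2 * κ + 10 * δ + e0 + c)
  have hB : ∀ u, ℓ u ≤ 2 * κ + 10 * δ + e0 + c → u ∈ hfin.toFinset := by
    intro u hu
    rw [Set.Finite.mem_toFinset]
    exact hu
  refine ⟨κ + 1 + hfin.toFinset.card, fun g x y hx hy hfar => ?_⟩
  obtain ⟨hx, hxH, hxd⟩ := hx
  obtain ⟨hy, hyH, hyd⟩ := hy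
  rcases le_total 0 (dl e g x y) with h0 | h0
  · rw [abs_of_nonneg h0] at hfar
    exact s1_main h hyp ps hw H c hQ hM e0 _ hB hxH hxd hyH hyd hfar
  · rw [abs_of_nonpos h0, ← dl_symm] at hfar
    exact s1_main h hyp ps hw H c hQ hM e0 _ hB hyH hyd hxH hxd hfar

/-- (8.2) -/
theorem par_near (h : GNorm ℓ) {δ : ℕ} (hyp : Hyp ℓ δ) {w : A} {e : A → ℤ} {κ : ℕ}
    (ps : PS ℓ w κ e) (hw : InfOrd w) (H : Subgroup A) (c : ℕ) (hQ : QCs ℓ (H : Set A) c)
    (g : A) (hg : g * w * g⁻¹ ∈ H) : ∃ a ∈ H, gd ℓ g a ≤ cY κ δ c := by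
  obtain ⟨N, hN⟩ : ∃ N : ℕ, κ * (ℓ g + κ + 4 * δ + 1) < N := ⟨_, Nat.lt_succ_self _⟩
  have hlow := ps.low N
  have hbig : ℓ g + κ + 4 * δ < ℓ (w ^ N) := by
    by_contra hcon
    push Not at hcon
    rw [zpow_natCast] at hlow
    have h1 : κ * (ℓ (w ^ N) + 1) ≤ κ * (ℓ g + κ + 4 * δ + 1) := Nat.mul_le_mul_left _ (by omega)
    have h2 : |(N : ℤ)| = N := abs_of_nonneg (by positivity)
    rw [h2] at hlow
    have h3 : N ≤ κ * (ℓ (w ^ N) + 1) := by exact_mod_cast hlow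
    omega
  have hpow : ∀ i : ℤ, g * w ^ i * g⁻¹ ∈ H := by
    intro i
    rw [← conj_zpow]
    exact H.zpow_mem hg i
  set P := g * w ^ (N : ℤ) with hP
  set P' := g * w ^ (-(N : ℤ)) with hP'
  set k := g * w ^ (N : ℤ) * g⁻¹ with hk
  set k' := g * w ^ (-(N : ℤ)) * g⁻¹ with hk'
  have d1 : gd ℓ P k = ℓ g := by
    unfold gd; rw [hP, hk, ← h.inv g]; congr 1; group
  have d2 : gd ℓ P' k' = ℓ g := by
    unfold gd; rw [hP', hk', ← h.inv g]; congr 1; group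
  have d3 : gd ℓ g P = ℓ (w ^ N) := by
    unfold gd; rw [hP, inv_mul_cancel_left, zpow_natCast]
  have d4 : gd ℓ g P' = ℓ (w ^ N) := by
    unfold gd; rw [hP', inv_mul_cancel_left, zpow_neg, h.inv, zpow_natCast]
  have d5 : gd ℓ P' P = ℓ (w ^ (N + N)) := by
    unfold gd; rw [hP', hP]; congr 1
    have : w ^ (N + N) = w ^ ((N : ℤ) + N) := by
      rw [← zpow_natCast]; push_cast; rfl
    rw [this]; group
  have hax := ps.ax N N
  have t1 := h.gd_tri g k P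
  have t2 := h.gd_tri g k' P'
  have c1 := h.gd_comm P k
  have c2 := h.gd_comm P' k'
  have c3 := h.gd_comm P g
  have c4 := h.gd_comm P' g
  have c5 := h.gd_comm k g
  have c6 := h.gd_comm k' g
  have c7 := h.gd_comm k' P
  have c8 := h.gd_comm k P
  have q1 := hyp P' P k' g
  have q2 := hyp k' P k g
  have hE : gd ℓ k' g + gd ℓ g k ≤ gd ℓ k' k + (κ + 4 * δ) := by omega
  obtain ⟨z, hz, hz'⟩ := nearBtw h hyp hE
  obtain ⟨a, ha, ha'⟩ := hQ k' (hpow _) k (hpow _) z hz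
  refine ⟨a, ha, ?_⟩
  have t3 := h.gd_tri g z a
  unfold cY
  omega

end L2B
end

section

namespace L2B
variable {A : Type*} [Group A] {ℓ : A → ℕ}

/-- constant of (8.3) -/
def c1 (κ δ c C lw : ℕ) : ℕ := (C + k2 κ) * lw + κ + 2 * δ + cY κ δ c

private theorem sl_zpow_le (h : GNorm ℓ) (w : A) (i : ℤ) (m : ℕ) (hi : |i| ≤ m) :
    ℓ (w ^ i) ≤ m * ℓ w := by
  have hp : ∀ (m : ℕ) (u : A), ℓ (u ^ m) ≤ m * ℓ u := by
    intro m u
    induction m with
    | zero => simp [h.one]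
    | succ m ih =>
      rw [pow_succ]
      have := h.mul (u ^ m) u
      nlinarith
  have hle : i.natAbs ≤ m := by
    have := abs_le.1 hi
    omega
  rcases Int.natAbs_eq i with h1 | h1
  · rw [h1, zpow_natCast]
    exact (hp _ _).trans (Nat.mul_le_mul_right _ (by simpa using hle))
  · rw [h1, zpow_neg, zpow_natCast, h.inv]
    exact (hp _ _).trans (Nat.mul_le_mul_right _ (by simpa using hle))

private theorem sl_pass (h : GNorm ℓ) {w : A} {e : A → ℤ} {κ : ℕ} (ps : PS ℓ w κ e)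
    (g p y : A) (hd : (κ : ℤ) < |dl e g p y|) :
    gd ℓ p (g * w ^ e (g⁻¹ * y)) + gd ℓ (g * w ^ e (g⁻¹ * y)) y ≤ gd ℓ p y + κ := by
  have h1 := ps.pass (g⁻¹ * p) (g⁻¹ * y) hd
  have e1 : gd ℓ (g⁻¹ * p) (w ^ e (g⁻¹ * p)) = gd ℓ p (g * w ^ e (g⁻¹ * p)) := by
    rw [← gd_left ℓ g]; congr 1; group
  have e2 : gd ℓ (w ^ e (g⁻¹ * y)) (g⁻¹ * y) = gd ℓ (g * w ^ e (g⁻¹ * y)) y := by
    rw [← gd_left ℓ g]; congr 1; group
  have e3 : gd ℓ (g * w ^ e (g⁻¹ * p)) (g * w ^ e (g⁻¹ * y)) =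
      ℓ (w ^ (e (g⁻¹ * y) - e (g⁻¹ * p))) := by
    rw [gd_left]; unfold gd; congr 1; rw [← zpow_neg, ← zpow_add]; congr 1; ring
  have t := h.gd_tri p (g * w ^ e (g⁻¹ * p)) (g * w ^ e (g⁻¹ * y))
  rw [gd_left ℓ g⁻¹ p y] at h1
  omega

/-- (8.3): shortest lifts of points of `K H` seen from a neighbourhood of `H` lie in `H` -/
theorem short_lift (h : GNorm ℓ) {δ : ℕ} (hyp : Hyp ℓ δ) {w : A} {e : A → ℤ} {κ : ℕ}
    (ps : PS ℓ w κ e) (hw : InfOrd w) (H : Subgroup A) (c : ℕ) (hQ : QCs ℓ (H : Set A) c)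
    (hM : MN H) (C : ℕ) : ∃ N : ℕ, ∀ n : ℕ, N ≤ n → Green w e n C → ∀ p y : A,
      (∃ a ∈ H, gd ℓ p a ≤ c1 κ δ c C (ℓ w)) → (∃ k ∈ KK w n, ∃ a ∈ H, y = k * a) →
      (∀ k ∈ KK w n, gd ℓ p y ≤ gd ℓ p (k * y)) → y ∈ H := by
  obtain ⟨τ, hτ⟩ := par_of_far h hyp ps hw H c hQ hM (c1 κ δ c C (ℓ w))
  refine ⟨2 * C + k2 κ + 2 * τ + 2 * (κ * (κ + 2 * δ + 2)) + 2 * κ + 1, ?_⟩
  intro n hn hG
  have hnorm : (KK w n).Normal := by unfold KK; infer_instance
  have hwn : w ^ n ∈ KK w n := Subgroup.subset_normalClosure rfl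
  have hconj : ∀ g : A, g * w ^ (n : ℤ) * g⁻¹ ∈ KK w n := by
    intro g
    rw [zpow_natCast]
    exact hnorm.conj_mem _ hwn g
  have hconj' : ∀ g : A, g * w ^ (-(n : ℤ)) * g⁻¹ ∈ KK w n := by
    intro g
    rw [zpow_neg, zpow_natCast]
    exact hnorm.conj_mem _ ((KK w n).inv_mem hwn) g
  -- strong induction on the distance
  suffices key : ∀ m : ℕ, ∀ p y : A, gd ℓ p y = m →
      (∃ a ∈ H, gd ℓ p a ≤ c1 κ δ c C (ℓ w)) → (∃ k ∈ KK w n, ∃ a ∈ H, y = k * a) →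
      (∀ k ∈ KK w n, gd ℓ p y ≤ gd ℓ p (k * y)) → y ∈ H from
    fun p y => key _ p y rfl
  intro m
  induction m using Nat.strong_induction_on with
  | _ m ih =>
  intro p y hm hpa hky hmin
  -- nearest element of `H` in the coset
  have hex : ∃ d : ℕ, ∃ a ∈ H, (∃ k ∈ KK w n, y = k * a) ∧ gd ℓ p a = d := by
    obtain ⟨k, hk, a, ha, hy⟩ := hky
    exact ⟨_, a, ha, ⟨k, hk, hy⟩, rfl⟩
  classical
  obtain ⟨h2, hh2, ⟨k1, hk1, hy⟩, hd2⟩ := Nat.find_spec hex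
  have hmin2 : ∀ a ∈ H, (∃ k ∈ KK w n, y = k * a) → gd ℓ p h2 ≤ gd ℓ p a := by
    intro a ha hk
    rw [hd2]
    exact Nat.find_min' hex ⟨a, ha, hk, rfl⟩
  by_cases hk11 : k1 = 1
  · rw [hy, hk11, one_mul]; exact hh2
  obtain ⟨g, hg⟩ := hG k1 hk1 hk11 h2
  rw [← hy] at hg
  have hnk2 : k2 κ < n := by omega
  have b1 := sp_bound h ps hnk2 p y g (hmin _ (hconj g)) (hmin _ (hconj' g))
  have hadd := dl_add e g h2 p y
  have hsy := dl_symm e g p h2
  have hfar : (τ : ℤ) ≤ |dl e g p h2| := by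
    rcases abs_cases (dl e g h2 y) with ⟨a1, _⟩ | ⟨a1, _⟩ <;>
    rcases abs_cases (dl e g p y) with ⟨a2, _⟩ | ⟨a2, _⟩ <;>
    rcases abs_cases (dl e g p h2) with ⟨a3, _⟩ | ⟨a3, _⟩ <;>
    rw [a1] at hg <;> rw [a2] at b1 <;> rw [a3] <;> omega
  have hpar : g * w * g⁻¹ ∈ H :=
    hτ g p h2 hpa ⟨h2, hh2, by rw [h.gd_self]; omega⟩ hfar
  have hparz : ∀ i : ℤ, g * w ^ i * g⁻¹ ∈ H := by
    intro i
    have e1 : g * w ^ i * g⁻¹ = (g * w * g⁻¹) ^ i := by
      rw [← MulAut.conj_apply, ← MulAut.conj_apply, map_zpow]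
    rw [e1]
    exact H.zpow_mem hpar i
  -- minimality of `h2`
  have hmm : ∀ i : ℤ, g * w ^ i * g⁻¹ ∈ KK w n → gd ℓ p h2 ≤ gd ℓ p (g * w ^ i * g⁻¹ * h2) := by
    intro i hi
    refine hmin2 _ (H.mul_mem (hparz i) hh2) ⟨k1 * (g * w ^ i * g⁻¹)⁻¹,
      (KK w n).mul_mem hk1 ((KK w n).inv_mem hi), ?_⟩
    rw [hy]; group
  have b2 := sp_bound h ps hnk2 p h2 g (hmm _ (hconj g)) (hmm _ (hconj' g))
  -- bounds for the coordinates
  have b1' : -((n : ℤ) + k2 κ) ≤ 2 * dl e g p y ∧ 2 * dl e g p y ≤ n + k2 κ := by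
    rcases abs_cases (dl e g p y) with ⟨a2, _⟩ | ⟨a2, _⟩ <;> rw [a2] at b1 <;> omega
  have b2' : -((n : ℤ) + k2 κ) ≤ 2 * dl e g p h2 ∧ 2 * dl e g p h2 ≤ n + k2 κ := by
    rcases abs_cases (dl e g p h2) with ⟨a2, _⟩ | ⟨a2, _⟩ <;> rw [a2] at b2 <;> omega
  -- the sign
  obtain ⟨i, hi1, hi2⟩ : ∃ i : ℤ, g * w ^ i * g⁻¹ ∈ KK w n ∧
      |-i - dl e g h2 y| ≤ ((C + k2 κ : ℕ) : ℤ) := by
    rcases abs_cases (dl e g h2 y) with ⟨a1, a1'⟩ | ⟨a1, a1'⟩
    · refine ⟨-(n : ℤ), hconj' g, ?_⟩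
      rw [a1] at hg
      rw [abs_le]
      push_cast
      constructor <;> omega
    · refine ⟨(n : ℤ), hconj g, ?_⟩
      rw [a1] at hg
      rw [abs_le]
      push_cast
      constructor <;> omega
  have hdy : ((n : ℤ) - 2 * C - k2 κ) ≤ 2 * |dl e g p y| := by
    rcases abs_cases (dl e g h2 y) with ⟨a1, _⟩ | ⟨a1, _⟩ <;>
    rcases abs_cases (dl e g p y) with ⟨a2, _⟩ | ⟨a2, _⟩ <;>
    rw [a1] at hg <;> rw [a2] <;> omega
  have hpass := sl_pass h ps g p y (by omega)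
  set q2 : A := g * w ^ e (g⁻¹ * y) with hq2
  obtain ⟨z, hz1, hz2⟩ := nearBtw h hyp hpass
  -- `p` and `z` are different
  have hpq : dl e g p q2 = dl e g p y := by
    unfold dl
    have e1 : g⁻¹ * q2 = w ^ e (g⁻¹ * y) * 1 := by rw [hq2]; group
    rw [e1, ps.shift, ps.one]; ring
  have hl := ps.dl_lip g p q2
  rw [hpq] at hl
  have hpz : 0 < gd ℓ p z := by
    by_contra hc
    have hc0 : gd ℓ p z = 0 := by omega
    have t := h.gd_tri p z q2
    have t2 := h.gd_comm z q2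
    have t3 : gd ℓ p q2 + 1 ≤ κ + 2 * δ + 2 := by omega
    have t4 : κ * (gd ℓ p q2 + 1) ≤ κ * (κ + 2 * δ + 2) := Nat.mul_le_mul_left _ t3
    zify at t4
    generalize hA : (κ : ℤ) * ((κ : ℤ) + 2 * δ + 2) = A1 at t4
    have hn' : (2 * (C : ℤ) + k2 κ + 2 * τ + 2 * A1 + 2 * κ + 1) ≤ n := by
      rw [← hA]; exact_mod_cast hn
    omega
  have hBz : gd ℓ p z + gd ℓ z y = gd ℓ p y := hz1
  set k : A := g * w ^ i * g⁻¹ with hk
  have hkH : k ∈ H := hparz i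
  have hfin : k * y ∈ H := by
    refine ih (gd ℓ (k * z) (k * y)) ?_ (k * z) (k * y) rfl ?_ ?_ ?_
    · rw [gd_left]; omega
    · -- near `H`
      have hq1 : (g * w ^ e (g⁻¹ * h2)) * w * (g * w ^ e (g⁻¹ * h2))⁻¹ ∈ H := by
        have e1 : (g * w ^ e (g⁻¹ * h2)) * w * (g * w ^ e (g⁻¹ * h2))⁻¹ = g * w * g⁻¹ := by
          group
        rw [e1]; exact hpar
      obtain ⟨a, ha, ha2⟩ := par_near h hyp ps hw H c hQ _ hq1
      refine ⟨a, ha, ?_⟩
      have d1 : gd ℓ (k * z) (k * q2) ≤ κ + 2 * δ := by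
        rw [gd_left, h.gd_comm]; exact hz2
      have d2 : gd ℓ (k * q2) (g * w ^ e (g⁻¹ * h2)) ≤ (C + k2 κ) * ℓ w := by
        have e1 : (k * q2)⁻¹ * (g * w ^ e (g⁻¹ * h2)) = w ^ (-i - dl e g h2 y) := by
          have e2 : -i - dl e g h2 y = -(e (g⁻¹ * y)) + (-i) + e (g⁻¹ * h2) := by
            unfold dl; ring
          rw [e2, zpow_add, zpow_add, hk, hq2]
          group
        unfold gd
        rw [e1]
        exact sl_zpow_le h w _ _ hi2
      have t1 := h.gd_tri (k * z) (k * q2) (g * w ^ e (g⁻¹ * h2))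
      have t2 := h.gd_tri (k * z) (g * w ^ e (g⁻¹ * h2)) a
      unfold c1
      omega
    · refine ⟨k * k1, (KK w n).mul_mem hi1 hk1, h2, hh2, ?_⟩
      calc k * y = k * (k1 * h2) := congrArg (k * ·) hy
        _ = k * k1 * h2 := (mul_assoc _ _ _).symm
    · intro k' hk'
      have hk'' : k⁻¹ * k' * k ∈ KK w n := by
        have := hnorm.conj_mem k' hk' k⁻¹
        simpa using this
      have m1 := hmin _ hk''
      have m2 := h.gd_tri p z (k⁻¹ * k' * k * y)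
      have m3 : gd ℓ (k * z) (k' * (k * y)) = gd ℓ z (k⁻¹ * k' * k * y) := by
        rw [← gd_left ℓ k z]; congr 1; group
      rw [gd_left, m3]
      omega
  have := H.mul_mem (H.inv_mem hkH) hfin
  simpa using this

end L2B
end
end

section

section

/-! # Subgroups of amenable groups are amenable -/

noncomputable section

namespace MP42532b.L2

variable {G : Type*} [Group G]

/-- amenability passes to groups which embed -/
theorem Amen.of_injective {H : Type*} [Group H] (hG : Amen G) (f : H →* G)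
    (hf : Function.Injective f) : Amen H := by
  classical
  intro S ε hε
  rcases S.eq_empty_or_nonempty with rfl | hS
  · exact ⟨{1}, Finset.singleton_nonempty _, fun s hs => absurd hs (Finset.notMem_empty s)⟩
  have hSc : (0 : ℝ) < S.card := by exact_mod_cast hS.card_pos
  obtain ⟨F, hF, hF'⟩ := hG (S.image f) (ε / S.card) (by positivity)
  let π : G → G ⧸ f.range := fun g => (g : G ⧸ f.range)
  have hπ : ∀ (g : G) (h : H), π (g * f h) = π g := by
    intro g h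
    refine (QuotientGroup.eq.2 ?_).symm
    rw [inv_mul_cancel_left]
    exact ⟨h, rfl⟩
  set T := F.image π with hT
  have hTn : T.Nonempty := hF.image π
  -- the total
  have h1 : ∑ s ∈ S, (({g ∈ F | g * f s ∉ F} : Finset G).card : ℝ) ≤ ε * F.card := by
    have h2 : ∀ s ∈ S, (({g ∈ F | g * f s ∉ F} : Finset G).card : ℝ) ≤ ε / S.card * F.card := by
      intro s hs
      have h3 := hF' (f s) (Finset.mem_image_of_mem f hs)
      convert h3 using 3
    refine (Finset.sum_le_sum h2).trans (le_of_eq ?_)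
    rw [Finset.sum_const, nsmul_eq_mul]
    field_simp
  have h2 : ∀ F' : Finset G, F' ⊆ F → (F'.card : ℝ) =
      ∑ q ∈ T, ((F'.filter fun g => π g = q).card : ℝ) := by
    intro F' hF'
    have h3 := Finset.card_eq_sum_card_fiberwise (f := π) (s := F') (t := T)
      (fun g hg => Finset.mem_image_of_mem π (hF' hg))
    rw [h3, Nat.cast_sum]
  have h3 : ∑ q ∈ T, ∑ s ∈ S, (((F.filter fun g => π g = q).filter
      (fun g => g * f s ∉ F)).card : ℝ) ≤ ∑ q ∈ T, ε * ((F.filter fun g => π g = q).card : ℝ) := by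
    rw [Finset.sum_comm, ← Finset.mul_sum, ← h2 F (Finset.Subset.refl F)]
    refine le_trans (le_of_eq ?_) h1
    refine Finset.sum_congr rfl fun s _ => ?_
    rw [h2 (F.filter fun g => g * f s ∉ F) (Finset.filter_subset _ _)]
    refine Finset.sum_congr rfl fun q _ => ?_
    rw [Finset.filter_comm]
  obtain ⟨q, hq, hle⟩ := Finset.exists_le_of_sum_le hTn h3
  obtain ⟨x, hxF, hxq⟩ := Finset.mem_image.1 hq
  set Fq := F.filter fun g => π g = q with hFq
  have hinj : Function.Injective (fun h : H => x * f h) := fun a b hab => hf (mul_left_cancel hab)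
  set F1 : Finset H := Fq.preimage (fun h => x * f h) hinj.injOn with hF1
  have hmem : ∀ h, h ∈ F1 ↔ x * f h ∈ Fq := fun h => Finset.mem_preimage
  have hcard : F1.card = Fq.card := by
    rw [← Finset.card_image_of_injective F1 hinj]
    congr 1
    ext g
    rw [Finset.mem_image]
    constructor
    · rintro ⟨h, hh, rfl⟩
      exact (hmem h).1 hh
    · intro hg
      have h5 : π g = π x := by rw [hxq]; exact (Finset.mem_filter.1 hg).2
      obtain ⟨h, hh⟩ := QuotientGroup.eq.1 h5.symm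
      have h6 : x * f h = g := by
        rw [show f h = x⁻¹ * g from hh, mul_inv_cancel_left]
      exact ⟨h, (hmem h).2 (by rw [h6]; exact hg), h6⟩
  refine ⟨F1, ⟨1, (hmem 1).2 ?_⟩, fun s hs => ?_⟩
  · rw [map_one, mul_one]
    exact Finset.mem_filter.2 ⟨hxF, hxq⟩
  · rw [hcard]
    refine le_trans ?_ hle
    have h5 : (({g ∈ F1 | g * s ∉ F1} : Finset H).card : ℝ) ≤
        ((Fq.filter (fun g => g * f s ∉ F)).card : ℝ) := by
      have h6 : ({g ∈ F1 | g * s ∉ F1} : Finset H).card ≤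
          (Fq.filter (fun g => g * f s ∉ F)).card := by
        refine Finset.card_le_card_of_injOn (fun h => x * f h) (fun h hh => ?_) hinj.injOn
        have hh' := Finset.mem_filter.1 (Finset.mem_coe.1 hh)
        refine Finset.mem_coe.2 (Finset.mem_filter.2 ⟨(hmem h).1 hh'.1, fun hcon => hh'.2 ?_⟩)
        rw [hmem, map_mul, ← mul_assoc]
        refine Finset.mem_filter.2 ⟨hcon, ?_⟩
        rw [hπ]
        exact (Finset.mem_filter.1 ((hmem h).1 hh'.1)).2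
      exact_mod_cast h6
    have h7 : ((Fq.filter (fun g => g * f s ∉ F)).card : ℝ) ≤
        ∑ s ∈ S, ((Fq.filter (fun g => g * f s ∉ F)).card : ℝ) :=
      Finset.single_le_sum (f := fun s => ((Fq.filter (fun g => g * f s ∉ F)).card : ℝ))
        (fun _ _ => Nat.cast_nonneg _) hs
    refine le_trans ?_ h7
    convert h5 using 3

theorem Amen.subgroup (hG : Amen G) (H : Subgroup G) : Amen H :=
  hG.of_injective H.subtype H.subtype_injective

/-- finite groups are amenable -/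
theorem Amen.of_finite [Finite G] : Amen G := by
  classical
  have := Fintype.ofFinite G
  intro S ε hε
  refine ⟨Finset.univ, Finset.univ_nonempty, fun s _ => ?_⟩
  have h1 : ({g ∈ Finset.univ | g * s ∉ (Finset.univ : Finset G)} : Finset G).card = 0 := by
    simp
  have h2 : (0:ℝ) ≤ ε * (Finset.univ : Finset G).card := by positivity
  refine le_trans (le_of_eq ?_) h2
  convert (congrArg (Nat.cast : ℕ → ℝ) h1) using 3
  exact Nat.cast_zero.symm

end MP42532b.L2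
end
end

section

namespace L2B
variable {A : Type*} [Group A] {ℓ : A → ℕ}

private theorem ax2_zpow_ne_one {w : A} (hw : InfOrd w) {m : ℤ} (hm : m ≠ 0) : w ^ m ≠ 1 := by
  intro h
  have hpos : 0 < m.natAbs := Int.natAbs_pos.2 hm
  rcases Int.natAbs_eq m with e | e
  · rw [e, zpow_natCast] at h
    exact hw _ hpos h
  · rw [e, zpow_neg, inv_eq_one, zpow_natCast] at h
    exact hw _ hpos h

private theorem ax2_bound (h : GNorm ℓ) {w : A} {c0 : ℕ}
    (hc0 : ∀ m : ℕ, m ≤ c0 * ℓ (w ^ m)) (m : ℤ) : m.natAbs ≤ c0 * ℓ (w ^ m) := by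
  rcases Int.natAbs_eq m with e | e
  · have h1 := hc0 m.natAbs
    have h2 : w ^ m = w ^ m.natAbs := by conv_lhs => rw [e, zpow_natCast]
    rw [h2]; exact h1
  · have h1 := hc0 m.natAbs
    have h2 : w ^ m = (w ^ m.natAbs)⁻¹ := by conv_lhs => rw [e, zpow_neg, zpow_natCast]
    rw [h2, h.inv]; exact h1

private theorem ax2_gd (w : A) (i j : ℤ) : gd ℓ (w ^ i) (w ^ j) = ℓ (w ^ (j - i)) := by
  unfold gd
  congr 1
  rw [← zpow_neg, ← zpow_add]
  congr 1
  ring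

private theorem ax2_main (h : GNorm ℓ) {δ : ℕ} (hyp : Hyp ℓ δ) {w : A} (hw : IsRoot w) {c c0 : ℕ}
    (hc0 : ∀ m : ℕ, m ≤ c0 * ℓ (w ^ m))
    (hc : ∀ i j : ℕ, ℓ (w ^ i) + ℓ (w ^ j) ≤ ℓ (w ^ (i + j)) + c)
    (B : Finset A)
    (hB : ∀ u, ℓ u ≤ 2 * Q1 ℓ w c δ + 4 * δ + c + Q0 ℓ w c δ → u ∈ B)
    {g : A} (hg : ¬ SameL w 1 g) {i j a b : ℤ} (ha : Near ℓ w (g * w ^ i) a)
    (hb : Near ℓ w (g * w ^ j) b) (hab : a ≤ b) :
    b - a ≤ (B.card + c0 * (Q1 ℓ w c δ + δ) : ℕ) := by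
  by_contra hcon
  push Not at hcon
  -- the two projections are far apart
  have hfar : Q1 ℓ w c δ + δ < ℓ (w ^ (b - a)) := by
    by_contra hf
    push Not at hf
    have h1 := ax2_bound h hc0 (b - a)
    have h2 : c0 * ℓ (w ^ (b - a)) ≤ c0 * (Q1 ℓ w c δ + δ) := Nat.mul_le_mul_left _ hf
    generalize c0 * ℓ (w ^ (b - a)) = X1 at *
    generalize c0 * (Q1 ℓ w c δ + δ) = X2 at *
    omega
  have hpass := near_pass h hyp hc _ _ a b ha hb hfar
  -- every power in between is close to the line of g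
  have key : ∀ l : ℤ, a ≤ l → l ≤ b → ∃ k : ℤ, (w ^ l)⁻¹ * (g * w ^ k) ∈ B := by
    intro l hl1 hl2
    obtain ⟨n1, hn1⟩ := Int.eq_ofNat_of_zero_le (sub_nonneg.2 hl1)
    obtain ⟨n2, hn2⟩ := Int.eq_ofNat_of_zero_le (sub_nonneg.2 hl2)
    have h1 : gd ℓ (w ^ a) (w ^ l) + gd ℓ (w ^ l) (w ^ b) ≤ gd ℓ (w ^ a) (w ^ b) + c := by
      rw [ax2_gd, ax2_gd, ax2_gd, hn1, hn2]
      have e : b - a = ((n1 + n2 : ℕ) : ℤ) := by push_cast; omega
      rw [e, zpow_natCast, zpow_natCast, zpow_natCast]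
      exact hc n1 n2
    have h0 : gd ℓ (w ^ a) (w ^ b) = ℓ (w ^ (b - a)) := ax2_gd w a b
    have t1 := h.gd_tri (g * w ^ i) (w ^ a) (w ^ l)
    have t2 := h.gd_tri (w ^ l) (w ^ b) (g * w ^ j)
    have h2 : gd ℓ (g * w ^ i) (w ^ l) + gd ℓ (w ^ l) (g * w ^ j) ≤
        gd ℓ (g * w ^ i) (g * w ^ j) + (2 * Q1 ℓ w c δ + 2 * δ + c) := by omega
    obtain ⟨z', h3, h4⟩ := nearBtw h hyp h2
    have h5 : Btw ℓ (w ^ i) (w ^ j) (g⁻¹ * z') := by
      rw [← btw_left ℓ g, mul_inv_cancel_left]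
      exact h3
    obtain ⟨k, hk⟩ := axis_qc h hyp hc i j _ h5
    refine ⟨k, hB _ ?_⟩
    have h6 : gd ℓ z' (g * w ^ k) ≤ Q0 ℓ w c δ := by
      rw [← gd_left ℓ g, mul_inv_cancel_left] at hk
      exact hk
    have h7 := h.gd_tri (w ^ l) z' (g * w ^ k)
    have h8 : ℓ ((w ^ l)⁻¹ * (g * w ^ k)) = gd ℓ (w ^ l) (g * w ^ k) := rfl
    omega
  choose! s hs using key
  -- pigeonhole
  have hcard : B.card < (Finset.Icc a b).card := by
    rw [Int.card_Icc]
    have : (B.card : ℤ) < b - a := by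
      refine lt_of_le_of_lt ?_ hcon
      exact_mod_cast Nat.le_add_right _ _
    omega
  obtain ⟨l, hl, l', hl', hne, heq⟩ := Finset.exists_ne_map_eq_of_card_lt_of_maps_to hcard
    (f := fun l => (w ^ l)⁻¹ * (g * w ^ s l))
    (fun l hl => by
      have hl2 := Finset.mem_Icc.1 (Finset.mem_coe.1 hl)
      exact hs l hl2.1 hl2.2)
  have heq' : (w ^ l)⁻¹ * (g * w ^ s l) = (w ^ l')⁻¹ * (g * w ^ s l') := heq
  have e1 : g * w ^ (s l - s l') * g⁻¹ = w ^ (l - l') := by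
    have e2 : g * w ^ s l = w ^ l * ((w ^ l')⁻¹ * (g * w ^ s l')) := by
      rw [← heq', mul_inv_cancel_left]
    calc g * w ^ (s l - s l') * g⁻¹ = (g * w ^ s l) * (w ^ s l')⁻¹ * g⁻¹ := by
          rw [zpow_sub]; simp only [mul_assoc]
      _ = w ^ l * ((w ^ l')⁻¹ * (g * w ^ s l')) * (w ^ s l')⁻¹ * g⁻¹ := by rw [e2]
      _ = w ^ (l - l') := by rw [zpow_sub]; group
  have hne2 : l - l' ≠ 0 := sub_ne_zero.2 hne
  have hne3 : s l - s l' ≠ 0 := by
    intro h0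
    rw [h0, zpow_zero, mul_one, mul_inv_cancel] at e1
    exact ax2_zpow_ne_one hw.1 hne2 e1.symm
  obtain ⟨m, hm⟩ := hw.2 g ⟨s l - s l', l - l', hne3, hne2, e1⟩
  exact hg ⟨m, by rw [hm, one_mul]⟩

/-- bounded overlap of different lines -/
theorem axis_overlap (h : GNorm ℓ) {δ : ℕ} (hyp : Hyp ℓ δ) {w : A} (hw : IsRoot w) :
    ∃ θ : ℕ, ∀ g : A, ¬ SameL w 1 g → ∀ i j a b : ℤ,
      Near ℓ w (g * w ^ i) a → Near ℓ w (g * w ^ j) b → |b - a| ≤ θ := by
  have hlox := lox_of_infOrd h hyp hw.1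
  obtain ⟨c, hc⟩ := lox_ax h hyp hlox
  obtain ⟨c0, hc0p, hc0⟩ := hlox
  have hfin := h.fin (2 * Q1 ℓ w c δ + 4 * δ + c + Q0 ℓ w c δ)
  refine ⟨hfin.toFinset.card + c0 * (Q1 ℓ w c δ + δ), fun g hg i j a b ha hb => ?_⟩
  have hB : ∀ u, ℓ u ≤ 2 * Q1 ℓ w c δ + 4 * δ + c + Q0 ℓ w c δ → u ∈ hfin.toFinset := by
    intro u hu
    rw [Set.Finite.mem_toFinset]
    exact hu
  rcases le_total a b with hab | hab
  · rw [abs_of_nonneg (sub_nonneg.2 hab)]
    exact ax2_main h hyp hw hc0 hc _ hB hg ha hb hab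
  · rw [abs_sub_comm, abs_of_nonneg (sub_nonneg.2 hab)]
    exact ax2_main h hyp hw hc0 hc _ hB hg hb ha hab

end L2B
end

section

namespace L2B
variable {A : Type*} [Group A] {ℓ : A → ℕ}

private theorem ax3_bound (h : GNorm ℓ) {w : A} {c0 : ℕ}
    (hc0 : ∀ m : ℕ, m ≤ c0 * ℓ (w ^ m)) (m : ℤ) : |m| ≤ c0 * ℓ (w ^ m) := by
  have hm : m.natAbs ≤ c0 * ℓ (w ^ m) := by
    rcases Int.natAbs_eq m with e | e
    · have h1 := hc0 m.natAbs
      have h2 : w ^ m = w ^ m.natAbs := by conv_lhs => rw [e, zpow_natCast]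
      rw [h2]; exact h1
    · have h1 := hc0 m.natAbs
      have h2 : w ^ m = (w ^ m.natAbs)⁻¹ := by conv_lhs => rw [e, zpow_neg, zpow_natCast]
      rw [h2, h.inv]; exact h1
  rw [Int.abs_eq_natAbs]
  exact_mod_cast hm

private theorem ax3_gd (w : A) (i j : ℤ) : gd ℓ (w ^ i) (w ^ j) = ℓ (w ^ (j - i)) := by
  unfold gd
  congr 1
  rw [← zpow_neg, ← zpow_add]
  congr 1
  ring

private theorem ax3_near_shift (w x : A) (i j : ℤ) :
    Near ℓ w (w ^ i * x) j ↔ Near ℓ w x (j - i) := by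
  have key : ∀ l : ℤ, gd ℓ (w ^ i * x) (w ^ l) = gd ℓ x (w ^ (l - i)) := by
    intro l
    rw [← gd_left ℓ (w ^ i) x, ← zpow_add]
    congr 2
    ring
  unfold Near
  constructor
  · intro hn l
    have := hn (l + i)
    rw [key, key, add_sub_cancel_right] at this
    exact this
  · intro hn l
    rw [key, key]
    exact hn (l - i)

private theorem ax3_exists_e (h : GNorm ℓ) {w : A} (hw : InfOrd w) :
    ∃ e : A → ℤ, (∀ x, Near ℓ w x (e x)) ∧ ∀ x j, Near ℓ w x j → e x ≤ j := by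
  have h1 : ∀ x, ∃ i, Near ℓ w x i ∧ ∀ j, Near ℓ w x j → i ≤ j := by
    intro x
    have hne : (near_finite h hw x).toFinset.Nonempty := by
      obtain ⟨i, hi⟩ := near_exists h w x
      exact ⟨i, (near_finite h hw x).mem_toFinset.2 hi⟩
    refine ⟨(near_finite h hw x).toFinset.min' hne, ?_, fun j hj => ?_⟩
    · exact (near_finite h hw x).mem_toFinset.1 (Finset.min'_mem _ hne)
    · exact Finset.min'_le _ _ ((near_finite h hw x).mem_toFinset.2 hj)
  choose e he1 he2 using h1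
  exact ⟨e, he1, he2⟩

/-- existence of the projection system of a root -/
theorem exists_PS (h : GNorm ℓ) {δ : ℕ} (hyp : Hyp ℓ δ) {w : A} (hw : IsRoot w) :
    ∃ (κ : ℕ) (e : A → ℤ), PS ℓ w κ e ∧ δ ≤ κ := by
  have hlox := lox_of_infOrd h hyp hw.1
  obtain ⟨c, hc⟩ := lox_ax h hyp hlox
  obtain ⟨c0, hc0p, hc0⟩ := hlox
  obtain ⟨θ, hθ⟩ := axis_overlap h hyp hw
  obtain ⟨e, he1, he2⟩ := ax3_exists_e h hw.1
  have hbd := ax3_bound h hc0
  -- near_pass in a convenient form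
  have hpass : ∀ x z (i j : ℤ), Near ℓ w x i → Near ℓ w z j →
      ((c0 * (Q1 ℓ w c δ + δ) : ℕ) : ℤ) < |j - i| →
      gd ℓ x (w ^ i) + ℓ (w ^ (j - i)) + gd ℓ (w ^ j) z ≤
        gd ℓ x z + 2 * Q1 ℓ w c δ + 2 * δ := by
    intro x z i j hi hj hlt
    refine near_pass h hyp hc x z i j hi hj ?_
    by_contra hcon
    push Not at hcon
    have h1 := hbd (j - i)
    have h2 : c0 * ℓ (w ^ (j - i)) ≤ c0 * (Q1 ℓ w c δ + δ) := Nat.mul_le_mul_left _ hcon
    have h3 : ((c0 * ℓ (w ^ (j - i)) : ℕ) : ℤ) ≤ ((c0 * (Q1 ℓ w c δ + δ) : ℕ) : ℤ) := by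
      exact_mod_cast h2
    push_cast at h3 hlt
    linarith
  obtain ⟨Q2, hQ2⟩ : ∃ Q2, Q2 = 2 * Q1 ℓ w c δ + 2 * δ := ⟨_, rfl⟩
  obtain ⟨k1, hk1⟩ : ∃ k1, k1 = c0 * (Q1 ℓ w c δ + δ) := ⟨_, rfl⟩
  obtain ⟨k2, hk2⟩ : ∃ k2, k2 = c0 * (Q1 ℓ w c δ + δ + 2 * Q2) := ⟨_, rfl⟩
  obtain ⟨k3, hk3⟩ : ∃ k3, k3 = c0 * Q2 := ⟨_, rfl⟩
  obtain ⟨κ, hκ⟩ : ∃ κ, κ = θ + k1 + k2 + k3 + c0 + Q2 + Q0 ℓ w c δ + c + δ + 1 := ⟨_, rfl⟩
  have hk12 : k1 ≤ k2 := by
    rw [hk1, hk2]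
    exact Nat.mul_le_mul_left _ (by omega)
  have hoverlap : ∀ g, ¬ SameL w 1 g → ∀ i j : ℤ, |e (g * w ^ i) - e (g * w ^ j)| ≤ θ :=
    fun g hg i j => hθ g hg j i _ _ (he1 _) (he1 _)
  refine ⟨κ, e, ?_, by omega⟩
  refine ⟨by omega, ?_, ?_, ?_, ?_, ?_, ?_, ?_, ?_, ?_⟩
  · -- shift
    intro i x
    have h1 : e (w ^ i * x) ≤ e x + i := by
      refine he2 _ _ ?_
      rw [ax3_near_shift, add_sub_cancel_right]
      exact he1 x
    have h2 : e x ≤ e (w ^ i * x) - i := by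
      refine he2 _ _ ?_
      rw [← ax3_near_shift]
      exact he1 _
    omega
  · -- one
    have h1 := he1 1 0
    rw [gd_one, gd_one, zpow_zero, h.one] at h1
    have h2 := h.eq_one _ (Nat.le_zero.1 h1)
    have h3 := hbd (e 1)
    rw [h2, h.one] at h3
    have h4 : |e 1| ≤ 0 := by simpa using h3
    exact abs_nonpos_iff.1 h4
  · -- lip
    intro x z
    by_cases hlt : (k1 : ℤ) < |e z - e x|
    · rw [hk1] at hlt
      have h1 := hpass x z _ _ (he1 x) (he1 z) hlt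
      have h2 := hbd (e z - e x)
      have h3 : c0 * ℓ (w ^ (e z - e x)) ≤ c0 * (gd ℓ x z + Q2) :=
        Nat.mul_le_mul_left _ (by omega)
      have h4 : c0 * (gd ℓ x z + Q2) ≤ κ * (gd ℓ x z + 1) := by
        rw [mul_add, mul_add, ← hk3, mul_one]
        refine Nat.add_le_add (Nat.mul_le_mul_right _ (by omega)) (by omega)
      calc |e z - e x| ≤ (c0 : ℤ) * ℓ (w ^ (e z - e x)) := h2
        _ = ((c0 * ℓ (w ^ (e z - e x)) : ℕ) : ℤ) := by push_cast; ring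
        _ ≤ ((κ * (gd ℓ x z + 1) : ℕ) : ℤ) := by exact_mod_cast h3.trans h4
        _ = (κ : ℤ) * (gd ℓ x z + 1) := by push_cast; ring
    · push Not at hlt
      have h5 : (k1 : ℤ) ≤ κ := by exact_mod_cast (by omega : k1 ≤ κ)
      have h6 : (0 : ℤ) ≤ κ * gd ℓ x z := by positivity
      calc |e z - e x| ≤ κ := hlt.trans h5
        _ ≤ κ * (gd ℓ x z + 1) := by rw [mul_add, mul_one]; linarith
  · -- low
    intro i
    have h1 := hbd i
    have h2 : (c0 : ℤ) ≤ κ := by exact_mod_cast (by omega : c0 ≤ κ)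
    have h3 : (0 : ℤ) ≤ ℓ (w ^ i) := by positivity
    have h4 : (0 : ℤ) ≤ κ := by positivity
    nlinarith
  · -- overlap
    intro g hg i j
    refine (hoverlap g hg i j).trans ?_
    exact_mod_cast (by omega : θ ≤ κ)
  · -- behr
    intro g x hg
    by_cases hall : ∀ i : ℤ, |e (g * w ^ i) - e x| ≤ κ
    · exact Or.inl hall
    · right
      push Not at hall
      obtain ⟨i0, hi0⟩ := hall
      have hg' : ¬ SameL w 1 g⁻¹ := by
        rintro ⟨i, hi⟩
        refine hg ⟨-i, ?_⟩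
        rw [one_mul] at hi ⊢
        rw [zpow_neg, ← hi, inv_inv]
      obtain ⟨s, hs⟩ : ∃ s, s = e (g⁻¹ * x) := ⟨_, rfl⟩
      obtain ⟨a, ha⟩ : ∃ a, a = e x := ⟨_, rfl⟩
      obtain ⟨b, hb⟩ : ∃ b, b = e (g * w ^ s) := ⟨_, rfl⟩
      obtain ⟨s', hs'⟩ : ∃ s', s' = e (g⁻¹ * w ^ a) := ⟨_, rfl⟩
      have hov := hoverlap g hg i0 s
      rw [← hb] at hov
      rw [← ha] at hi0
      have hkκ : (κ : ℤ) = θ + k1 + k2 + k3 + c0 + Q2 + Q0 ℓ w c δ + c + δ + 1 := by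
        rw [hκ]; push_cast; ring
      have hfar : ((c0 * (Q1 ℓ w c δ + δ) : ℕ) : ℤ) < |b - a| := by
        rw [← hk1]
        have e1 : |e (g * w ^ i0) - a| ≤ |e (g * w ^ i0) - b| + |b - a| := abs_sub_le _ _ _
        have : (0 : ℤ) ≤ k2 + k3 + c0 + Q2 + Q0 ℓ w c δ + c + δ + 1 := by positivity
        linarith
      have p1 := hpass x (g * w ^ s) a b (by rw [ha]; exact he1 x) (by rw [hb]; exact he1 _) hfar
      have t1 := h.gd_tri (w ^ a) (w ^ b) (g * w ^ s)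
      rw [ax3_gd] at t1
      -- bound of s' - s
      have hlen : ℓ (w ^ (s' - s)) ≤ Q1 ℓ w c δ + δ + 2 * Q2 := by
        by_contra hcon
        push Not at hcon
        have hnp := near_pass h hyp hc (g⁻¹ * x) (g⁻¹ * w ^ a) s s' (by rw [hs]; exact he1 _)
          (by rw [hs']; exact he1 _) (by omega)
        have g1 : gd ℓ (g⁻¹ * x) (w ^ s) = gd ℓ x (g * w ^ s) := by
          rw [← gd_left ℓ g, mul_inv_cancel_left]
        have g2 : gd ℓ (w ^ s') (g⁻¹ * w ^ a) = gd ℓ (g * w ^ s') (w ^ a) := by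
          rw [← gd_left ℓ g, mul_inv_cancel_left]
        have g3 : gd ℓ (g⁻¹ * x) (g⁻¹ * w ^ a) = gd ℓ x (w ^ a) := gd_left ℓ g⁻¹ x (w ^ a)
        rw [g1, g2, g3] at hnp
        omega
      have hss : |s' - s| ≤ (k2 : ℤ) := by
        have h1 := hbd (s' - s)
        have h2 : c0 * ℓ (w ^ (s' - s)) ≤ k2 := by
          rw [hk2]
          exact Nat.mul_le_mul_left _ hlen
        have h3 : ((c0 * ℓ (w ^ (s' - s)) : ℕ) : ℤ) ≤ k2 := by exact_mod_cast h2
        push_cast at h3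
        linarith
      intro i
      have hov2 := hoverlap g⁻¹ hg' i a
      rw [← hs'] at hov2
      rw [← hs]
      have e2 : |e (g⁻¹ * w ^ i) - s| ≤ |e (g⁻¹ * w ^ i) - s'| + |s' - s| := abs_sub_le _ _ _
      have : (0 : ℤ) ≤ k1 + k3 + c0 + Q2 + Q0 ℓ w c δ + c + δ + 1 := by positivity
      linarith
  · -- pass
    intro x z hlt
    have h1 : ((c0 * (Q1 ℓ w c δ + δ) : ℕ) : ℤ) < |e z - e x| := by
      rw [← hk1]
      have : (k1 : ℤ) ≤ κ := by exact_mod_cast (by omega : k1 ≤ κ)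
      linarith
    have h2 := hpass x z _ _ (he1 x) (he1 z) h1
    omega
  · -- ax
    intro i j
    have := hc i j
    omega
  · -- qc
    intro i j z hz
    obtain ⟨k, hk⟩ := axis_qc h hyp hc i j z hz
    exact ⟨k, by omega⟩

end L2B
end

section

/-! # Lower bound: groups given by relators `w ^ m` -/

noncomputable section

namespace MP42532b.L2

variable {G : Type*} [Group G] {d : ℕ} (s : Fin d → G)

/-- a function on `G` fixed by right translation by `c` is constant on the cosets of `⟨c⟩` -/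
theorem mem_invR_zpowers (c : G) (u : Hi G Unit) (h : ∀ g, u (g * c, ()) = u (g, ())) :
    u ∈ invR (Subgroup.zpowers c) := by
  intro g x hx
  obtain ⟨n, rfl⟩ := Subgroup.mem_zpowers_iff.1 hx
  have hinv : ∀ g, u (g * c⁻¹, ()) = u (g, ()) := fun g => by
    rw [← h (g * c⁻¹), inv_mul_cancel_right]
  have hpos : ∀ (k : ℕ) (g : G), u (g * c ^ k, ()) = u (g, ()) := by
    intro k
    induction k with
    | zero => intro g; rw [pow_zero, mul_one]
    | succ k ih => intro g; rw [pow_succ, ← mul_assoc, h, ih]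
  have hneg : ∀ (k : ℕ) (g : G), u (g * (c ^ k)⁻¹, ()) = u (g, ()) := by
    intro k g
    rw [← hpos k (g * (c ^ k)⁻¹), inv_mul_cancel_right]
  obtain ⟨k, rfl | rfl⟩ := n.eq_nat_or_neg
  · rw [zpow_natCast]
    exact hpos k g
  · rw [zpow_neg, zpow_natCast]
    exact hneg k g

/-- the relation module of one relator `w ^ m` has dimension at most `1 / m` -/
theorem vdim_ker_orth_le (w : FreeGroup (Fin d)) (m : ℕ) (hm : 0 < m)
    (hw : orderOf (FreeGroup.lift s w) = m) (D : Hi G (Fin d) →L[ℝ] Hi G Unit) (hD : Equivar D)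
    (hD' : ∀ v g, D v (g, ()) = pint s v g (w ^ m)) :
    vdim (D : Hi G (Fin d) →ₗ[ℝ] Hi G Unit).kerᗮ ≤ 1 / m := by
  rw [rank_nullity hD]
  have hpow : FreeGroup.lift s w ^ m = 1 := by
    rw [← hw]
    exact pow_orderOf_eq_one _
  have hfin : Finite (Subgroup.zpowers (FreeGroup.lift s w)) := by
    refine Nat.finite_of_card_ne_zero ?_
    rw [Nat.card_zpowers, hw]
    exact hm.ne'
  have hle : (D : Hi G (Fin d) →ₗ[ℝ] Hi G Unit).range ≤
      invR (Subgroup.zpowers (FreeGroup.lift s w)) := by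
    rintro _ ⟨v, rfl⟩
    refine mem_invR_zpowers _ _ fun g => ?_
    change D v (g * FreeGroup.lift s w, ()) = D v (g, ())
    rw [hD', hD']
    exact pint_pow_shift s v w m hpow g
  calc vdim (D : Hi G (Fin d) →ₗ[ℝ] Hi G Unit).range
      ≤ vdim (invR (Subgroup.zpowers (FreeGroup.lift s w))) := vdim_mono hle
    _ = 1 / Nat.card (Subgroup.zpowers (FreeGroup.lift s w)) := vdim_invR _
    _ = 1 / m := by rw [Nat.card_zpowers, hw]

/-- **lower bound for the first `L²`-Betti number** -/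
theorem beta_ge {J : Type*} (hs : Function.Surjective (FreeGroup.lift s))
    (w : J → FreeGroup (Fin d)) (m : J → ℕ) (hm : ∀ j, 0 < m j)
    (hord : ∀ j, orderOf (FreeGroup.lift s (w j)) = m j)
    (hker : (FreeGroup.lift s).ker = Subgroup.normalClosure (Set.range fun j => w j ^ m j))
    (σ : ℝ) (hσ : ∀ F : Finset J, ∑ j ∈ F, (1 : ℝ) / m j ≤ σ) : (d : ℝ) - 1 - σ ≤ beta s := by
  choose D hD hD' using fun j => exists_pathOp s (w j ^ m j)
  obtain ⟨A, hA', hA⟩ := exists_gradOp s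
  have hgrad : gradS s = (⨆ j, (D j : Hi G (Fin d) →ₗ[ℝ] Hi G Unit).kerᗮ)ᗮ := by
    rw [← Submodule.iInf_orthogonal]
    ext v
    rw [mem_gradS_iff s hs _ hker v, Submodule.mem_iInf]
    have hkk : ∀ j, (D j : Hi G (Fin d) →ₗ[ℝ] Hi G Unit).kerᗮᗮ =
        (D j : Hi G (Fin d) →ₗ[ℝ] Hi G Unit).ker := fun j => by
      rw [Submodule.orthogonal_orthogonal_eq_closure]
      exact IsClosed.submodule_topologicalClosure_eq (D j).isClosed_ker
    constructor
    · intro h j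
      rw [hkk j, LinearMap.mem_ker]
      change D j v = 0
      ext p
      obtain ⟨g, u⟩ := p
      cases u
      rw [hD']
      exact h _ ⟨j, rfl⟩ g
    · rintro h _ ⟨j, rfl⟩ g
      have h1 := h j
      rw [hkk j, LinearMap.mem_ker] at h1
      change D j v = 0 at h1
      rw [← hD' j v g, h1]
      rfl
  have h1 : vdim (⨆ j, (D j : Hi G (Fin d) →ₗ[ℝ] Hi G Unit).kerᗮ) ≤ σ := by
    refine vdim_iSup_le _ (fun j => (Invar.ker (hD j)).orthogonal) σ fun F => ?_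
    exact (Finset.sum_le_sum fun j _ =>
      vdim_ker_orth_le s (w j) (m j) (hm j) (hord j) (D j) (hD j) (hD' j)).trans (hσ F)
  have h2 := vdim_orth (⨆ j, (D j : Hi G (Fin d) →ₗ[ℝ] Hi G Unit).kerᗮ)
  rw [← hgrad, Fintype.card_fin] at h2
  have h3 := vdim_gradS s hs hA
  have h4 := vdim_range_gradOp_le hA'
  linarith

end MP42532b.L2
end
end

section

namespace L2B
variable {A : Type*} [Group A] {ℓ : A → ℕ}

/-- (8.4) -/
theorem qc_quot (h : GNorm ℓ) {δ : ℕ} (hyp : Hyp ℓ δ) {w : A} {e : A → ℤ} {κ : ℕ}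
    (ps : PS ℓ w κ e) (hw : InfOrd w) (H : Subgroup A) (c : ℕ) (hQ : QCs ℓ (H : Set A) c)
    (hM : MN H) (C : ℕ) : ∃ N : ℕ, ∀ n : ℕ, N ≤ n → Green w e n C →
      ∀ (A' : Type) [Group A'] (q : A →* A') (ℓ' : A' → ℕ), Function.Surjective q → q.ker = KK w n → QNorm q ℓ ℓ' →
        QCs ℓ' ((H.map q : Subgroup A') : Set A') c := by
  obtain ⟨N, hN⟩ := short_lift h hyp ps hw H c hQ hM C
  refine ⟨N, fun n hn hG A' _ q ℓ' hq hker hqn => ?_⟩
  rintro _ ⟨x, hx, rfl⟩ _ ⟨y0, hy0, rfl⟩ z' hz'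
  obtain ⟨z, rfl, hz1⟩ := hqn.lift_gd x z'
  obtain ⟨y, hyq, hy1⟩ := hqn.lift_gd z (q y0)
  have hxH : x ∈ H := hx
  have hyH0 : y0 ∈ H := hy0
  have hle := hqn.gd_le x y
  rw [hyq] at hle
  have htri := h.gd_tri x z y
  unfold Btw at hz'
  have hb : Btw ℓ x y z := by unfold Btw; omega
  have heq : gd ℓ x y = gd ℓ' (q x) (q y0) := by unfold Btw at hb; omega
  have hyH : y ∈ H := by
    refine hN n hn hG x y ⟨x, hxH, by rw [h.gd_self]; exact Nat.zero_le _⟩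
      ⟨y * y0⁻¹, ?_, y0, hyH0, by group⟩ ?_
    · rw [← hker, MonoidHom.mem_ker, map_mul, map_inv, hyq, mul_inv_cancel]
    · intro k hk
      have h1 := hqn.gd_le x (k * y)
      have h2 : q k = 1 := by
        rw [← hker, MonoidHom.mem_ker] at hk
        exact hk
      rw [map_mul, h2, one_mul, hyq] at h1
      omega
  obtain ⟨a, haH, ha⟩ := hQ x hxH y hyH z hb
  refine ⟨q a, ⟨a, haH, rfl⟩, ?_⟩
  exact (hqn.gd_le z a).trans ha

/-- (8.5) -/
theorem ker_gen (h : GNorm ℓ) {δ : ℕ} (hyp : Hyp ℓ δ) {w : A} {e : A → ℤ} {κ : ℕ}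
    (ps : PS ℓ w κ e) (hw : InfOrd w) (H : Subgroup A) (c : ℕ) (hQ : QCs ℓ (H : Set A) c)
    (hM : MN H) (C : ℕ) : ∃ N : ℕ, ∀ n : ℕ, N ≤ n → Green w e n C →
      ∀ x ∈ H, x ∈ KK w n → x ∈ Subgroup.closure {u : A | ∃ a ∈ H, ∃ f : A,
        f * w * f⁻¹ ∈ H ∧ ℓ f ≤ cY κ δ c ∧ u = a * (f * w ^ n * f⁻¹) * a⁻¹} := by
  obtain ⟨τ, hτ⟩ := par_of_far h hyp ps hw H c hQ hM 0
  refine ⟨2 * C + k2 κ + τ + 1, fun n hn hG => ?_⟩
  set S : Set A := {u : A | ∃ a ∈ H, ∃ f : A,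
        f * w * f⁻¹ ∈ H ∧ ℓ f ≤ cY κ δ c ∧ u = a * (f * w ^ n * f⁻¹) * a⁻¹} with hS
  suffices hmain : ∀ m : ℕ, ∀ x ∈ H, x ∈ KK w n → ℓ x = m → x ∈ Subgroup.closure S from
    fun x hx hk => hmain _ x hx hk rfl
  intro m
  induction m using Nat.strong_induction_on with
  | _ m ih =>
    intro x hxH hxK hxm
    by_cases hx1 : x = 1
    · rw [hx1]; exact one_mem _
    obtain ⟨g, hg⟩ := hG x hxK hx1 1
    rw [mul_one] at hg
    have hgH : g * w * g⁻¹ ∈ H := by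
      refine hτ g 1 x ⟨1, one_mem _, by rw [h.gd_self]⟩ ⟨x, hxH, by rw [h.gd_self]⟩ ?_
      have h1 : ((2 * C + k2 κ + τ + 1 : ℕ) : ℤ) ≤ (n : ℤ) := by exact_mod_cast hn
      push_cast at h1
      omega
    -- the conjugate of `w ^ n` is in the closure
    have hgen : g * w ^ n * g⁻¹ ∈ Subgroup.closure S := by
      obtain ⟨a, haH, ha⟩ := par_near h hyp ps hw H c hQ g hgH
      refine Subgroup.subset_closure ⟨a, haH, a⁻¹ * g, ?_, ?_, ?_⟩
      · have e1 : a⁻¹ * g * w * (a⁻¹ * g)⁻¹ = a⁻¹ * (g * w * g⁻¹) * a := by group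
        rw [e1]
        exact mul_mem (mul_mem (inv_mem haH) hgH) haH
      · have e1 : a⁻¹ * g = (g⁻¹ * a)⁻¹ := by group
        rw [e1, h.inv]
        exact ha
      · group
    have hpow : ∀ j : ℤ, g * w ^ j * g⁻¹ ∈ H := by
      intro j
      have e1 : g * w ^ j * g⁻¹ = (g * w * g⁻¹) ^ j := (conj_zpow).symm
      rw [e1]
      exact zpow_mem hgH j
    have hK : g * w ^ n * g⁻¹ ∈ KK w n := by
      have h1 : w ^ n ∈ KK w n := Subgroup.subset_normalClosure rfl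
      exact (Subgroup.normalClosure_normal).conj_mem _ h1 g
    have hcase : ℓ (g * w ^ (n : ℤ) * g⁻¹ * x) < ℓ x ∨ ℓ (g * w ^ (-(n : ℤ)) * g⁻¹ * x) < ℓ x := by
      by_contra hcon
      push Not at hcon
      have h1 := sp_bound h (e := e) (κ := κ) (n := n) ps (by omega) 1 x g
        (by rw [gd_one, gd_one]; exact hcon.1) (by rw [gd_one, gd_one]; exact hcon.2)
      have h2 : ((2 * C + k2 κ + τ + 1 : ℕ) : ℤ) ≤ (n : ℤ) := by exact_mod_cast hn
      push_cast at h2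
      omega
    rcases hcase with hc | hc
    · have h1 : g * w ^ (n : ℤ) * g⁻¹ * x ∈ Subgroup.closure S := by
        refine ih _ (by rw [← hxm]; exact hc) _ (mul_mem (hpow n) hxH) ?_ rfl
        rw [zpow_natCast]
        exact mul_mem hK hxK
      have h2 : x = (g * w ^ n * g⁻¹)⁻¹ * (g * w ^ (n : ℤ) * g⁻¹ * x) := by
        rw [zpow_natCast]; group
      rw [h2]
      exact mul_mem (inv_mem hgen) h1
    · have h0 : g * w ^ (-(n : ℤ)) * g⁻¹ = (g * w ^ n * g⁻¹)⁻¹ := by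
        rw [zpow_neg, zpow_natCast]; group
      have h1 : g * w ^ (-(n : ℤ)) * g⁻¹ * x ∈ Subgroup.closure S := by
        refine ih _ (by rw [← hxm]; exact hc) _ (mul_mem (hpow _) hxH) ?_ rfl
        rw [h0]
        exact mul_mem (inv_mem hK) hxK
      have h2 : x = (g * w ^ n * g⁻¹) * (g * w ^ (-(n : ℤ)) * g⁻¹ * x) := by
        rw [h0]; group
      rw [h2]
      exact mul_mem hgen h1

end L2B
end

section

namespace L2B
variable {A : Type*} [Group A] {ℓ : A → ℕ}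

private theorem s4_pow_le (h : GNorm ℓ) (w : A) (m : ℕ) : ℓ (w ^ m) ≤ m * ℓ w := by
  induction m with
  | zero => simp [h.one]
  | succ m ih =>
    rw [pow_succ]
    have := h.mul (w ^ m) w
    nlinarith

private theorem s4_zpow_le (h : GNorm ℓ) (w : A) (i : ℤ) : ℓ (w ^ i) ≤ i.natAbs * ℓ w := by
  rcases Int.natAbs_eq i with e | e
  · have h1 : w ^ i = w ^ i.natAbs := by conv_lhs => rw [e, zpow_natCast]
    rw [h1]; exact s4_pow_le h w _
  · have h1 : w ^ i = (w ^ i.natAbs)⁻¹ := by conv_lhs => rw [e, zpow_neg, zpow_natCast]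
    rw [h1, h.inv]; exact s4_pow_le h w _

private theorem s4_conj {g : A} (hg : InfOrd g) (b : A) : InfOrd (b * g * b⁻¹) := by
  intro m hm he
  rw [conj_pow] at he
  apply hg m hm
  have h1 : b * g ^ m = b := by
    have := congrArg (· * b) he
    simpa using this
  simpa using h1

private theorem s4_pow_inj {g : A} (hg : InfOrd g) : Function.Injective (fun j : ℕ => g ^ (j + 1)) := by
  have key : ∀ a b : ℕ, a < b → g ^ (a + 1) ≠ g ^ (b + 1) := by
    intro a b hab he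
    apply hg (b - a) (by omega)
    have h1 : g ^ (b + 1) = g ^ (a + 1) * g ^ (b - a) := by
      rw [← pow_add]; congr 1; omega
    rw [h1] at he
    exact (mul_eq_left.mp he.symm)
  intro a b he
  by_contra hne
  rcases lt_or_gt_of_ne hne with h1 | h1
  · exact key a b h1 he
  · exact key b a h1 he.symm

private theorem s4_pow_large (h : GNorm ℓ) {g : A} (hg : InfOrd g) (B : ℕ) :
    ∃ j, 1 ≤ j ∧ B < ℓ (g ^ j) := by
  by_contra hcon
  push Not at hcon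
  have h1 : (Set.range (fun j : ℕ => g ^ (j + 1))).Finite := by
    refine (h.fin B).subset ?_
    rintro _ ⟨j, rfl⟩
    exact hcon (j + 1) (by omega)
  exact Set.infinite_range_of_injective (s4_pow_inj hg) h1

/-- bound of the displacement along a line when one of the end projections is close to a far point -/
private theorem s4_U (h : GNorm ℓ) {w : A} {e : A → ℤ} {κ : ℕ}
    (ps : PS ℓ w κ e) (m D : ℕ) (g x z : A) (hxz : gd ℓ x z ≤ m)
    (hs : (∃ s, gd ℓ (g * w ^ e (g⁻¹ * x)) s ≤ D ∧ m ≤ gd ℓ s x) ∨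
      (∃ s, gd ℓ (g * w ^ e (g⁻¹ * z)) s ≤ D ∧ m ≤ gd ℓ s z)) :
    |dl e g x z| ≤ (κ + κ * (κ + D + 1) : ℕ) := by
  by_contra hcon
  push Not at hcon
  have hlt : (κ : ℤ) < |dl e g x z| := by
    refine lt_of_le_of_lt ?_ hcon
    exact_mod_cast Nat.le_add_right _ _
  have hp := ps.pass (g⁻¹ * x) (g⁻¹ * z) hlt
  rw [gd_left] at hp
  have e1 : gd ℓ (g⁻¹ * x) (w ^ e (g⁻¹ * x)) = gd ℓ x (g * w ^ e (g⁻¹ * x)) := by
    rw [← gd_left ℓ g, mul_inv_cancel_left]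
  have e2 : gd ℓ (w ^ e (g⁻¹ * z)) (g⁻¹ * z) = gd ℓ (g * w ^ e (g⁻¹ * z)) z := by
    rw [← gd_left ℓ g, mul_inv_cancel_left]
  rw [e1, e2] at hp
  have hl : ℓ (w ^ (e (g⁻¹ * z) - e (g⁻¹ * x))) ≤ κ + D := by
    rcases hs with ⟨s, s1, s2⟩ | ⟨s, s1, s2⟩
    · have t1 := h.gd_tri s (g * w ^ e (g⁻¹ * x)) x
      have c1 := h.gd_comm s (g * w ^ e (g⁻¹ * x))
      have c2 := h.gd_comm (g * w ^ e (g⁻¹ * x)) x
      omega
    · have t1 := h.gd_tri s (g * w ^ e (g⁻¹ * z)) z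
      have c1 := h.gd_comm s (g * w ^ e (g⁻¹ * z))
      omega
  have hlow := ps.low (e (g⁻¹ * z) - e (g⁻¹ * x))
  have hlow2 : ((κ : ℤ) * (ℓ (w ^ (e (g⁻¹ * z) - e (g⁻¹ * x))) + 1)) ≤ κ * (κ + D + 1) := by
    apply mul_le_mul_of_nonneg_left _ (by positivity)
    exact_mod_cast Nat.add_le_add_right hl 1
  have hlow3 : |dl e g x z| ≤ κ * (κ + D + 1) := le_trans hlow hlow2
  push_cast at hcon
  have : (0 : ℤ) ≤ κ := by positivity
  omega

private theorem s4_core (h : GNorm ℓ) {δ : ℕ} (hyp : Hyp ℓ δ) {w : A} {e : A → ℤ} {κ : ℕ}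
    (ps : PS ℓ w κ e) (hw : InfOrd w) (H : Subgroup A) (c : ℕ) (hQ : QCs ℓ (H : Set A) c)
    (hM : MN H) (C τ : ℕ)
    (hτ : ∀ g x y : A, (∃ a ∈ H, gd ℓ x a ≤ 0) →
      (∃ b ∈ H, gd ℓ y b ≤ 0) → (τ : ℤ) ≤ |dl e g x y| → g * w * g⁻¹ ∈ H)
    (n : ℕ) (hn : 2 * C + k2 κ + 4 * τ + 4 * (κ + κ * (κ + cY κ δ c + 1)) + 2 * κ < n)
    (hG : Green w e n C) {A' : Type*} [Group A'] (q : A →* A') (ℓ' : A' → ℕ)
    (hker : q.ker = KK w n) (hqn : QNorm q ℓ ℓ') (β : A)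
    (hβ : ℓ β = ℓ' (q β)) (hmin : ∀ a ∈ H, ∀ b ∈ H, ℓ β ≤ ℓ' (q (a * β * b)))
    (η1 η2 : A) (hη1 : η1 ∈ H) (hη2 : η2 ∈ H) (e1 : ℓ η1 = ℓ' (q η1)) (e2 : ℓ η2 = ℓ' (q η2))
    (hinf : InfOrd η1) (hconj : q (β * η1) = q (η2 * β))
    (hinv' : ∀ u, ℓ' u⁻¹ = ℓ' u)
    (hbig : 2 * ℓ β + 2 * κ + τ * ℓ w < ℓ η2) : β ∈ H := by
  have hkmem : β * η1 * (η2 * β)⁻¹ ∈ KK w n := by
    rw [← hker, MonoidHom.mem_ker, map_mul, map_inv, hconj, mul_inv_cancel]
  have qK : ∀ k ∈ KK w n, q k = 1 := by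
    intro k hk
    rw [← hker] at hk
    exact hk
  -- shortest pairs
  have sp : ∀ x y g : A, gd ℓ x y ≤ ℓ' (q (x⁻¹ * y)) → 2 * |dl e g x y| ≤ n + k2 κ := by
    intro x y g hxy
    have key : ∀ i : ℤ, w ^ i ∈ KK w n → gd ℓ x y ≤ gd ℓ x (g * w ^ i * g⁻¹ * y) := by
      intro i hi
      have hn' : g * w ^ i * g⁻¹ ∈ KK w n :=
        (Subgroup.normalClosure_normal (s := {w ^ n})).conj_mem _ hi g
      have h1 := hqn.le (x⁻¹ * (g * w ^ i * g⁻¹ * y))
      rw [map_mul, map_mul, qK _ hn', one_mul, ← map_mul] at h1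
      exact le_trans hxy h1
    have hwn : w ^ (n : ℤ) ∈ KK w n := by
      rw [zpow_natCast]
      exact Subgroup.subset_normalClosure rfl
    have hwn' : w ^ (-(n : ℤ)) ∈ KK w n := by
      rw [zpow_neg]
      exact (KK w n).inv_mem hwn
    exact sp_bound h ps (by omega) x y g (key _ hwn) (key _ hwn')
  by_cases hk1 : β * η1 * (η2 * β)⁻¹ = 1
  · -- trivial element
    apply hM β η1 hη1 hinf
    have h1 : β * η1 * β⁻¹ = η2 := by
      have := mul_inv_eq_one.mp hk1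
      rw [this]; group
    rw [h1]; exact hη2
  · by_contra hβH
    obtain ⟨g, hg⟩ := hG _ hkmem hk1 (η2 * β)
    have hx : β * η1 * (η2 * β)⁻¹ * (η2 * β) = β * η1 := by group
    rw [hx] at hg
    -- four displacements
    have hsum : dl e g (η2 * β) (β * η1) =
        dl e g (η2 * β) η2 + dl e g η2 1 + dl e g 1 β + dl e g β (β * η1) := by
      rw [dl_add, dl_add, dl_add]
    have d1 : gd ℓ (η2 * β) η2 = ℓ β := by
      unfold gd
      rw [← h.inv β]; congr 1; group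
    have d3 : gd ℓ 1 β = ℓ β := gd_one ℓ β
    have d2 : gd ℓ η2 1 = ℓ η2 := by rw [h.gd_comm, gd_one]
    have d4 : gd ℓ β (β * η1) = ℓ η1 := by
      unfold gd; congr 1; group
    have b1 := sp (η2 * β) η2 g (by
      rw [d1, hβ, ← hinv', ← map_inv]
      apply le_of_eq; congr 2; group)
    have b2 := sp η2 1 g (by
      rw [d2, e2, ← hinv', ← map_inv, mul_one])
    have b3 := sp 1 β g (by
      rw [d3, hβ, inv_one, one_mul])
    have b4 := sp β (β * η1) g (by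
      rw [d4, e1]; apply le_of_eq; congr 2; group)
    have nP : ¬ (g * w * g⁻¹ ∈ H) → |dl e g η2 1| < τ := by
      intro hP
      by_contra hc
      push Not at hc
      exact hP (hτ g η2 1 ⟨η2, hη2, le_of_eq (h.gd_self _)⟩ ⟨1, H.one_mem, le_of_eq (h.gd_self _)⟩ hc)
    have nP' : ¬ (β⁻¹ * g * w * (β⁻¹ * g)⁻¹ ∈ H) → |dl e g β (β * η1)| < τ := by
      intro hP
      by_contra hc
      push Not at hc
      apply hP
      apply hτ (β⁻¹ * g) 1 η1 ⟨1, H.one_mem, le_of_eq (h.gd_self _)⟩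
        ⟨η1, hη1, le_of_eq (h.gd_self _)⟩
      have h1 := dl_left e β⁻¹ g β (β * η1)
      rw [inv_mul_cancel, inv_mul_cancel_left] at h1
      rw [h1]; exact hc
    have nPP' : ¬ (g * w * g⁻¹ ∈ H ∧ β⁻¹ * g * w * (β⁻¹ * g)⁻¹ ∈ H) := by
      rintro ⟨h1, h2⟩
      apply hβH
      have h3 := hM β⁻¹ _ h1 (s4_conj hw g) (by
        have : β⁻¹ * (g * w * g⁻¹) * β⁻¹⁻¹ = β⁻¹ * g * w * (β⁻¹ * g)⁻¹ := by group
        rw [this]; exact h2)
      simpa using H.inv_mem h3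
    -- points of `H` near the line
    have near1 : g * w * g⁻¹ ∈ H → ∀ i : ℤ, ∃ a ∈ H, gd ℓ (g * w ^ i) a ≤ cY κ δ c := by
      intro hP i
      apply par_near h hyp ps hw H c hQ
      have : g * w ^ i * w * (g * w ^ i)⁻¹ = g * w * g⁻¹ := by group
      rw [this]; exact hP
    have near2 : β⁻¹ * g * w * (β⁻¹ * g)⁻¹ ∈ H → ∀ i : ℤ,
        ∃ a ∈ H, gd ℓ (g * w ^ i) (β * a) ≤ cY κ δ c := by
      intro hP i
      obtain ⟨a, ha, ha2⟩ := par_near h hyp ps hw H c hQ (β⁻¹ * g * w ^ i) (by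
        have : β⁻¹ * g * w ^ i * w * (β⁻¹ * g * w ^ i)⁻¹ = β⁻¹ * g * w * (β⁻¹ * g)⁻¹ := by group
        rw [this]; exact hP)
      refine ⟨a, ha, ?_⟩
      rw [← gd_left ℓ β⁻¹, inv_mul_cancel_left, ← mul_assoc]
      exact ha2
    have m1 : ∀ a ∈ H, ∀ b ∈ H, ∀ u : A, u = a * β * b → ℓ β ≤ ℓ u := by
      intro a ha b hb u hu
      rw [hu]
      exact le_trans (hmin a ha b hb) (hqn.le _)
    have hB : (g * w * g⁻¹ ∈ H ∨ β⁻¹ * g * w * (β⁻¹ * g)⁻¹ ∈ H) →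
        |dl e g (η2 * β) η2| ≤ (κ + κ * (κ + cY κ δ c + 1) : ℕ) ∧
        |dl e g 1 β| ≤ (κ + κ * (κ + cY κ δ c + 1) : ℕ) := by
      intro hPP
      rcases hPP with hP | hP
      · constructor
        · apply s4_U h ps (ℓ β) (cY κ δ c) g _ _ (le_of_eq d1)
          left
          obtain ⟨a, ha, ha2⟩ := near1 hP (e (g⁻¹ * (η2 * β)))
          refine ⟨a, ha2, ?_⟩
          unfold gd
          exact m1 (a⁻¹ * η2) (H.mul_mem (H.inv_mem ha) hη2) 1 H.one_mem _ (by group)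
        · apply s4_U h ps (ℓ β) (cY κ δ c) g _ _ (le_of_eq d3)
          right
          obtain ⟨a, ha, ha2⟩ := near1 hP (e (g⁻¹ * β))
          refine ⟨a, ha2, ?_⟩
          unfold gd
          exact m1 a⁻¹ (H.inv_mem ha) 1 H.one_mem _ (by group)
      · constructor
        · apply s4_U h ps (ℓ β) (cY κ δ c) g _ _ (le_of_eq d1)
          right
          obtain ⟨a, ha, ha2⟩ := near2 hP (e (g⁻¹ * η2))
          refine ⟨β * a, ha2, ?_⟩
          rw [h.gd_comm]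
          unfold gd
          exact m1 η2⁻¹ (H.inv_mem hη2) a ha _ (by group)
        · apply s4_U h ps (ℓ β) (cY κ δ c) g _ _ (le_of_eq d3)
          left
          obtain ⟨a, ha, ha2⟩ := near2 hP (e (g⁻¹ * 1))
          refine ⟨β * a, ha2, ?_⟩
          rw [h.gd_comm, gd_one]
          exact m1 1 H.one_mem a ha _ (by group)
    have hn' : (2 * C + k2 κ + 4 * τ + 4 * (κ + κ * (κ + cY κ δ c + 1) : ℕ) + 2 * κ : ℤ) < n := by
      exact_mod_cast hn
    generalize (κ + κ * (κ + cY κ δ c + 1) : ℕ) = B0 at *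
    rw [hsum] at hg
    have abs4 : |dl e g (η2 * β) η2 + dl e g η2 1 + dl e g 1 β + dl e g β (β * η1)| ≤
        |dl e g (η2 * β) η2| + |dl e g η2 1| + |dl e g 1 β| + |dl e g β (β * η1)| := by
      refine le_trans (abs_add_le _ _) ?_
      refine add_le_add_left (le_trans (abs_add_le _ _) ?_) _
      exact add_le_add_left (abs_add_le _ _) _
    have hκ0 : (0 : ℤ) ≤ κ := by positivity
    have hτ0 : (0 : ℤ) ≤ τ := by positivity
    by_cases hP : g * w * g⁻¹ ∈ H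
    · have hP' : ¬ (β⁻¹ * g * w * (β⁻¹ * g)⁻¹ ∈ H) := fun h2 => nPP' ⟨hP, h2⟩
      have f4 := nP' hP'
      obtain ⟨f1, f3⟩ := hB (Or.inl hP)
      omega
    · have f2 := nP hP
      by_cases hP' : β⁻¹ * g * w * (β⁻¹ * g)⁻¹ ∈ H
      · obtain ⟨f1, f3⟩ := hB (Or.inr hP')
        omega
      · have f4 := nP' hP'
        have g1 : (κ : ℤ) < |dl e g (η2 * β) η2| := by omega
        have g3 : (κ : ℤ) < |dl e g 1 β| := by omega
        have p1 := ps.pass (g⁻¹ * (η2 * β)) (g⁻¹ * η2) g1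
        have p3 := ps.pass (g⁻¹ * 1) (g⁻¹ * β) g3
        rw [gd_left] at p1 p3
        have c2 : gd ℓ (w ^ e (g⁻¹ * η2)) (g⁻¹ * η2) = gd ℓ (g * w ^ e (g⁻¹ * η2)) η2 := by
          rw [← gd_left ℓ g, mul_inv_cancel_left]
        have c3 : gd ℓ (g⁻¹ * 1) (w ^ e (g⁻¹ * 1)) = gd ℓ 1 (g * w ^ e (g⁻¹ * 1)) := by
          rw [← gd_left ℓ g, mul_inv_cancel_left]
        have t1 := h.gd_tri 1 (g * w ^ e (g⁻¹ * 1)) η2
        have t2 := h.gd_tri (g * w ^ e (g⁻¹ * 1)) (g * w ^ e (g⁻¹ * η2)) η2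
        have c4 : gd ℓ (g * w ^ e (g⁻¹ * 1)) (g * w ^ e (g⁻¹ * η2)) =
            ℓ (w ^ (e (g⁻¹ * η2) - e (g⁻¹ * 1))) := by
          unfold gd
          congr 1
          rw [zpow_sub]
          group
        have c5 := s4_zpow_le h w (e (g⁻¹ * η2) - e (g⁻¹ * 1))
        have c6 : (e (g⁻¹ * η2) - e (g⁻¹ * 1)).natAbs ≤ τ := by
          unfold dl at f2
          rw [abs_lt] at f2
          omega
        have c7 : (e (g⁻¹ * η2) - e (g⁻¹ * 1)).natAbs * ℓ w ≤ τ * ℓ w :=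
          Nat.mul_le_mul_right _ c6
        have c8 := gd_one ℓ η2
        omega

/-- (8.6) -/
theorem mn_quot (h : GNorm ℓ) {δ : ℕ} (hyp : Hyp ℓ δ) {w : A} {e : A → ℤ} {κ : ℕ}
    (ps : PS ℓ w κ e) (hw : InfOrd w) (H : Subgroup A) (c : ℕ) (hQ : QCs ℓ (H : Set A) c)
    (hM : MN H) (C : ℕ) : ∃ N : ℕ, ∀ n : ℕ, N ≤ n → Green w e n C →
      ∀ (A' : Type) [Group A'] (q : A →* A') (ℓ' : A' → ℕ), Function.Surjective q → q.ker = KK w n → QNorm q ℓ ℓ' →
        MN (H.map q) := by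
  obtain ⟨τ, hτ⟩ := par_of_far h hyp ps hw H c hQ hM 0
  obtain ⟨N1, hN1⟩ := short_lift h hyp ps hw H c hQ hM C
  refine ⟨N1 + (2 * C + k2 κ + 4 * τ + 4 * (κ + κ * (κ + cY κ δ c + 1)) + 2 * κ) + 1, ?_⟩
  intro n hn hG A' _ q ℓ' hq hker hqn
  have h' := hqn.gnorm hq h
  have qK : ∀ k ∈ KK w n, q k = 1 := by
    intro k hk
    rw [← hker] at hk
    exact hk
  -- shortest lifts of elements of `H'` are in `H`
  have lift : ∀ u' ∈ H.map q, ∃ u ∈ H, q u = u' ∧ ℓ u = ℓ' (q u) := by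
    intro u' hu'
    obtain ⟨u, hu1, hu2⟩ := hqn.lift u'
    refine ⟨u, ?_, hu1, by rw [hu1]; exact hu2⟩
    obtain ⟨a, ha, ha2⟩ := Subgroup.mem_map.mp hu'
    refine hN1 n (by omega) hG 1 u ⟨1, H.one_mem, by rw [h.gd_self]; omega⟩
      ⟨u * a⁻¹, ?_, a, ha, by group⟩ ?_
    · rw [← hker, MonoidHom.mem_ker, map_mul, map_inv, hu1, ha2, mul_inv_cancel]
    · intro k hk
      rw [gd_one, gd_one, hu2, ← hu1]
      have := hqn.le (k * u)
      rw [map_mul, qK k hk, one_mul] at this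
      exact this
  intro b0 h0 hh0 hinf0 hb0
  -- minimal representative of the double coset
  set f : (H.map q) × (H.map q) → ℕ := fun p => ℓ' ((p.1 : A') * b0 * (p.2 : A')) with hf
  obtain ⟨p, hp⟩ : ∃ p, ∀ y, f p ≤ f y := ⟨Function.argmin f, fun y => Function.argmin_le f y⟩
  obtain ⟨⟨a', ha'⟩, ⟨c', hc'⟩⟩ := p
  have hp' : ∀ x ∈ H.map q, ∀ y ∈ H.map q, ℓ' (a' * b0 * c') ≤ ℓ' (x * b0 * y) := by
    intro x hx y hy
    exact hp (⟨x, hx⟩, ⟨y, hy⟩)
  obtain ⟨β, hβ1, hβ2⟩ := hqn.lift (a' * b0 * c')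
  have hinf1 : InfOrd (c'⁻¹ * h0 * c') := by
    have := s4_conj hinf0 c'⁻¹
    rwa [inv_inv] at this
  have hh1 : c'⁻¹ * h0 * c' ∈ H.map q :=
    (H.map q).mul_mem ((H.map q).mul_mem ((H.map q).inv_mem hc') hh0) hc'
  have hh2 : q β * (c'⁻¹ * h0 * c') * (q β)⁻¹ ∈ H.map q := by
    have e1 : q β * (c'⁻¹ * h0 * c') * (q β)⁻¹ = a' * (b0 * h0 * b0⁻¹) * a'⁻¹ := by
      rw [hβ1]; group
    rw [e1]
    exact (H.map q).mul_mem ((H.map q).mul_mem ha' hb0) ((H.map q).inv_mem ha')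
  have hinf2 : InfOrd (q β * (c'⁻¹ * h0 * c') * (q β)⁻¹) := s4_conj hinf1 _
  obtain ⟨j, hj1, hj2⟩ := s4_pow_large h' hinf2 (2 * ℓ β + 2 * κ + τ * ℓ w)
  obtain ⟨η1, hη1, q1, l1⟩ := lift _ ((H.map q).pow_mem hh1 j)
  obtain ⟨η2, hη2, q2, l2⟩ := lift _ ((H.map q).pow_mem hh2 j)
  have hη1inf : InfOrd η1 := by
    intro m hm he
    have h1 : (q η1) ^ m = 1 := by rw [← map_pow, he, map_one]
    rw [q1, ← pow_mul] at h1
    exact hinf1 (j * m) (Nat.mul_pos (by omega) hm) h1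
  have hβH : β ∈ H := by
    refine s4_core h hyp ps hw H c hQ hM C τ hτ n (by omega) hG q ℓ' hker hqn β
      (by rw [hβ1]; exact hβ2) ?_ η1 η2 hη1 hη2 l1 l2 hη1inf ?_ h'.inv ?_
    · intro a ha b hb
      rw [hβ2, map_mul, map_mul, hβ1]
      have := hp' (q a * a') ((H.map q).mul_mem (Subgroup.mem_map_of_mem q ha) ha')
        (c' * q b) ((H.map q).mul_mem hc' (Subgroup.mem_map_of_mem q hb))
      have e1 : q a * a' * b0 * (c' * q b) = q a * (a' * b0 * c') * q b := by group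
      rw [e1] at this
      exact this
    · rw [map_mul, map_mul, q1, q2, conj_pow]
      group
    · rw [l2, q2]; exact hj2
  have h1 : q β ∈ H.map q := Subgroup.mem_map_of_mem q hβH
  rw [hβ1] at h1
  have h2 : b0 = a'⁻¹ * (a' * b0 * c') * c'⁻¹ := by group
  rw [h2]
  exact (H.map q).mul_mem ((H.map q).mul_mem ((H.map q).inv_mem ha') h1) ((H.map q).inv_mem hc')

end L2B
end

section

namespace L2B
variable {A : Type*} [Group A] {ℓ : A → ℕ}

private theorem baseC_step (c : A) (f : Fin 4 → A) (N : Fin 4 → ℕ) (l : Wd) (i : ℕ)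
    (hi : i < l.length) :
    wval c f N (l.take (i + 1)) = wval c f N (l.take i) * Uu c f N (l[i]'hi).1 ^ sg (l[i]'hi).2 := by
  unfold wval
  rw [List.take_succ_eq_append_getElem hi, List.map_append, List.prod_append]
  simp

omit [Group A] in
/-- a bound for the norms of the letters -/
private theorem baseC_letter (ℓ : A → ℕ) (U : Fin 4 → A) (i : Fin 4) :
    ℓ (U i) ≤ ℓ (U 0) + ℓ (U 1) + ℓ (U 2) + ℓ (U 3) := by
  fin_cases i <;> simp <;> omega

private theorem baseC_sg (h : GNorm ℓ) (u : A) (b : Bool) : ℓ (u ^ sg b) = ℓ u := by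
  cases b
  · simp [sg, h.inv]
  · simp [sg]

private theorem baseC_rep (h : GNorm ℓ) (c : A) (f : Fin 4 → A) (N : Fin 4 → ℕ)
    (p : Fin 4 × Bool) :
    ℓ (lastRep c f N p) ≤
      ℓ (Uu c f N 0) + ℓ (Uu c f N 1) + ℓ (Uu c f N 2) + ℓ (Uu c f N 3) := by
  unfold lastRep
  split_ifs
  · omega
  · omega
  · rw [h.one]
    omega

/-- (9.2): `⟨U₀U₁, U₂U₃⟩` is free of rank two and quasiconvex -/
theorem base_free_qc (h : GNorm ℓ) {δ : ℕ} (hyp : Hyp ℓ δ) {c : A} {e : A → ℤ} {κ : ℕ}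
    (ps : PS ℓ c κ e) (f : Fin 4 → A) (hf : ∀ i j, i ≠ j → ¬ SameL c (f i) (f j)) :
    ∃ E : ℕ, ∀ N : Fin 4 → ℕ, (∀ i, E ≤ N i) →
      Function.Injective
        (FreeGroup.lift ![Uu c f N 0 * Uu c f N 1, Uu c f N 2 * Uu c f N 3]) ∧
      ∃ c' : ℕ, QCs ℓ ((Subgroup.closure {Uu c f N 0 * Uu c f N 1, Uu c f N 2 * Uu c f N 3} :
        Subgroup A) : Set A) c' := by
  obtain ⟨C, E, H⟩ := base_chain h hyp ps f hf
  refine ⟨E, fun N hN => ?_⟩
  have hred : ∀ a : FreeGroup (Fin 2), FreeGroup.reduce a.toWord = a.toWord :=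
    fun a => FreeGroup.reduce_toWord a
  have hval : ∀ a : FreeGroup (Fin 2), wval c f N (expd a.toWord) =
      FreeGroup.lift ![Uu c f N 0 * Uu c f N 1, Uu c f N 2 * Uu c f N 3] a := by
    intro a
    rw [expd_val, FreeGroup.mk_toWord]
  refine ⟨?_, ?_⟩
  · rw [injective_iff_map_eq_one]
    intro a ha
    obtain ⟨-, -, -, h4, -⟩ := H N hN _ (expd_alt _ (hred a))
    rw [hval, ha, h.one, expd_length] at h4
    have h5 : a.toWord = [] := List.eq_nil_of_length_eq_zero (by omega)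
    rw [← FreeGroup.mk_toWord (x := a), h5]
    rfl
  · set M := ℓ (Uu c f N 0) + ℓ (Uu c f N 1) + ℓ (Uu c f N 2) + ℓ (Uu c f N 3) with hM
    have hrange : (FreeGroup.lift ![Uu c f N 0 * Uu c f N 1, Uu c f N 2 * Uu c f N 3]).range =
        Subgroup.closure {Uu c f N 0 * Uu c f N 1, Uu c f N 2 * Uu c f N 3} := by
      rw [FreeGroup.range_lift_eq_closure]
      congr 1
      simp [Matrix.range_cons, Matrix.range_empty, Set.pair_comm]
    refine ⟨2 * C + 6 * δ + 2 * M, ?_⟩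
    intro x hx y hy z hz
    have hg : x⁻¹ * y ∈ Subgroup.closure
        {Uu c f N 0 * Uu c f N 1, Uu c f N 2 * Uu c f N 3} :=
      Subgroup.mul_mem _ (Subgroup.inv_mem _ hx) hy
    have hg2 := hg
    rw [← hrange] at hg2
    obtain ⟨a, ha⟩ := hg2
    rw [← hval] at ha
    have hz0 : Btw ℓ 1 (x⁻¹ * y) (x⁻¹ * z) := by
      have h1 := (btw_left ℓ x⁻¹ x y z).2 hz
      rwa [inv_mul_cancel] at h1
    -- it is enough to find a point near `x⁻¹ * z`
    suffices hs : ∃ u ∈ Subgroup.closure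
        {Uu c f N 0 * Uu c f N 1, Uu c f N 2 * Uu c f N 3},
        gd ℓ (x⁻¹ * z) u ≤ 2 * C + 6 * δ + 2 * M by
      obtain ⟨u, hu, hu2⟩ := hs
      refine ⟨x * u, Subgroup.mul_mem _ hx hu, ?_⟩
      have h1 := gd_left ℓ x (x⁻¹ * z) u
      rw [mul_inv_cancel_left] at h1
      rw [h1]
      exact hu2
    have halt := expd_alt _ (hred a)
    obtain ⟨-, h2, -⟩ := H N hN _ halt
    set l := expd a.toWord with hl
    rcases Nat.eq_zero_or_pos l.length with h0 | h0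
    · have h3 : l = [] := List.eq_nil_of_length_eq_zero h0
      rw [h3] at ha
      have h4 : x⁻¹ * y = 1 := by
        rw [← ha]
        simp [wval]
      rw [h4] at hz0
      unfold Btw at hz0
      rw [h.gd_self] at hz0
      exact ⟨1, Subgroup.one_mem _, by omega⟩
    · obtain ⟨i, hi, z', hz', hd⟩ := cover h hyp hz0 (fun t => wval c f N (l.take t)) l.length C h0
        (by simp [wval]) (by rw [List.take_length]; exact ha)
        (by
          intro i hi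
          have := h2 i hi
          rw [gd_one, gd_one, ← ha]
          exact this)
      have hp := expd_prefix c f N a.toWord i hi
      refine ⟨_, hp, ?_⟩
      have e1 : gd ℓ (wval c f N (l.take i)) (wval c f N (l.take (i + 1))) ≤ M := by
        rw [baseC_step c f N l i hi]
        unfold gd
        rw [inv_mul_cancel_left, baseC_sg h]
        exact baseC_letter ℓ (Uu c f N) _
      have e2 : gd ℓ (wval c f N (l.take (i + 1)))
          (wval c f N (l.take (i + 1)) * (lastRep c f N (l[i]'hi))⁻¹) ≤ M := by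
        unfold gd
        rw [inv_mul_cancel_left, h.inv]
        exact baseC_rep h c f N _
      have t1 := h.gd_tri (x⁻¹ * z) z' (wval c f N (l.take (i + 1)) * (lastRep c f N (l[i]'hi))⁻¹)
      have t2 := h.gd_tri z' (wval c f N (l.take (i + 1)))
        (wval c f N (l.take (i + 1)) * (lastRep c f N (l[i]'hi))⁻¹)
      unfold Btw at hz'
      change gd ℓ (x⁻¹ * z) (wval c f N (l.take (i + 1)) * (lastRep c f N (l[i]'hi))⁻¹) ≤ _
      omega

end L2B
end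

section

/-! # Independence of the generators -/

noncomputable section

namespace MP42532b.L2

open scoped InnerProductSpace

variable {G : Type*} [Group G] {d e : ℕ} (s : Fin d → G) (t : Fin e → G)

theorem beta_le_beta (hs : Function.Surjective (FreeGroup.lift s))
    (ht : Function.Surjective (FreeGroup.lift t)) : beta s ≤ beta t := by
  choose w hw using fun j => hs (t j)
  choose w' hw' using fun i => ht (s i)
  obtain ⟨Φ, hΦ, hΦ'⟩ := exists_pathOps s w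
  obtain ⟨Ψ, hΨ, hΨ'⟩ := exists_pathOps t w'
  obtain ⟨A, hA, hA'⟩ := exists_gradOp t
  obtain ⟨A₀, hA₀, hA₀'⟩ := exists_gradOp s
  have hΦg : ∀ (v : Hi G (Fin d)) (f : G → ℝ), (∀ g i, v (g, i) = f (g * s i) - f g) →
      ∀ g j, Φ v (g, j) = f (g * t j) - f g := by
    intro v f hf g j
    rw [hΦ', pint_grad s v f hf, hw]
  have hΨg : ∀ (v : Hi G (Fin e)) (f : G → ℝ), (∀ g i, v (g, i) = f (g * t i) - f g) →
      ∀ g j, Ψ v (g, j) = f (g * s j) - f g := by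
    intro v f hf g j
    rw [hΨ', pint_grad t v f hf, hw']
  have hWc : (harmS t).topologicalClosure = harmS t :=
    (isClosed_harmS t ht).submodule_topologicalClosure_eq
  set P := (harmS t).topologicalClosure.starProjection with hP
  have hPe : Equivar P := (invar_harmS t).closure.starProjection
  refine vdim_le_of_injOn (A := P ∘L Φ) (hPe.comp hΦ) (invar_harmS s) (isClosed_harmS s hs) ?_ ?_
  · intro u hu hu0
    rw [ContinuousLinearMap.comp_apply] at hu0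
    obtain ⟨f, -, hf⟩ := id hu
    set z := Φ u with hz
    have hzf : ∀ g j, z (g, j) = f (g * t j) - f g := hΦg u f hf
    have hzg : z ∈ gradS t := ⟨f, hzf⟩
    have hΨz : Ψ z = u := by
      ext p
      obtain ⟨g, i⟩ := p
      rw [hΨg z f hzf, hf]
    have hzW : ∀ y ∈ harmS t, ⟪z, y⟫_ℝ = 0 := by
      intro y hy
      have h1 := (harmS t).topologicalClosure.starProjection_inner_eq_zero z y
        ((harmS t).le_topologicalClosure hy)
      rw [← hP, hu0, sub_zero] at h1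
      exact h1
    set R := (A : Hi G Unit →ₗ[ℝ] Hi G (Fin e)).range with hR
    have hRg : R.topologicalClosure ≤ gradS t :=
      R.topologicalClosure_minimal (range_le_gradS t hA') (isClosed_gradS t ht)
    set q := R.topologicalClosure.starProjection z with hq
    have hqB : q ∈ R.topologicalClosure := R.topologicalClosure.starProjection_apply_mem z
    have hyB : ∀ x ∈ R.topologicalClosure, ⟪z - q, x⟫_ℝ = 0 :=
      fun x hx => R.topologicalClosure.starProjection_inner_eq_zero z x hx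
    have hyW : z - q ∈ harmS t := by
      rw [harmS_eq t hA']
      refine ⟨(gradS t).sub_mem hzg (hRg hqB), ?_⟩
      refine (Submodule.mem_orthogonal _ _).2 fun x hx => ?_
      rw [real_inner_comm]
      exact hyB x (R.le_topologicalClosure hx)
    have hy0 : z - q = 0 := by
      rw [← inner_self_eq_zero (𝕜 := ℝ) (x := z - q)]
      rw [inner_sub_right, hyB q hqB, real_inner_comm, hzW _ hyW, sub_zero]
    have hzB : z ∈ R.topologicalClosure := by
      rw [sub_eq_zero.1 hy0]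
      exact hqB
    -- apply `Ψ`
    set R₀ := (A₀ : Hi G Unit →ₗ[ℝ] Hi G (Fin d)).range with hR₀
    have hmaps : Set.MapsTo Ψ (R : Set (Hi G (Fin e))) (R₀ : Set (Hi G (Fin d))) := by
      rintro _ ⟨x, rfl⟩
      refine ⟨x, ?_⟩
      ext p
      obtain ⟨g, i⟩ := p
      change A₀ x (g, i) = Ψ (A x) (g, i)
      rw [hΨg (A x) (fun g => x (g, ())) (fun g j => hA' x g j), hA₀']
    have hu1 : u ∈ R₀.topologicalClosure := by
      rw [← hΨz]
      exact map_mem_closure Ψ.continuous hzB hmaps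
    have hu2 : u ∈ R₀ᗮ := by
      rw [harmS_eq s hA₀'] at hu
      exact hu.2
    rw [← inner_self_eq_zero (𝕜 := ℝ) (x := u)]
    rw [← Submodule.orthogonal_closure] at hu2
    exact (Submodule.mem_orthogonal _ _).1 hu2 u hu1
  · intro u hu
    exact hWc.le ((harmS t).topologicalClosure.starProjection_apply_mem (Φ u))

/-- **the first `L²`-Betti number does not depend on the generating tuple** -/
theorem beta_eq_beta (hs : Function.Surjective (FreeGroup.lift s))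
    (ht : Function.Surjective (FreeGroup.lift t)) : beta s = beta t :=
  le_antisymm (beta_le_beta s t hs ht) (beta_le_beta t s ht hs)

end MP42532b.L2
end
end
end
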